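import Pool.Agent.Lib.MP_7b7e48_nt.LX.Fun

/-!
# MP_7b7e48_nt : the lexicographically first classes (helper81)
-/

namespace Pool.Agent.Lib.MP_7b7e48_nt.LX

open Finset

/-- `a` is in the lexicographically first classes (`c` decides about the last class). -/
def memA (c : ℝ → Prop) : List ℕ → ℝ → ℕ → Prop
  | [], x, _ => c x
  | q :: L, x, a =>
      (((q : ℝ) - 1) * x ≤ 1 ∧ a % q = 1 ∧ memA c L (((q : ℝ) - 1) * x) a) ∨
      (1 < ((q : ℝ) - 1) * x ∧
        (a % q = 1 ∨ memA c L ((((q : ℝ) - 1) * x - 1) / ((q : ℝ) - 2)) a))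

/-- the classes that are a sum of one of the first classes and a unit class -/
def nbA : List ℕ → ℝ → ℕ → Prop
  | [], x, _ => 0 < x
  | q :: L, x, a =>
      (((q : ℝ) - 1) * x ≤ 1 ∧ a % q ≠ 1 ∧ nbA L (((q : ℝ) - 1) * x) a) ∨
      (1 < ((q : ℝ) - 1) * x ∧
        (a % q ≠ 1 ∨ nbA L ((((q : ℝ) - 1) * x - 1) / ((q : ℝ) - 2)) a))

open Classical in
/-- density of the first classes -/
noncomputable def rho (c : ℝ → Prop) : List ℕ → ℝ → ℝ
  | [], x => if c x then 1 else 0
  | q :: L, x =>
      if ((q : ℝ) - 1) * x ≤ 1 then rho c L (((q : ℝ) - 1) * x) / ((q : ℝ) - 1)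
      else (1 + ((q : ℝ) - 2) * rho c L ((((q : ℝ) - 1) * x - 1) / ((q : ℝ) - 2))) / ((q : ℝ) - 1)

theorem memA_cons (c : ℝ → Prop) (q : ℕ) (L : List ℕ) (x : ℝ) (a : ℕ) : memA c (q :: L) x a ↔
    (((q : ℝ) - 1) * x ≤ 1 ∧ a % q = 1 ∧ memA c L (((q : ℝ) - 1) * x) a) ∨
      (1 < ((q : ℝ) - 1) * x ∧
        (a % q = 1 ∨ memA c L ((((q : ℝ) - 1) * x - 1) / ((q : ℝ) - 2)) a)) := Iff.rfl

theorem nbA_cons (q : ℕ) (L : List ℕ) (x : ℝ) (a : ℕ) : nbA (q :: L) x a ↔
    (((q : ℝ) - 1) * x ≤ 1 ∧ a % q ≠ 1 ∧ nbA L (((q : ℝ) - 1) * x) a) ∨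
      (1 < ((q : ℝ) - 1) * x ∧
        (a % q ≠ 1 ∨ nbA L ((((q : ℝ) - 1) * x - 1) / ((q : ℝ) - 2)) a)) := Iff.rfl

theorem memA_mod (c : ℝ → Prop) : ∀ (L : List ℕ) (m : ℕ) (_ : ∀ q ∈ L, q ∣ m) (x : ℝ) (a : ℕ),
    memA c L x (a % m) ↔ memA c L x a
  | [], _, _, _, _ => Iff.rfl
  | q :: L, m, h, x, a => by
    have h1 : a % m % q = a % q := Nat.mod_mod_of_dvd _ (h q (by simp))
    rw [memA_cons, memA_cons, h1, memA_mod c L m (fun r hr => h r (by simp [hr])),
      memA_mod c L m (fun r hr => h r (by simp [hr]))]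

theorem nbA_mod : ∀ (L : List ℕ) (m : ℕ) (_ : ∀ q ∈ L, q ∣ m) (x : ℝ) (a : ℕ),
    nbA L x (a % m) ↔ nbA L x a
  | [], _, _, _, _ => Iff.rfl
  | q :: L, m, h, x, a => by
    have h1 : a % m % q = a % q := Nat.mod_mod_of_dvd _ (h q (by simp))
    rw [nbA_cons, nbA_cons, h1, nbA_mod L m (fun r hr => h r (by simp [hr])),
      nbA_mod L m (fun r hr => h r (by simp [hr]))]

theorem memA_add : ∀ (L : List ℕ) (x : ℝ) (a b : ℕ), (∀ q ∈ L, 2 ≤ q) → (∀ q ∈ L, b % q ≠ 0) →
    memA (fun x => 0 < x) L x a → nbA L x (a + b)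
  | [], _, _, _, _, _, h => h
  | q :: L, x, a, b, hL, hb, h => by
    have hq := hL q (by simp)
    have hbq := hb q (by simp)
    have ih := fun x => memA_add L x a b (fun r hr => hL r (by simp [hr]))
      (fun r hr => hb r (by simp [hr]))
    have h1 : a % q = 1 → (a + b) % q ≠ 1 := by
      intro h1 h2
      rw [Nat.add_mod, h1] at h2
      have h3 := Nat.mod_lt b (by omega : 0 < q)
      rcases Nat.lt_or_ge (1 + b % q) q with h4 | h4
      · rw [Nat.mod_eq_of_lt h4] at h2
        omega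
      · have h5 : 1 + b % q = q := by omega
        rw [h5, Nat.mod_self] at h2
        omega
    rcases h with ⟨h2, h3, h4⟩ | ⟨h2, h3⟩
    · exact Or.inl ⟨h2, h1 h3, ih _ h4⟩
    · refine Or.inr ⟨h2, ?_⟩
      rcases h3 with h3 | h3
      · exact Or.inl (h1 h3)
      · exact Or.inr (ih _ h3)

/-- counting with the Chinese remainder theorem -/
theorem card_crt {q m : ℕ} (hq : 0 < q) (hm : 0 < m) (h : Nat.Coprime q m) (P Q : ℕ → Prop)
    [DecidablePred P] [DecidablePred Q] :
    ((range (q * m)).filter (fun n => P (n % q) ∧ Q (n % m))).card =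
      ((range q).filter P).card * ((range m).filter Q).card := by
  rw [← Finset.card_product]
  apply Finset.card_bij (fun n _ => (n % q, n % m))
  · intro n hn
    rw [Finset.mem_filter, Finset.mem_range] at hn
    rw [Finset.mem_product, Finset.mem_filter, Finset.mem_filter, Finset.mem_range,
      Finset.mem_range]
    exact ⟨⟨Nat.mod_lt _ hq, hn.2.1⟩, Nat.mod_lt _ hm, hn.2.2⟩
  · intro a ha b hb hab
    rw [Finset.mem_filter, Finset.mem_range] at ha hb
    have h1 : a ≡ b [MOD q] := (Prod.ext_iff.mp hab).1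
    have h2 : a ≡ b [MOD m] := (Prod.ext_iff.mp hab).2
    have h3 : a ≡ b [MOD q * m] := (Nat.modEq_and_modEq_iff_modEq_mul h).mp ⟨h1, h2⟩
    exact Nat.ModEq.eq_of_lt_of_lt h3 ha.1 hb.1
  · rintro ⟨a, b⟩ hab
    rw [Finset.mem_product, Finset.mem_filter, Finset.mem_filter, Finset.mem_range,
      Finset.mem_range] at hab
    obtain ⟨⟨ha, hPa⟩, hb, hQb⟩ := hab
    simp only at ha hPa hb hQb
    obtain ⟨n, hn1, hn2⟩ := Nat.chineseRemainder h a b
    have e1 : n % (q * m) % q = a := by
      rw [Nat.mod_mod_of_dvd _ (Dvd.intro _ rfl)]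
      exact (show n % q = a % q from hn1).trans (Nat.mod_eq_of_lt ha)
    have e2 : n % (q * m) % m = b := by
      rw [Nat.mod_mod_of_dvd _ (Dvd.intro_left _ rfl)]
      exact (show n % m = b % m from hn2).trans (Nat.mod_eq_of_lt hb)
    refine ⟨n % (q * m), ?_, by rw [e1, e2]⟩
    rw [Finset.mem_filter, Finset.mem_range, e1, e2]
    exact ⟨Nat.mod_lt _ (Nat.mul_pos hq hm), hPa, hQb⟩

theorem card_range_eq_one {q : ℕ} (hq : 2 ≤ q) : ((range q).filter (fun r => r = 1)).card = 1 := by
  rw [Finset.card_eq_one]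
  refine ⟨1, ?_⟩
  ext r
  rw [Finset.mem_filter, Finset.mem_range, Finset.mem_singleton]
  omega

theorem card_range_ne_one {q : ℕ} (hq : 2 ≤ q) :
    ((range q).filter (fun r => r ≠ 1)).card = q - 1 := by
  have h1 := Finset.card_filter_add_card_filter_not (s := range q) (fun r => r = 1)
  rw [card_range_eq_one hq, Finset.card_range] at h1
  have h2 : ((range q).filter (fun r => r ≠ 1)).card = ((range q).filter (fun r => ¬ r = 1)).card :=
    rfl
  omega

theorem card_range_ne_zero_one {q : ℕ} (hq : 2 ≤ q) :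
    ((range q).filter (fun r => r ≠ 0 ∧ r ≠ 1)).card = q - 2 := by
  have h1 : (range q).filter (fun r => r ≠ 0 ∧ r ≠ 1) = Finset.Ico 2 q := by
    ext r
    rw [Finset.mem_filter, Finset.mem_range, Finset.mem_Ico]
    omega
  rw [h1, Nat.card_Ico]

theorem list_prod_pos {L : List ℕ} (h : ∀ q ∈ L, q.Prime) : 0 < L.prod :=
  List.prod_pos fun q hq => (h q hq).pos

theorem coprime_prod {p : ℕ} {L : List ℕ} (hp : p.Prime) (h : ∀ q ∈ L, q.Prime) (hn : p ∉ L) :
    Nat.Coprime p L.prod := by
  rw [Nat.coprime_list_prod_right_iff]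
  intro q hq
  rw [Nat.coprime_primes hp (h q hq)]
  rintro rfl
  exact hn hq

theorem coprime_mul_iff {q m a : ℕ} (hq : q.Prime) :
    Nat.Coprime a (q * m) ↔ a % q ≠ 0 ∧ Nat.Coprime (a % m) m := by
  rw [Nat.coprime_mul_iff_right]
  refine and_congr ?_ ?_
  · rw [Nat.coprime_comm, Nat.Prime.coprime_iff_not_dvd hq, Nat.dvd_iff_mod_eq_zero]
  · have h1 : Nat.gcd (a % m) m = Nat.gcd a m := by
      rw [Nat.gcd_comm a m, Nat.gcd_rec m a]
    unfold Nat.Coprime
    rw [h1]

theorem card_cop (L : List ℕ) : (∀ q ∈ L, q.Prime) → L.Nodup →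
    (((range L.prod).filter (fun u => Nat.Coprime u L.prod)).card : ℝ) =
      (L.map (fun q : ℕ => (q : ℝ) - 1)).prod := by
  classical
  induction L with
  | nil => intro _ _; simp
  | cons q L ih =>
    intro hL hnd
    obtain ⟨hqL, hnd'⟩ := List.nodup_cons.mp hnd
    have hq := hL q (by simp)
    have hL' : ∀ r ∈ L, r.Prime := fun r hr => hL r (by simp [hr])
    have hm := list_prod_pos hL'
    have hcop := coprime_prod hq hL' hqL
    rw [List.prod_cons, List.map_cons, List.prod_cons]
    have e : (range (q * L.prod)).filter (fun u => Nat.Coprime u (q * L.prod)) =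
        (range (q * L.prod)).filter (fun u => (u % q ≠ 0) ∧
          (Nat.Coprime (u % L.prod) L.prod)) := by
      refine Finset.filter_congr fun u _ => ?_
      rw [coprime_mul_iff hq]
    have h1 : ((range q).filter (fun r => r ≠ 0)).card = q - 1 := by
      have : (range q).filter (fun r => r ≠ 0) = Finset.Ico 1 q := by
        ext r
        rw [Finset.mem_filter, Finset.mem_range, Finset.mem_Ico]
        omega
      rw [this, Nat.card_Ico]
    rw [e, card_crt hq.pos hm hcop (fun r => r ≠ 0) (fun r => Nat.Coprime r L.prod), h1]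
    push_cast
    rw [ih hL' hnd', Nat.cast_sub hq.one_le]
    push_cast
    ring

open Classical in
theorem card_memA (c : ℝ → Prop) (L : List ℕ) : ∀ (x : ℝ), (∀ q ∈ L, q.Prime ∧ 3 ≤ q) →
    L.Nodup → (((range L.prod).filter (fun u => Nat.Coprime u L.prod ∧ memA c L x u)).card : ℝ) =
      (L.map (fun q : ℕ => (q : ℝ) - 1)).prod * rho c L x := by
  induction L with
  | nil =>
    intro x _ _
    simp only [List.prod_nil, List.map_nil, one_mul, Finset.range_one, rho, memA]
    by_cases h : c x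
    · simp [h]
    · simp [h]
  | cons q L ih =>
    intro x hL hnd
    obtain ⟨hqL, hnd'⟩ := List.nodup_cons.mp hnd
    have hq := (hL q (by simp)).1
    have hq3 := (hL q (by simp)).2
    have hq3R : (3 : ℝ) ≤ q := by exact_mod_cast hq3
    have hL' : ∀ r ∈ L, r.Prime ∧ 3 ≤ r := fun r hr => hL r (by simp [hr])
    have hm := list_prod_pos fun r hr => (hL' r hr).1
    have hcop := coprime_prod hq (fun r hr => (hL' r hr).1) hqL
    have hdvd : ∀ r ∈ L, r ∣ L.prod := fun r hr => List.dvd_prod hr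
    have htot : (((range L.prod).filter (fun u => Nat.Coprime u L.prod)).card : ℝ) =
        (L.map (fun q : ℕ => (q : ℝ) - 1)).prod := card_cop L (fun r hr => (hL' r hr).1) hnd'
    rw [List.prod_cons, List.map_cons, List.prod_cons]
    unfold rho
    by_cases hw : ((q : ℝ) - 1) * x ≤ 1
    · rw [if_pos hw]
      have e : (range (q * L.prod)).filter (fun u => Nat.Coprime u (q * L.prod) ∧
          memA c (q :: L) x u) = (range (q * L.prod)).filter (fun u => (u % q = 1) ∧
          (Nat.Coprime (u % L.prod) L.prod ∧ memA c L (((q : ℝ) - 1) * x) (u % L.prod))) := by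
        refine Finset.filter_congr fun u _ => ?_
        rw [coprime_mul_iff hq, memA_mod c L L.prod hdvd, memA_cons]
        constructor
        · rintro ⟨⟨h1, h2⟩, ⟨_, h3, h4⟩ | ⟨h3, _⟩⟩
          · exact ⟨h3, h2, h4⟩
          · exact absurd hw (not_le.mpr h3)
        · rintro ⟨h1, h2, h3⟩
          exact ⟨⟨by omega, h2⟩, Or.inl ⟨hw, h1, h3⟩⟩
      rw [e, card_crt hq.pos hm hcop (fun r => r = 1)
        (fun r => Nat.Coprime r L.prod ∧ memA c L (((q : ℝ) - 1) * x) r),
        card_range_eq_one hq.two_le, one_mul, ih _ hL' hnd']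
      have : (q : ℝ) - 1 ≠ 0 := by linarith
      field_simp
    · rw [if_neg hw]
      push Not at hw
      have e : (range (q * L.prod)).filter (fun u => Nat.Coprime u (q * L.prod) ∧
          memA c (q :: L) x u) = (range (q * L.prod)).filter (fun u => (u % q = 1) ∧
          (Nat.Coprime (u % L.prod) L.prod)) ∪
          (range (q * L.prod)).filter (fun u => (u % q ≠ 0 ∧ u % q ≠ 1) ∧
          (Nat.Coprime (u % L.prod) L.prod ∧
            memA c L ((((q : ℝ) - 1) * x - 1) / ((q : ℝ) - 2)) (u % L.prod))) := by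
        rw [← Finset.filter_or]
        refine Finset.filter_congr fun u _ => ?_
        rw [coprime_mul_iff hq, memA_mod c L L.prod hdvd, memA_cons]
        constructor
        · rintro ⟨⟨h1, h2⟩, ⟨h3, _⟩ | ⟨_, h4⟩⟩
          · exact absurd hw (not_lt.mpr h3)
          · by_cases h5 : u % q = 1
            · exact Or.inl ⟨h5, h2⟩
            · rcases h4 with h4 | h4
              · exact absurd h4 h5
              · exact Or.inr ⟨⟨h1, h5⟩, h2, h4⟩
        · rintro (⟨h1, h2⟩ | ⟨⟨h1, h2⟩, h3, h4⟩)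
          · exact ⟨⟨by omega, h2⟩, Or.inr ⟨hw, Or.inl h1⟩⟩
          · exact ⟨⟨h1, h3⟩, Or.inr ⟨hw, Or.inr h4⟩⟩
      rw [e, Finset.card_union_of_disjoint]
      · rw [card_crt hq.pos hm hcop (fun r => r = 1) (fun r => Nat.Coprime r L.prod),
          card_crt hq.pos hm hcop (fun r => r ≠ 0 ∧ r ≠ 1)
          (fun r => Nat.Coprime r L.prod ∧
            memA c L ((((q : ℝ) - 1) * x - 1) / ((q : ℝ) - 2)) r),
          card_range_eq_one hq.two_le, card_range_ne_zero_one hq.two_le, one_mul]
        push_cast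
        rw [ih _ hL' hnd', htot, Nat.cast_sub hq.two_le]
        have : (q : ℝ) - 1 ≠ 0 := by linarith
        field_simp
        push_cast
        ring
      · rw [Finset.disjoint_left]
        intro u hu hu'
        rw [Finset.mem_filter] at hu hu'
        exact hu'.2.1.2 hu.2.1

open Classical in
theorem card_nbA (L : List ℕ) : ∀ (x : ℝ), (∀ q ∈ L, q.Prime ∧ 3 ≤ q) →
    L.Nodup → (((range L.prod).filter (fun u => nbA L x u)).card : ℝ) =
      (L.prod : ℝ) * lexG L x := by
  induction L with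
  | nil =>
    intro x _ _
    simp only [List.prod_nil, Finset.range_one, nbA, lexG]
    by_cases h : 0 < x
    · simp [h, not_le.mpr h]
    · simp [h, not_lt.mp h]
  | cons q L ih =>
    intro x hL hnd
    obtain ⟨hqL, hnd'⟩ := List.nodup_cons.mp hnd
    have hq := (hL q (by simp)).1
    have hq3 := (hL q (by simp)).2
    have hq3R : (3 : ℝ) ≤ q := by exact_mod_cast hq3
    have hL' : ∀ r ∈ L, r.Prime ∧ 3 ≤ r := fun r hr => hL r (by simp [hr])
    have hm := list_prod_pos fun r hr => (hL' r hr).1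
    have hcop := coprime_prod hq (fun r hr => (hL' r hr).1) hqL
    have hdvd : ∀ r ∈ L, r ∣ L.prod := fun r hr => List.dvd_prod hr
    rw [List.prod_cons]
    unfold lexG
    by_cases hw : ((q : ℝ) - 1) * x ≤ 1
    · rw [if_pos hw]
      have e : (range (q * L.prod)).filter (fun u => nbA (q :: L) x u) =
          (range (q * L.prod)).filter (fun u => (u % q ≠ 1) ∧
          (nbA L (((q : ℝ) - 1) * x) (u % L.prod))) := by
        refine Finset.filter_congr fun u _ => ?_
        rw [nbA_mod L L.prod hdvd, nbA_cons]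
        constructor
        · rintro (⟨_, h3, h4⟩ | ⟨h3, _⟩)
          · exact ⟨h3, h4⟩
          · exact absurd hw (not_le.mpr h3)
        · rintro ⟨h1, h2⟩
          exact Or.inl ⟨hw, h1, h2⟩
      rw [e, card_crt hq.pos hm hcop (fun r => r ≠ 1)
        (fun r => nbA L (((q : ℝ) - 1) * x) r), card_range_ne_one hq.two_le]
      push_cast
      rw [ih _ hL' hnd', Nat.cast_sub hq.one_le]
      have : (q : ℝ) ≠ 0 := by linarith
      field_simp
      push_cast
      ring
    · rw [if_neg hw]
      push Not at hw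
      have e : (range (q * L.prod)).filter (fun u => nbA (q :: L) x u) =
          (range (q * L.prod)).filter (fun u => (u % q ≠ 1) ∧ True) ∪
          (range (q * L.prod)).filter (fun u => (u % q = 1) ∧
            nbA L ((((q : ℝ) - 1) * x - 1) / ((q : ℝ) - 2)) (u % L.prod)) := by
        rw [← Finset.filter_or]
        refine Finset.filter_congr fun u _ => ?_
        rw [nbA_mod L L.prod hdvd, nbA_cons]
        constructor
        · rintro (⟨h3, _⟩ | ⟨_, h4⟩)
          · exact absurd hw (not_lt.mpr h3)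
          · by_cases h5 : u % q = 1
            · rcases h4 with h4 | h4
              · exact absurd h5 h4
              · exact Or.inr ⟨h5, h4⟩
            · exact Or.inl ⟨h5, trivial⟩
        · rintro (⟨h1, _⟩ | ⟨h1, h2⟩)
          · exact Or.inr ⟨hw, Or.inl h1⟩
          · exact Or.inr ⟨hw, Or.inr h2⟩
      rw [e, Finset.card_union_of_disjoint]
      · rw [card_crt hq.pos hm hcop (fun r => r ≠ 1) (fun _ => True),
          card_crt hq.pos hm hcop (fun r => r = 1)
          (fun r => nbA L ((((q : ℝ) - 1) * x - 1) / ((q : ℝ) - 2)) r),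
          card_range_eq_one hq.two_le, card_range_ne_one hq.two_le, one_mul]
        simp only [Finset.filter_true, Finset.card_range]
        push_cast
        rw [ih _ hL' hnd', Nat.cast_sub hq.one_le]
        have : (q : ℝ) ≠ 0 := by linarith
        field_simp
        push_cast
        ring
      · rw [Finset.disjoint_left]
        intro u hu hu'
        rw [Finset.mem_filter] at hu hu'
        exact hu.2.1 hu'.2.1

end Pool.Agent.Lib.MP_7b7e48_nt.LX
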