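import Pool.Agent.Lib.MP_7b7e48_nt.LX.Fun

/-!
# MP_7b7e48_nt : sets of units plus all units in finite rings (helper81)
-/

namespace Pool.Agent.Lib.MP_7b7e48_nt.LX

open Finset Classical

/-- the units of `R` -/
noncomputable def unitsF (R : Type) [CommRing R] [Fintype R] : Finset R :=
  univ.filter fun u => IsUnit u

/-- the sums of an element of `S` and a unit -/
noncomputable def nbh {R : Type} [CommRing R] [Fintype R] (S : Finset R) : Finset R :=
  univ.filter fun z => ∃ s ∈ S, IsUnit (z - s)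

def LocP (R : Type) [CommRing R] [Fintype R] (L : List ℕ) : Prop :=
  ∀ S : Finset R, (∀ s ∈ S, IsUnit s) →
    (Fintype.card R : ℝ) * lexG L ((S.card : ℝ) / (unitsF R).card) ≤ ((nbh S).card : ℝ)

theorem mem_unitsF {R : Type} [CommRing R] [Fintype R] {u : R} : u ∈ unitsF R ↔ IsUnit u := by
  simp [unitsF]

theorem mem_nbh {R : Type} [CommRing R] [Fintype R] {S : Finset R} {z : R} :
    z ∈ nbh S ↔ ∃ s ∈ S, IsUnit (z - s) := by
  simp [nbh]

theorem unitsF_pos (R : Type) [CommRing R] [Fintype R] : 0 < (unitsF R).card :=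
  Finset.card_pos.mpr ⟨1, mem_unitsF.mpr isUnit_one⟩

theorem locP_subsingleton (R : Type) [CommRing R] [Fintype R] [Subsingleton R] : LocP R [] := by
  intro S hS
  rcases S.eq_empty_or_nonempty with rfl | hne
  · simp [lexG]
  · have h1 : nbh S = univ := by
      ext z
      simp only [mem_nbh, mem_univ, iff_true]
      obtain ⟨s, hs⟩ := hne
      exact ⟨s, hs, isUnit_of_subsingleton _⟩
    rw [h1, Finset.card_univ]
    have := (nice_nil 0).le_one ((S.card : ℝ) / (unitsF R).card)
    have h0 : (0 : ℝ) ≤ Fintype.card R := by positivity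
    nlinarith

theorem LocP.of_equiv {R R' : Type} [CommRing R] [Fintype R] [CommRing R'] [Fintype R']
    (e : R ≃+* R') {L : List ℕ} (h : LocP R L) : LocP R' L := by
  intro S hS
  have hu : ∀ x : R', IsUnit (e.symm x) ↔ IsUnit x := fun x => MulEquiv.isUnit_map e.symm
  let T : Finset R := S.map e.symm.toEquiv.toEmbedding
  have hT : ∀ s ∈ T, IsUnit s := by
    intro s hs
    rw [Finset.mem_map] at hs
    obtain ⟨x, hx, rfl⟩ := hs
    exact (hu x).mpr (hS x hx)
  have key := h T hT
  have e1 : T.card = S.card := Finset.card_map _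
  have e2 : (unitsF R).card = (unitsF R').card := by
    have : unitsF R = (unitsF R').map e.symm.toEquiv.toEmbedding := by
      ext x
      rw [mem_unitsF, Finset.mem_map]
      constructor
      · intro hx
        refine ⟨e x, mem_unitsF.mpr ((MulEquiv.isUnit_map e).mpr hx), ?_⟩
        simp
      · rintro ⟨y, hy, rfl⟩
        exact (hu y).mpr (mem_unitsF.mp hy)
    rw [this, Finset.card_map]
  have e3 : (nbh T).card = (nbh S).card := by
    have : nbh T = (nbh S).map e.symm.toEquiv.toEmbedding := by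
      ext x
      rw [mem_nbh, Finset.mem_map]
      constructor
      · rintro ⟨s, hs, hx⟩
        rw [Finset.mem_map] at hs
        obtain ⟨y, hy, rfl⟩ := hs
        refine ⟨e x, mem_nbh.mpr ⟨y, hy, ?_⟩, by simp⟩
        rw [← hu]
        simpa using hx
      · rintro ⟨z, hz, rfl⟩
        obtain ⟨s, hs, hz⟩ := mem_nbh.mp hz
        refine ⟨e.symm s, Finset.mem_map.mpr ⟨s, hs, rfl⟩, ?_⟩
        have := (hu (z - s)).mpr hz
        simpa using this
    rw [this, Finset.card_map]
  have e4 : Fintype.card R = Fintype.card R' := Fintype.card_congr e.toEquiv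
  rw [e1, e2, e3, e4] at key
  exact key

section Step

variable {p : ℕ} [Fact p.Prime] {R : Type} [CommRing R] [Fintype R]

/-- fibre of `S` over `u` -/
noncomputable def fib (S : Finset (ZMod p × R)) (u : ZMod p) : Finset R :=
  univ.filter fun s => (u, s) ∈ S

theorem mem_fib {S : Finset (ZMod p × R)} {u : ZMod p} {s : R} : s ∈ fib S u ↔ (u, s) ∈ S := by
  simp [fib]

theorem card_eq_fib (S : Finset (ZMod p × R)) : S.card = ∑ u : ZMod p, (fib S u).card := by
  rw [Finset.card_eq_sum_card_fiberwise (f := Prod.fst) (t := univ) (fun _ _ => mem_univ _)]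
  refine Finset.sum_congr rfl fun u _ => ?_
  apply Finset.card_bij (fun x _ => x.2)
  · rintro ⟨a, b⟩ h
    rw [Finset.mem_filter] at h
    rw [mem_fib, ← h.2]; exact h.1
  · rintro ⟨a, b⟩ h ⟨a', b'⟩ h' hb
    rw [Finset.mem_filter] at h h'
    have : a = a' := by
      have h1 := h.2; have h2 := h'.2
      simp only at h1 h2
      rw [h1, h2]
    exact Prod.ext this hb
  · intro b hb
    rw [mem_fib] at hb
    exact ⟨(u, b), Finset.mem_filter.mpr ⟨hb, rfl⟩, rfl⟩

theorem isUnit_prod {x : ZMod p × R} : IsUnit x ↔ x.1 ≠ 0 ∧ IsUnit x.2 := by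
  rw [Prod.isUnit_iff, isUnit_iff_ne_zero]

theorem card_ne_zero_zmod : ((univ : Finset (ZMod p)).erase 0).card = p - 1 := by
  rw [Finset.card_erase_of_mem (mem_univ _), Finset.card_univ, ZMod.card]

theorem sum_fib_erase (S : Finset (ZMod p × R)) (hS : ∀ s ∈ S, IsUnit s) :
    S.card = ∑ u ∈ (univ : Finset (ZMod p)).erase 0, (fib S u).card := by
  rw [card_eq_fib, ← Finset.add_sum_erase univ _ (mem_univ (0 : ZMod p))]
  have : fib S 0 = ∅ := by
    ext s
    rw [mem_fib]
    simp only [Finset.notMem_empty, iff_false]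
    intro h
    exact (isUnit_prod.mp (hS _ h)).1 rfl
  rw [this, Finset.card_empty, zero_add]

theorem card_units_prod : (unitsF (ZMod p × R)).card = (p - 1) * (unitsF R).card := by
  rw [sum_fib_erase _ fun s hs => mem_unitsF.mp hs]
  rw [Finset.sum_congr rfl (g := fun _ => (unitsF R).card), Finset.sum_const, card_ne_zero_zmod,
    smul_eq_mul]
  intro u hu
  congr 1
  ext s
  rw [mem_fib, mem_unitsF, mem_unitsF, isUnit_prod]
  have := Finset.ne_of_mem_erase hu
  simp [this]

theorem nbh_fib {S : Finset (ZMod p × R)} {u z : ZMod p} (h : z ≠ u) :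
    nbh (fib S u) ⊆ fib (nbh S) z := by
  intro x hx
  obtain ⟨s, hs, hu⟩ := mem_nbh.mp hx
  rw [mem_fib, mem_nbh]
  refine ⟨(u, s), mem_fib.mp hs, isUnit_prod.mpr ⟨?_, hu⟩⟩
  exact sub_ne_zero.mpr h

theorem locP_step {L : List ℕ} {M : ℝ} (hp : 3 ≤ p) (hM : ((p : ℝ) - 1) ≤ M)
    (H : Nice M (lexG L)) (h : LocP R L) : LocP (ZMod p × R) (p :: L) := by
  intro S hS
  set h' := lexG L with hh
  have hp3 : (3 : ℝ) ≤ p := by exact_mod_cast hp
  set U : ℝ := ((unitsF R).card : ℝ) with hU
  have hU0 : 0 < U := by rw [hU]; exact_mod_cast unitsF_pos R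
  set D := (univ : Finset (ZMod p)).erase 0 with hD
  have hDc : D.card = p - 1 := card_ne_zero_zmod
  have hSum := sum_fib_erase S hS
  have hDne : D.Nonempty := by
    rw [← Finset.card_pos, hDc]; omega
  obtain ⟨u0, hu0, hmax⟩ := Finset.exists_max_image D (fun u => (fib S u).card) hDne
  have hD1 : (D.erase u0).card = p - 2 := by
    rw [Finset.card_erase_of_mem hu0, hDc]; omega
  have hD1ne : (D.erase u0).Nonempty := by
    rw [← Finset.card_pos, hD1]; omega
  obtain ⟨u1, hu1, hmax1⟩ := Finset.exists_max_image (D.erase u0) (fun u => (fib S u).card) hD1ne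
  set c0 := (fib S u0).card with hc0
  set c1 := (fib S u1).card with hc1
  have hc10 : c1 ≤ c0 := hmax u1 (Finset.mem_of_mem_erase hu1)
  have hcS : (S.card : ℝ) ≤ c0 + ((p : ℝ) - 2) * c1 := by
    have h1 : S.card ≤ c0 + (p - 2) * c1 := by
      rw [hSum, ← Finset.add_sum_erase D _ hu0]
      have : ∑ x ∈ D.erase u0, (fib S x).card ≤ ∑ x ∈ D.erase u0, c1 :=
        Finset.sum_le_sum fun x hx => hmax1 x hx
      rw [Finset.sum_const, hD1, smul_eq_mul] at this
      omega
    have h2 : (S.card : ℝ) ≤ ((c0 + (p - 2) * c1 : ℕ) : ℝ) := by exact_mod_cast h1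
    rw [Nat.cast_add, Nat.cast_mul, Nat.cast_sub (by omega)] at h2
    exact_mod_cast h2
  have hfibU : ∀ u, (fib S u).card ≤ (unitsF R).card := by
    intro u
    apply Finset.card_le_card
    intro s hs
    exact mem_unitsF.mpr (isUnit_prod.mp (hS _ (mem_fib.mp hs))).2
  have hfu : ∀ u, ∀ s ∈ fib S u, IsUnit s := fun u s hs =>
    (isUnit_prod.mp (hS _ (mem_fib.mp hs))).2
  have k0 := h (fib S u0) (hfu u0)
  have k1 := h (fib S u1) (hfu u1)
  rw [← hU, ← hh] at k0 k1
  set x : ℝ := (c0 : ℝ) / U with hx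
  set y : ℝ := (c1 : ℝ) / U with hy
  have hy0 : 0 ≤ y := by rw [hy]; positivity
  have hyx : y ≤ x := by
    rw [hx, hy]
    apply div_le_div_of_nonneg_right _ hU0.le
    exact_mod_cast hc10
  have hx1 : x ≤ 1 := by
    rw [hx, div_le_one hU0, hU]
    exact_mod_cast hfibU u0
  -- lower bound for nbh S
  have hN : ((nbh S).card : ℝ) ≥
      ((p : ℝ) - 1) * (Fintype.card R * h' x) + Fintype.card R * h' y := by
    have e1 : (nbh S).card = (fib (nbh S) u0).card +
        ∑ z ∈ (univ : Finset (ZMod p)).erase u0, (fib (nbh S) z).card := by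
      rw [card_eq_fib, ← Finset.add_sum_erase univ _ (mem_univ u0)]
    have e2 : (nbh (fib S u1)).card ≤ (fib (nbh S) u0).card :=
      Finset.card_le_card (nbh_fib (Finset.ne_of_mem_erase hu1).symm)
    have e3 : (p - 1) * (nbh (fib S u0)).card ≤
        ∑ z ∈ (univ : Finset (ZMod p)).erase u0, (fib (nbh S) z).card := by
      calc (p - 1) * (nbh (fib S u0)).card
          = ∑ z ∈ (univ : Finset (ZMod p)).erase u0, (nbh (fib S u0)).card := by
            rw [Finset.sum_const, smul_eq_mul, Finset.card_erase_of_mem (mem_univ _),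
              Finset.card_univ, ZMod.card]
        _ ≤ _ := Finset.sum_le_sum fun z hz =>
            Finset.card_le_card (nbh_fib (Finset.ne_of_mem_erase hz))
    have e4 : (p - 1) * (nbh (fib S u0)).card + (nbh (fib S u1)).card ≤ (nbh S).card := by
      rw [e1]; omega
    have e5 : (((p - 1) * (nbh (fib S u0)).card + (nbh (fib S u1)).card : ℕ) : ℝ) ≤
        ((nbh S).card : ℝ) := by exact_mod_cast e4
    rw [Nat.cast_add, Nat.cast_mul, Nat.cast_sub (by omega), Nat.cast_one] at e5
    have e6 : ((p : ℝ) - 1) * (Fintype.card R * h' x) ≤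
        ((p : ℝ) - 1) * ((nbh (fib S u0)).card : ℝ) :=
      mul_le_mul_of_nonneg_left k0 (by linarith)
    linarith
  -- the function
  have t := H.tp ((p : ℝ) - 1) x y (by linarith) hM hy0 hyx hx1
  have hcard : (Fintype.card (ZMod p × R) : ℝ) = p * Fintype.card R := by
    rw [Fintype.card_prod, ZMod.card]; push_cast; ring
  have hun : ((unitsF (ZMod p × R)).card : ℝ) = ((p : ℝ) - 1) * U := by
    rw [card_units_prod, Nat.cast_mul, Nat.cast_sub (by omega), Nat.cast_one]
  rw [hcard, hun, lexG_cons, ← hh]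
  unfold stepF
  have hmono := Phi_mono (N := (p : ℝ) - 1) H (by linarith)
  have h1 : ((p : ℝ) - 1) * ((S.card : ℝ) / (((p : ℝ) - 1) * U)) ≤
      x + ((p : ℝ) - 1 - 1) * y := by
    have : ((p : ℝ) - 1) * ((S.card : ℝ) / (((p : ℝ) - 1) * U)) = (S.card : ℝ) / U := by
      rw [← mul_div_assoc, mul_div_mul_left _ _ (by linarith : (p : ℝ) - 1 ≠ 0)]
    rw [this, hx, hy, ← mul_div_assoc, ← add_div]
    apply div_le_div_of_nonneg_right _ hU0.le
    linarith
  have h2 := hmono h1
  have h3 : (p : ℝ) * (Fintype.card R : ℝ) *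
      (Phi ((p : ℝ) - 1) h' (((p : ℝ) - 1) * ((S.card : ℝ) / (((p : ℝ) - 1) * U))) /
        ((p : ℝ) - 1 + 1)) =
      (Fintype.card R : ℝ) *
        Phi ((p : ℝ) - 1) h' (((p : ℝ) - 1) * ((S.card : ℝ) / (((p : ℝ) - 1) * U))) := by
    rw [sub_add_cancel]
    field_simp
  rw [h3]
  have hR0 : (0 : ℝ) ≤ Fintype.card R := by positivity
  calc _ ≤ (Fintype.card R : ℝ) * Phi ((p : ℝ) - 1) h' (x + ((p : ℝ) - 1 - 1) * y) :=
        mul_le_mul_of_nonneg_left h2 hR0
    _ ≤ (Fintype.card R : ℝ) * (((p : ℝ) - 1) * h' x + h' y) :=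
        mul_le_mul_of_nonneg_left t hR0
    _ ≤ _ := by linarith

end Step

/-- the case of the prime 2 -/
theorem locP_two {R : Type} [CommRing R] [Fintype R] {L : List ℕ} (h : LocP R L)
    (S : Finset (ZMod 2 × R)) (hS : ∀ s ∈ S, IsUnit s) :
    (Fintype.card R : ℝ) * lexG L ((S.card : ℝ) / (unitsF (ZMod 2 × R)).card) ≤
      ((nbh S).card : ℝ) := by
  haveI : Fact (Nat.Prime 2) := ⟨Nat.prime_two⟩
  have e1 : (unitsF (ZMod 2 × R)).card = (unitsF R).card := by
    rw [card_units_prod]; simp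
  have e0 : (univ : Finset (ZMod 2)).erase 0 = {1} := by
    have h01 : ∀ x : ZMod 2, x = 0 ∨ x = 1 := by
      intro x
      fin_cases x
      · left; rfl
      · right; rfl
    ext x
    rcases h01 x with rfl | rfl <;> simp
  have e2 : S.card = (fib S 1).card := by
    rw [sum_fib_erase S hS, e0, Finset.sum_singleton]
  have k := h (fib S 1) fun s hs => (isUnit_prod.mp (hS _ (mem_fib.mp hs))).2
  rw [e1, e2]
  refine k.trans ?_
  have h1 : (nbh (fib S 1)).card ≤ (fib (nbh S) 0).card :=
    Finset.card_le_card (nbh_fib zero_ne_one)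
  have h2 : (fib (nbh S) 0).card ≤ (nbh S).card := by
    rw [card_eq_fib (nbh S)]
    exact Finset.single_le_sum (f := fun u => (fib (nbh S) u).card) (fun _ _ => Nat.zero_le _)
      (mem_univ _)
  exact_mod_cast h1.trans h2

theorem locP_zmod (L : List ℕ) : ∀ (m : ℕ), 3 ≤ m → Ok m L → (∀ p ∈ L, p.Prime) → L.Nodup →
    ∀ inst : Fintype (ZMod L.prod), @LocP (ZMod L.prod) _ inst L := by
  induction L with
  | nil =>
    intro m _ _ _ _ inst
    have : Subsingleton (ZMod ([] : List ℕ).prod) := by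
      rw [List.prod_nil]; infer_instance
    exact locP_subsingleton _
  | cons p L ih =>
    intro m hm ⟨h1, h2⟩ hpr hnd inst
    have hp : p.Prime := hpr p (by simp)
    haveI : Fact p.Prime := ⟨hp⟩
    have hne : L.prod ≠ 0 := by
      rw [Ne, List.prod_eq_zero_iff]
      intro h0
      exact Nat.not_prime_zero (hpr 0 (by simp [h0]))
    haveI : NeZero L.prod := ⟨hne⟩
    have ih' := ih p (hm.trans h1) h2 (fun q hq => hpr q (by simp [hq]))
      (List.nodup_cons.mp hnd).2 inferInstance
    have hcop : Nat.Coprime p L.prod := by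
      rw [Nat.coprime_list_prod_right_iff]
      intro q hq
      rw [Nat.coprime_primes hp (hpr q (by simp [hq]))]
      rintro rfl
      exact (List.nodup_cons.mp hnd).1 hq
    have key := locP_step (p := p) (hm.trans h1) le_rfl
      (nice_lexG L p (hm.trans h1) h2) ih'
    have e : ZMod p × ZMod L.prod ≃+* ZMod (p :: L).prod :=
      (ZMod.chineseRemainder hcop).symm
    exact key.of_equiv e

end Pool.Agent.Lib.MP_7b7e48_nt.LX
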