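import Pool.Agent.Lib.MP_7b7e48_nt.LX.Pow
import Pool.Agent.Lib.MP_7b7e48_nt.LX.Ring

/-!
# MP_7b7e48_nt : the local inequality for two dense summands (helper81)
-/

namespace Pool.Agent.Lib.MP_7b7e48_nt.LX

open Finset

theorem sum_range_zmod {p : ℕ} [NeZero p] (f : ZMod p → ℝ) :
    ∑ k ∈ range p, f (k : ZMod p) = ∑ z : ZMod p, f z := by
  apply Finset.sum_bij (fun (k : ℕ) _ => (k : ZMod p))
  · intro k _
    exact mem_univ _
  · intro a ha b hb hab
    rw [Finset.mem_range] at ha hb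
    rw [ZMod.natCast_eq_natCast_iff', Nat.mod_eq_of_lt ha, Nat.mod_eq_of_lt hb] at hab
    exact hab
  · intro z _
    exact ⟨z.val, Finset.mem_range.mpr (ZMod.val_lt z), ZMod.natCast_zmod_val z⟩
  · intro k _
    rfl

theorem sum_shift (p : ℕ) (F : ℕ → ℝ) (h : F p = F 0) :
    ∑ k ∈ range p, F (k + 1) = ∑ k ∈ range p, F k := by
  have h1 := Finset.sum_range_succ F p
  have h2 := Finset.sum_range_succ' F p
  rw [h2] at h1
  linarith

/-- **The cyclic inequality.** -/
theorem cyc {p : ℕ} [Fact p.Prime] {u1 u2 : ZMod p} (hne : u1 ≠ u2) (b m : ZMod p → ℝ)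
    (hb0 : b 0 = 0) {t : ℝ} (ht0 : 0 ≤ t) (ht1 : t ≤ 1)
    (hm1 : ∀ v, b v ≤ m (u1 + v)) (hm2 : ∀ v, t * b v ≤ m (u2 + v)) :
    (1 + inc (p - 1) t) * ∑ v : ZMod p, b v ≤ ∑ z : ZMod p, m z := by
  have hp := (Fact.out : p.Prime)
  have hp2 := hp.two_le
  obtain ⟨n, hn⟩ : ∃ n, p = n + 1 := ⟨p - 1, by omega⟩
  have hn1 : p - 1 = n := by omega
  set d := u2 - u1 with hd
  have hd0 : d ≠ 0 := by rw [hd]; exact sub_ne_zero.mpr (Ne.symm hne)
  have hpd : (p : ZMod p) = 0 := ZMod.natCast_self p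
  -- sums along the progression
  have hs1 : ∀ f : ZMod p → ℝ, ∑ k ∈ range p, f ((k : ZMod p) * d) = ∑ z : ZMod p, f z := by
    intro f
    rw [sum_range_zmod (fun z => f (z * d))]
    exact Fintype.sum_equiv (Equiv.mulRight₀ d hd0) _ _ fun z => rfl
  have hs2 : ∑ k ∈ range p, m (u1 + (k : ZMod p) * d) = ∑ z : ZMod p, m z := by
    rw [hs1 (fun z => m (u1 + z))]
    exact Fintype.sum_equiv (Equiv.addLeft u1) _ _ fun z => rfl
  have key := seq_ineq (n := n) (by omega) ht0 ht1 (fun k => b ((k : ZMod p) * d))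
    (fun k => m (u1 + (k : ZMod p) * d)) (fun k _ => hm1 _) (fun k _ => by
      have h1 := hm2 ((k : ZMod p) * d)
      have h2 : u2 + (k : ZMod p) * d = u1 + ((k + 1 : ℕ) : ZMod p) * d := by
        push_cast
        rw [hd]
        ring
      rw [h2] at h1
      exact h1)
  rw [hn1]
  have hr1 : ∀ F : ℕ → ℝ, ∑ k ∈ range p, F k = ∑ k ∈ range n, F (k + 1) + F 0 := by
    intro F
    rw [hn]
    exact Finset.sum_range_succ' F n
  have hr2 : ∀ F : ℕ → ℝ, ∑ k ∈ range (n + 1), F k = ∑ k ∈ range p, F k := by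
    intro F
    rw [hn]
  have e1 : ∑ k ∈ range n, b (((k + 1 : ℕ) : ZMod p) * d) = ∑ v : ZMod p, b v := by
    rw [← hs1 b, hr1]
    simp [hb0]
  have e2 : ∑ k ∈ range (n + 1), m (u1 + ((k + 1 : ℕ) : ZMod p) * d) = ∑ z : ZMod p, m z := by
    rw [← hs2, hr2]
    apply sum_shift p (fun k => m (u1 + (k : ZMod p) * d))
    simp
  rw [e1, e2] at key
  exact key

/-- the local inequality with constant `C` and exponent `θ` -/
def LocF (R : Type) [CommRing R] [Fintype R] (C θ : ℝ) : Prop :=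
  ∀ (S : Finset R) (b M : R → ℝ), (∀ s ∈ S, IsUnit s) → (∀ v, 0 ≤ b v) →
    (∀ v, ¬ IsUnit v → b v = 0) → (∀ s ∈ S, ∀ v, b v ≤ M (s + v)) → (∀ z, 0 ≤ M z) →
    C * Fintype.card R * (((S.card : ℝ) / (unitsF R).card) ^ θ) *
      ((∑ v, b v) / (unitsF R).card) ≤ ∑ z, M z

theorem locF_subsingleton (R : Type) [CommRing R] [Fintype R] [Subsingleton R] {θ : ℝ}
    (hθ : 0 < θ) : LocF R 1 θ := by
  intro S b M hS hb hbu hM hM0
  have h1 : Fintype.card R = 1 := Fintype.card_eq_one_iff.mpr ⟨0, fun y => Subsingleton.elim _ _⟩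
  have h2 : (unitsF R).card = 1 := by
    have : unitsF R = univ := by
      ext x
      simp only [mem_unitsF, mem_univ, iff_true]
      exact isUnit_of_subsingleton x
    rw [this, Finset.card_univ, h1]
  rw [h1, h2]
  rcases S.eq_empty_or_nonempty with rfl | ⟨s, hs⟩
  · simp only [Finset.card_empty, Nat.cast_zero, zero_div]
    rw [Real.zero_rpow hθ.ne']
    have := Finset.sum_nonneg fun z (_ : z ∈ (univ : Finset R)) => hM0 z
    simpa using this
  · have hSc : S.card = 1 := by
      have : S = univ := by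
        ext x
        simp only [mem_univ, iff_true]
        rw [Subsingleton.elim x s]; exact hs
      rw [this, Finset.card_univ, h1]
    rw [hSc]
    simp only [Nat.cast_one, one_mul, div_one, Real.one_rpow]
    refine Finset.sum_le_sum fun v _ => ?_
    have := hM s hs v
    rwa [Subsingleton.elim (s + v) v] at this

theorem LocF.of_equiv {R R' : Type} [CommRing R] [Fintype R] [CommRing R'] [Fintype R']
    (e : R ≃+* R') {C θ : ℝ} (h : LocF R C θ) : LocF R' C θ := by
  classical
  intro S b M hS hb hbu hM hM0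
  have hu : ∀ x : R', IsUnit (e.symm x) ↔ IsUnit x := fun x => MulEquiv.isUnit_map e.symm
  have hu' : ∀ x : R, IsUnit (e x) ↔ IsUnit x := fun x => MulEquiv.isUnit_map e
  let T : Finset R := S.map e.symm.toEquiv.toEmbedding
  have key := h T (fun x => b (e x)) (fun x => M (e x)) (by
      intro s hs
      rw [Finset.mem_map] at hs
      obtain ⟨x, hx, rfl⟩ := hs
      exact (hu x).mpr (hS x hx)) (fun v => hb _) (fun v hv => hbu _ (fun h => hv ((hu' v).mp h)))
    (by
      intro s hs v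
      rw [Finset.mem_map] at hs
      obtain ⟨x, hx, rfl⟩ := hs
      have := hM x hx (e v)
      simpa using this) (fun z => hM0 _)
  have e1 : T.card = S.card := Finset.card_map _
  have e2 : (unitsF R).card = (unitsF R').card := by
    have : unitsF R = (unitsF R').map e.symm.toEquiv.toEmbedding := by
      ext x
      rw [mem_unitsF, Finset.mem_map]
      constructor
      · intro hx
        refine ⟨e x, mem_unitsF.mpr ((MulEquiv.isUnit_map e).mpr hx), ?_⟩
        simp
      · rintro ⟨y, hy, rfl⟩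
        exact (hu y).mpr (mem_unitsF.mp hy)
    rw [this, Finset.card_map]
  have e3 : ∑ x : R, b (e x) = ∑ x : R', b x := Fintype.sum_equiv e.toEquiv _ _ fun _ => rfl
  have e5 : ∑ x : R, M (e x) = ∑ x : R', M x := Fintype.sum_equiv e.toEquiv _ _ fun _ => rfl
  have e4 : Fintype.card R = Fintype.card R' := Fintype.card_congr e.toEquiv
  rw [e1, e2, e3, e4, e5] at key
  exact key

section Step

variable {p : ℕ} [Fact p.Prime] {R : Type} [CommRing R] [Fintype R]

/-- the common part of the two induction steps -/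
theorem locF_common {C θ s : ℝ} (hC : 0 ≤ C) (hθ : 0 < θ) (hs : 0 < s) (hp : 3 ≤ p)
    (hA : Adm (p - 1) s) (h : LocF R C θ) (S : Finset (ZMod p × R)) (b M : ZMod p × R → ℝ)
    (hS : ∀ s ∈ S, IsUnit s) (hb : ∀ v, 0 ≤ b v) (hbu : ∀ v, ¬ IsUnit v → b v = 0)
    (hM : ∀ s ∈ S, ∀ v, b v ≤ M (s + v)) (hM0 : ∀ z, 0 ≤ M z) :
    C * Fintype.card R *
      (∑ u ∈ (univ : Finset (ZMod p)).erase 0,
        (((fib S u).card : ℝ) / (unitsF R).card) ^ (θ * s)) ^ (1 / s) *
      ((∑ v, b v) / (unitsF R).card) ≤ ∑ z, M z := by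
  classical
  set U : ℝ := ((unitsF R).card : ℝ) with hU
  have hU0 : 0 < U := by rw [hU]; exact_mod_cast unitsF_pos R
  set D := (univ : Finset (ZMod p)).erase 0 with hD
  have hDc : D.card = p - 1 := card_ne_zero_zmod
  have hDne : D.Nonempty := by
    rw [← Finset.card_pos, hDc]; omega
  obtain ⟨u0, hu0, hmax⟩ := Finset.exists_max_image D (fun u => (fib S u).card) hDne
  have hD1 : (D.erase u0).card = p - 2 := by
    rw [Finset.card_erase_of_mem hu0, hDc]; omega
  have hD1ne : (D.erase u0).Nonempty := by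
    rw [← Finset.card_pos, hD1]; omega
  obtain ⟨u1, hu1, hmax1⟩ := Finset.exists_max_image (D.erase u0) (fun u => (fib S u).card) hD1ne
  have hu10 : u1 ∈ D := Finset.mem_of_mem_erase hu1
  have hne : u0 ≠ u1 := (Finset.ne_of_mem_erase hu1).symm
  set x : ZMod p → ℝ := fun u => ((fib S u).card : ℝ) / U with hx
  have hx0 : ∀ u, 0 ≤ x u := fun u => by simp only [hx]; positivity
  have hxm : ∀ u ∈ D, x u ≤ x u0 := fun u hu => by
    simp only [hx]
    exact div_le_div_of_nonneg_right (by exact_mod_cast hmax u hu) hU0.le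
  have hxm1 : ∀ u ∈ D.erase u0, x u ≤ x u1 := fun u hu => by
    simp only [hx]
    exact div_le_div_of_nonneg_right (by exact_mod_cast hmax1 u hu) hU0.le
  set f : ZMod p → ℝ := fun u => x u ^ θ with hf
  have hf0 : ∀ u, 0 ≤ f u := fun u => Real.rpow_nonneg (hx0 u) θ
  -- fibres of `b` and `M`
  set bb : ZMod p → ℝ := fun v => (∑ r : R, b (v, r)) / U with hbb
  set mm : ZMod p → ℝ := fun z => ∑ r : R, M (z, r) with hmm
  have hbb0 : ∀ v, 0 ≤ bb v := fun v => div_nonneg (Finset.sum_nonneg fun r _ => hb _) hU0.le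
  have hbbz : bb 0 = 0 := by
    simp only [hbb]
    rw [Finset.sum_eq_zero, zero_div]
    intro r _
    exact hbu _ fun h => (isUnit_prod.mp h).1 rfl
  have hloc : ∀ u v, C * Fintype.card R * f u * bb v ≤ mm (u + v) := by
    intro u v
    have key := h (fib S u) (fun r => b (v, r)) (fun r => M (u + v, r))
      (fun r hr => (isUnit_prod.mp (hS _ (mem_fib.mp hr))).2) (fun r => hb _)
      (fun r hr => hbu _ fun h => hr (isUnit_prod.mp h).2)
      (fun r hr w => hM _ (mem_fib.mp hr) (v, w)) (fun r => hM0 _)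
    exact key
  have hsumM : ∑ z, M z = ∑ z, mm z := by
    simp only [hmm]
    rw [← Fintype.sum_prod_type']
  have hsumb : (∑ v, b v) / U = ∑ v, bb v := by
    simp only [hbb]
    rw [← Finset.sum_div, ← Fintype.sum_prod_type']
  rw [hsumM, hsumb]
  have hcR : 0 ≤ C * (Fintype.card R : ℝ) := mul_nonneg hC (Nat.cast_nonneg _)
  have hmm0 : 0 ≤ ∑ z, mm z := Finset.sum_nonneg fun z _ => Finset.sum_nonneg fun r _ => hM0 _
  rcases eq_or_lt_of_le (hf0 u0) with h0 | h0
  · -- everything is zero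
    have hx00 : x u0 = 0 := by
      by_contra hne
      have : 0 < x u0 := lt_of_le_of_ne (hx0 u0) (Ne.symm hne)
      have := Real.rpow_pos_of_pos this θ
      simp only [hf] at h0
      linarith
    have : ∑ u ∈ D, (((fib S u).card : ℝ) / U) ^ (θ * s) = 0 := by
      refine Finset.sum_eq_zero fun u hu => ?_
      have h1 : x u = 0 := le_antisymm ((hxm u hu).trans hx00.le) (hx0 u)
      show x u ^ (θ * s) = 0
      rw [h1, Real.zero_rpow (by positivity)]
    rw [this, Real.zero_rpow (by positivity), mul_zero, zero_mul]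
    exact hmm0
  · set t := f u1 / f u0 with ht
    have ht0 : 0 ≤ t := div_nonneg (hf0 _) h0.le
    have hf10 : f u1 ≤ f u0 := Real.rpow_le_rpow (hx0 _) (hxm u1 hu10) hθ.le
    have ht1 : t ≤ 1 := by rw [ht, div_le_one h0]; exact hf10
    have htf : f u1 = t * f u0 := by rw [ht]; field_simp
    have hc := cyc hne (fun v => C * Fintype.card R * f u0 * bb v) mm (by
        simp only [hbbz, mul_zero]) ht0 ht1 (fun v => hloc u0 v) (fun v => by
        have := hloc u1 v
        rw [htf] at this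
        calc t * (C * Fintype.card R * f u0 * bb v) = C * Fintype.card R * (t * f u0) * bb v := by
              ring
          _ ≤ _ := this)
    rw [← Finset.mul_sum] at hc
    refine le_trans ?_ hc
    have hinc := inc_nonneg (n := p - 1) ht0
    have hN : (∑ u ∈ D, (((fib S u).card : ℝ) / U) ^ (θ * s)) ^ (1 / s) ≤
        (1 + inc (p - 1) t) * f u0 := by
      have h1 : ∑ u ∈ D, (((fib S u).card : ℝ) / U) ^ (θ * s) ≤
          (1 + (((p - 1 : ℕ) : ℝ) - 1) * t ^ s) * f u0 ^ s := by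
        have h2 : ∀ u, (((fib S u).card : ℝ) / U) ^ (θ * s) = f u ^ s := fun u => by
          simp only [hf]
          rw [← Real.rpow_mul (hx0 u)]
        simp only [h2]
        rw [← Finset.add_sum_erase D _ hu0]
        have h3 : ∑ u ∈ D.erase u0, f u ^ s ≤ ∑ _u ∈ D.erase u0, f u1 ^ s := by
          refine Finset.sum_le_sum fun u hu => ?_
          exact Real.rpow_le_rpow (hf0 u) (Real.rpow_le_rpow (hx0 u) (hxm1 u hu) hθ.le) hs.le
        rw [Finset.sum_const, hD1, nsmul_eq_mul, htf, Real.mul_rpow ht0 h0.le] at h3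
        have h4 : ((p - 2 : ℕ) : ℝ) = ((p - 1 : ℕ) : ℝ) - 1 := by
          rw [Nat.cast_sub (by omega), Nat.cast_sub (by omega)]
          push_cast
          ring
        rw [h4] at h3
        linarith
      have h5 := hA t ht0 ht1
      have hsum0 : 0 ≤ ∑ u ∈ D, (((fib S u).card : ℝ) / U) ^ (θ * s) :=
        Finset.sum_nonneg fun u _ => Real.rpow_nonneg (hx0 u) _
      have h6 : ∑ u ∈ D, (((fib S u).card : ℝ) / U) ^ (θ * s) ≤
          ((1 + inc (p - 1) t) * f u0) ^ s := by
        rw [Real.mul_rpow (by linarith) h0.le]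
        exact h1.trans (mul_le_mul_of_nonneg_right h5 (Real.rpow_nonneg h0.le s))
      have h7 : 0 ≤ (1 + inc (p - 1) t) * f u0 := mul_nonneg (by linarith) h0.le
      calc (∑ u ∈ D, (((fib S u).card : ℝ) / U) ^ (θ * s)) ^ (1 / s) ≤
          (((1 + inc (p - 1) t) * f u0) ^ s) ^ (1 / s) :=
            Real.rpow_le_rpow hsum0 h6 (one_div_pos.mpr hs).le
        _ = _ := by
            rw [← Real.rpow_mul h7, mul_one_div_cancel hs.ne', Real.rpow_one]
    have hbs : 0 ≤ ∑ v, bb v := Finset.sum_nonneg fun v _ => hbb0 v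
    calc C * Fintype.card R * (∑ u ∈ D, (((fib S u).card : ℝ) / U) ^ (θ * s)) ^ (1 / s) *
          (∑ v, bb v) ≤ C * Fintype.card R * ((1 + inc (p - 1) t) * f u0) * (∑ v, bb v) :=
          mul_le_mul_of_nonneg_right (mul_le_mul_of_nonneg_left hN hcR) hbs
      _ = _ := by ring

end Step

end Pool.Agent.Lib.MP_7b7e48_nt.LX
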