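import Mathlib

/-!
# MP_7b7e48_nt : the extremal function for one dense summand (helper81)
-/

namespace Pool.Agent.Lib.MP_7b7e48_nt.LX

/-- The lexicographic extremal function for the list `L` of primes. -/
noncomputable def lexG : List ℕ → ℝ → ℝ
  | [], x => if x ≤ 0 then 0 else 1
  | p :: L, x =>
      if ((p : ℝ) - 1) * x ≤ 1 then ((p : ℝ) - 1) / p * lexG L (((p : ℝ) - 1) * x)
      else (((p : ℝ) - 1) + lexG L ((((p : ℝ) - 1) * x - 1) / ((p : ℝ) - 2))) / p

/-- `N h(w)` for `w ≤ 1`, `N + h((w-1)/(N-1))` for `w > 1`. -/
noncomputable def Phi (N : ℝ) (h : ℝ → ℝ) (w : ℝ) : ℝ :=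
  if w ≤ 1 then N * h w else N + h ((w - 1) / (N - 1))

/-- One step of the recursion. -/
noncomputable def stepF (N : ℝ) (h : ℝ → ℝ) (x : ℝ) : ℝ := Phi N h (N * x) / (N + 1)

theorem lexG_cons (p : ℕ) (L : List ℕ) : lexG (p :: L) = stepF ((p : ℝ) - 1) (lexG L) := by
  funext x
  show (if _ then _ else _) = _
  unfold stepF Phi
  have h2 : ((p : ℝ) - 1 - 1) = (p : ℝ) - 2 := by ring
  have h3 : ((p : ℝ) - 1 + 1) = p := by ring
  rw [h2, h3]
  split_ifs
  · ring
  · rfl

/-- The first digit of `w` (fraction of the first class). -/
noncomputable def dig1 (w : ℝ) : ℝ := if w ≤ 1 then w else 1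

/-- The second digit of `w`. -/
noncomputable def dig2 (N : ℝ) (w : ℝ) : ℝ := if w ≤ 1 then 0 else (w - 1) / (N - 1)

structure Nice (M : ℝ) (h : ℝ → ℝ) : Prop where
  mono : Monotone h
  zero : ∀ x ≤ 0, h x = 0
  one : ∀ x ≥ 1, h x = 1
  sub : ∀ x y, h (x + y) ≤ h x + h y
  ex : ∀ a b, a ≤ 1 → b ≤ 1 → 1 ≤ a + b → 1 + h (a + b - 1) ≤ h a + h b
  tp : ∀ n x y, 2 ≤ n → n ≤ M → 0 ≤ y → y ≤ x → x ≤ 1 → Phi n h (x + (n - 1) * y) ≤ n * h x + h y

theorem Nice.weaken {M M' : ℝ} {h : ℝ → ℝ} (H : Nice M h) (hM : M' ≤ M) : Nice M' h :=
  ⟨H.mono, H.zero, H.one, H.sub, H.ex, fun n x y h2 hn => H.tp n x y h2 (hn.trans hM)⟩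

theorem Nice.nonneg {M : ℝ} {h : ℝ → ℝ} (H : Nice M h) (x : ℝ) : 0 ≤ h x := by
  rcases le_total x 0 with hx | hx
  · rw [H.zero x hx]
  · rw [← H.zero 0 le_rfl]; exact H.mono hx

theorem Nice.le_one {M : ℝ} {h : ℝ → ℝ} (H : Nice M h) (x : ℝ) : h x ≤ 1 := by
  rcases le_total x 1 with hx | hx
  · rw [← H.one 1 le_rfl]; exact H.mono hx
  · rw [H.one x hx]

theorem nice_nil (M : ℝ) : Nice M (lexG []) := by
  have hz : ∀ x : ℝ, x ≤ 0 → lexG [] x = 0 := fun x hx => by simp [lexG, hx]
  have hp : ∀ x : ℝ, 0 < x → lexG [] x = 1 := fun x hx => by simp [lexG, not_le.mpr hx]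
  refine ⟨?_, hz, fun x hx => hp x (by linarith), ?_, ?_, ?_⟩
  · intro x y hxy
    rcases le_or_gt x 0 with hx | hx
    · rw [hz x hx]
      rcases le_or_gt y 0 with hy | hy
      · rw [hz y hy]
      · rw [hp y hy]; norm_num
    · rw [hp x hx, hp y (by linarith)]
  · intro x y
    rcases le_or_gt x 0 with hx | hx <;> rcases le_or_gt y 0 with hy | hy
    · rw [hz x hx, hz y hy, hz _ (by linarith)]; norm_num
    · rw [hz x hx, hp y hy]
      rcases le_or_gt (x + y) 0 with h | h
      · rw [hz _ h]; norm_num
      · rw [hp _ h]; norm_num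
    · rw [hp x hx, hz y hy]
      rcases le_or_gt (x + y) 0 with h | h
      · rw [hz _ h]; norm_num
      · rw [hp _ h]; norm_num
    · rw [hp x hx, hp y hy, hp _ (by linarith)]; norm_num
  · intro a b ha hb hab
    rcases le_or_gt (a + b - 1) 0 with h | h
    · rw [hz _ h]
      rcases le_or_gt a 0 with h0 | h0
      · rw [hz a h0, hp b (by linarith)]; norm_num
      · rw [hp a h0]
        rcases le_or_gt b 0 with h1 | h1
        · rw [hz b h1]
        · rw [hp b h1]; norm_num
    · rw [hp _ h, hp a (by linarith), hp b (by linarith)]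
  · intro n x y hn _ hy hyx hx
    unfold Phi
    rcases eq_or_lt_of_le hy with h0 | h0
    · subst h0
      rw [mul_zero, add_zero, if_pos hx, hz 0 le_rfl, add_zero]
    · rw [hp y h0, hp x (by linarith)]
      split_ifs with hc
      · rw [hp _ (by nlinarith)]; linarith
      · rw [hp _ (by
          apply div_pos
          · linarith [not_le.mp hc]
          · linarith)]
        linarith

section Step

variable {M N : ℝ} {h : ℝ → ℝ}

theorem Phi_eq (H : Nice M h) (w : ℝ) : Phi N h w = N * h (dig1 w) + h (dig2 N w) := by
  unfold Phi dig1 dig2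
  split_ifs with hc
  · rw [H.zero 0 le_rfl, add_zero]
  · rw [H.one 1 le_rfl, mul_one]

theorem Phi_mono (H : Nice M h) (hN : 1 ≤ N) : Monotone (Phi N h) := by
  intro x y hxy
  unfold Phi
  split_ifs with h1 h2 h2
  · exact mul_le_mul_of_nonneg_left (H.mono hxy) (by linarith)
  · have := H.le_one x
    have := H.nonneg ((y - 1) / (N - 1))
    nlinarith
  · linarith [not_le.mp h1]
  · have : h ((x - 1) / (N - 1)) ≤ h ((y - 1) / (N - 1)) := by
      apply H.mono
      apply div_le_div_of_nonneg_right _ (by linarith)
      linarith
    linarith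

theorem stepF_mono (H : Nice M h) (hN : 1 ≤ N) : Monotone (stepF N h) := by
  intro x y hxy
  unfold stepF
  apply div_le_div_of_nonneg_right _ (by linarith)
  exact Phi_mono H hN (mul_le_mul_of_nonneg_left hxy (by linarith))

theorem Phi_sub (H : Nice M h) (hN : 2 ≤ N) (x y : ℝ) : Phi N h (x + y) ≤ Phi N h x + Phi N h y := by
  wlog hxy : x ≤ y generalizing x y
  · have := this y x (by linarith)
    rw [add_comm x y]; linarith
  unfold Phi
  by_cases h1 : x + y ≤ 1
  · rw [if_pos h1]
    have hx : x ≤ 1 := by
      by_contra hc
      push Not at hc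
      linarith
    rw [if_pos hx]
    by_cases hy : y ≤ 1
    · rw [if_pos hy]
      have := H.sub x y
      nlinarith
    · rw [if_neg hy]
      have h2 := H.le_one (x + y)
      have h3 := H.nonneg x
      have h4 := H.nonneg ((y - 1) / (N - 1))
      nlinarith
  · rw [if_neg h1]
    push Not at h1
    by_cases hx : x ≤ 1
    · rw [if_pos hx]
      by_cases hy : y ≤ 1
      · rw [if_pos hy]
        have h2 := H.ex x y hx hy h1.le
        have h3 : h ((x + y - 1) / (N - 1)) ≤ h (x + y - 1) := by
          apply H.mono
          rw [div_le_iff₀ (by linarith)]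
          nlinarith
        have h4 := H.nonneg (x + y - 1)
        nlinarith
      · rw [if_neg hy]
        have h2 := H.sub ((y - 1) / (N - 1)) (x / (N - 1))
        rw [← add_div] at h2
        have h3 : h (x / (N - 1)) ≤ N * h x := by
          rcases le_total x 0 with h0 | h0
          · rw [H.zero _ (div_nonpos_of_nonpos_of_nonneg h0 (by linarith))]
            have := H.nonneg x
            nlinarith
          · have : h (x / (N - 1)) ≤ h x := by
              apply H.mono
              rw [div_le_iff₀ (by linarith)]
              nlinarith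
            have := H.nonneg x
            nlinarith
        rw [show x + y - 1 = y - 1 + x by ring]
        linarith
    · rw [if_neg hx]
      push Not at hx
      rw [if_neg (by linarith)]
      have h2 := H.le_one ((x + y - 1) / (N - 1))
      have h3 := H.nonneg ((x - 1) / (N - 1))
      have h4 := H.nonneg ((y - 1) / (N - 1))
      linarith

theorem Phi_ex (H : Nice M h) (hN : 2 ≤ N) (A B : ℝ) (hA : A ≤ N) (hB : B ≤ N) (hAB : N ≤ A + B) :
    N + 1 + Phi N h (A + B - N) ≤ Phi N h A + Phi N h B := by
  wlog hle : A ≤ B generalizing A B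
  · have := this B A hB hA (by linarith) (by linarith)
    rw [add_comm A B]; linarith
  have hN1 : (0 : ℝ) < N - 1 := by linarith
  have hB1 : 1 ≤ B := by linarith
  -- value at B
  have hBv : Phi N h B = N + h ((B - 1) / (N - 1)) := by
    unfold Phi
    split_ifs with hc
    · have : B = 1 := le_antisymm hc hB1
      subst this
      rw [H.one 1 le_rfl, sub_self, zero_div, H.zero 0 le_rfl]; ring
    · rfl
  rw [hBv]
  by_cases hA1 : A ≤ 1
  · have hC1 : A + B - N ≤ 1 := by linarith
    unfold Phi
    rw [if_pos hA1, if_pos hC1]
    -- N (h A - h (A - d)) ≥ 1 - h (1 - d/(N-1))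
    have h1 := H.ex A (1 - (N - B)) hA1 (by linarith) (by linarith)
    rw [show A + (1 - (N - B)) - 1 = A + B - N by ring] at h1
    have h2 : h (1 - (N - B)) ≤ h ((B - 1) / (N - 1)) := by
      apply H.mono
      rw [le_div_iff₀ hN1]
      nlinarith
    have h3 := H.le_one (1 - (N - B))
    nlinarith
  · push Not at hA1
    have hAv : Phi N h A = N + h ((A - 1) / (N - 1)) := by
      unfold Phi
      rw [if_neg (by linarith)]
    rw [hAv]
    by_cases hC1 : A + B - N ≤ 1
    · unfold Phi
      rw [if_pos hC1]
      have h1 := H.sub ((A - 1) / (N - 1)) ((B - 1) / (N - 1))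
      rw [← add_div] at h1
      have h2 : h (A + B - N) ≤ h ((A - 1 + (B - 1)) / (N - 1)) := by
        apply H.mono
        rw [le_div_iff₀ hN1]
        nlinarith
      have h3 := H.le_one (A + B - N)
      nlinarith
    · unfold Phi
      rw [if_neg hC1]
      push Not at hC1
      have h1 := H.ex ((A - 1) / (N - 1)) ((B - 1) / (N - 1))
        (by rw [div_le_one hN1]; linarith) (by rw [div_le_one hN1]; linarith)
        (by rw [← add_div, le_div_iff₀ hN1]; linarith)
      have h2 : (A - 1) / (N - 1) + (B - 1) / (N - 1) - 1 = (A + B - N - 1) / (N - 1) := by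
        field_simp; ring
      rw [h2] at h1
      linarith

/-- the two point inequality for the next function -/
theorem step_tp (H : Nice M h) (hN : 2 ≤ N) (hNM : N ≤ M) {n x y : ℝ} (h2 : 2 ≤ n) (hn : n ≤ N)
    (hy : 0 ≤ y) (hyx : y ≤ x) (hx : x ≤ 1) :
    Phi n (stepF N h) (x + (n - 1) * y) ≤ n * stepF N h x + stepF N h y := by
  have hN1 : (0 : ℝ) < N - 1 := by linarith
  have hn1 : (0 : ℝ) < n - 1 := by linarith
  have hNp : (0 : ℝ) < N + 1 := by linarith
  set w := x + (n - 1) * y with hw
  -- multiply by N+1
  have key : (N + 1) * Phi n (stepF N h) w ≤ n * Phi N h (N * x) + Phi N h (N * y) := by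
    have hl : (N + 1) * Phi n (stepF N h) w =
        if w ≤ 1 then n * Phi N h (N * w)
        else n * (N + 1) + Phi N h (N * ((w - 1) / (n - 1))) := by
      unfold Phi stepF
      by_cases hc : w ≤ 1
      · rw [if_pos hc, if_pos hc]
        unfold Phi
        field_simp
      · rw [if_neg hc, if_neg hc]
        unfold Phi
        field_simp
    rw [hl]
    by_cases hX : N * x ≤ 1
    · -- case A
      have hY : N * y ≤ 1 := by nlinarith
      have hw1 : w ≤ 1 := by
        have : w ≤ n * x := by rw [hw]; nlinarith
        have : n * x ≤ N * x := by nlinarith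
        linarith
      rw [if_pos hw1]
      have t := H.tp n (N * x) (N * y) h2 (by linarith) (by positivity) (by nlinarith) hX
      have hw2 : N * x + (n - 1) * (N * y) = N * w := by rw [hw]; ring
      rw [hw2] at t
      have e1 : Phi N h (N * x) = N * h (N * x) := by unfold Phi; rw [if_pos hX]
      have e2 : Phi N h (N * y) = N * h (N * y) := by unfold Phi; rw [if_pos hY]
      rw [e1, e2]
      have h3 : n * Phi N h (N * w) ≤ N * Phi n h (N * w) := by
        unfold Phi
        by_cases hc : N * w ≤ 1
        · rw [if_pos hc, if_pos hc]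
          apply le_of_eq; ring
        · rw [if_neg hc, if_neg hc]
          push Not at hc
          have : h ((N * w - 1) / (N - 1)) ≤ h ((N * w - 1) / (n - 1)) := by
            apply H.mono
            apply div_le_div_of_nonneg_left (by linarith) hn1 (by linarith)
          have h0 := H.nonneg ((N * w - 1) / (N - 1))
          nlinarith
      nlinarith
    · push Not at hX
      have e1 : Phi N h (N * x) = N + h ((N * x - 1) / (N - 1)) := by
        unfold Phi; rw [if_neg (by linarith)]
      rw [e1]
      set x2 := (N * x - 1) / (N - 1) with hx2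
      have hx2e : N * x = 1 + (N - 1) * x2 := by rw [hx2]; field_simp; ring
      have hx20 : 0 ≤ x2 := by rw [hx2]; apply div_nonneg <;> linarith
      have hx21 : x2 ≤ 1 := by
        rw [hx2, div_le_one hN1]; nlinarith
      by_cases hY : N * y ≤ 1
      · -- case B1
        have e2 : Phi N h (N * y) = N * h (N * y) := by unfold Phi; rw [if_pos hY]
        rw [e2]
        set y1 := N * y with hy1
        have hy10 : 0 ≤ y1 := by rw [hy1]; positivity
        have hNw : N * w = 1 + (N - 1) * x2 + (n - 1) * y1 := by
          rw [hw, hy1, mul_add, hx2e]; ring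
        by_cases hc : w ≤ 1
        · rw [if_pos hc]
          have hNw1 : 1 ≤ N * w := by rw [hNw]; nlinarith
          have e3 : Phi N h (N * w) = N + h ((N * w - 1) / (N - 1)) := by
            unfold Phi
            split_ifs with hd
            · have : N * w = 1 := le_antisymm hd hNw1
              rw [this, H.one 1 le_rfl, sub_self, zero_div, H.zero 0 le_rfl]; ring
            · rfl
          rw [e3]
          have h3 : (N * w - 1) / (N - 1) = x2 + (n - 1) / (N - 1) * y1 := by
            rw [hNw]; field_simp; ring
          rw [h3]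
          have h4 := H.sub x2 ((n - 1) / (N - 1) * y1)
          have h5 : h ((n - 1) / (N - 1) * y1) ≤ h y1 := by
            apply H.mono
            have : (n - 1) / (N - 1) ≤ 1 := by rw [div_le_one hN1]; linarith
            nlinarith
          have h6 := H.nonneg y1
          nlinarith
        · rw [if_neg hc]
          push Not at hc
          set s := 1 - x2 with hs
          have hs0 : 0 ≤ s := by rw [hs]; linarith
          have h3 : N * ((w - 1) / (n - 1)) = y1 - (N - 1) * s / (n - 1) := by
            have : N * (w - 1) = (n - 1) * y1 - (N - 1) * s := by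
              rw [mul_sub, hNw, hs]; ring
            rw [← mul_div_assoc, this]
            field_simp
          have hpos : 0 < y1 - (N - 1) * s / (n - 1) := by
            rw [← h3]
            apply mul_pos (by linarith)
            apply div_pos (by linarith) hn1
          rw [h3]
          have hle1 : y1 - (N - 1) * s / (n - 1) ≤ 1 := by
            have : 0 ≤ (N - 1) * s / (n - 1) := by positivity
            linarith
          have e3 : Phi N h (y1 - (N - 1) * s / (n - 1)) = N * h (y1 - (N - 1) * s / (n - 1)) := by
            unfold Phi; rw [if_pos hle1]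
          rw [e3]
          have h4 := H.ex y1 (1 - (N - 1) * s / (n - 1)) hY
            (by
              have : 0 ≤ (N - 1) * s / (n - 1) := by positivity
              linarith) (by linarith)
          rw [show y1 + (1 - (N - 1) * s / (n - 1)) - 1 = y1 - (N - 1) * s / (n - 1) by ring] at h4
          have h5 : h (1 - (N - 1) * s / (n - 1)) ≤ h x2 := by
            apply H.mono
            have : s ≤ (N - 1) * s / (n - 1) := by
              rw [le_div_iff₀ hn1]; nlinarith
            rw [hs] at this ⊢
            linarith
          have h6 := H.le_one x2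
          nlinarith
      · -- case B2
        push Not at hY
        have e2 : Phi N h (N * y) = N + h ((N * y - 1) / (N - 1)) := by
          unfold Phi; rw [if_neg (by linarith)]
        rw [e2]
        set y2 := (N * y - 1) / (N - 1) with hy2
        have hy2e : N * y = 1 + (N - 1) * y2 := by rw [hy2]; field_simp; ring
        have hy20 : 0 ≤ y2 := by rw [hy2]; apply div_nonneg <;> linarith
        have hyx2 : y2 ≤ x2 := by
          rw [hy2, hx2]
          apply div_le_div_of_nonneg_right _ hN1.le
          nlinarith
        have t := H.tp n x2 y2 h2 (by linarith) hy20 hyx2 hx21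
        set v := x2 + (n - 1) * y2 with hv
        have hNw : N * w = n + (N - 1) * v := by
          rw [hw, hv, mul_add, hx2e, mul_left_comm, hy2e]; ring
        have hv0 : 0 ≤ v := by rw [hv]; positivity
        by_cases hc : w ≤ 1
        · rw [if_pos hc]
          have hNw2 : N * w ≤ N := by
            have := mul_le_mul_of_nonneg_left hc (show (0 : ℝ) ≤ N by linarith)
            linarith
          have hv1 : v ≤ 1 := by
            by_contra hh
            push Not at hh
            have := mul_lt_mul_of_pos_left hh hN1
            linarith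
          have hNw1 : ¬ (N * w ≤ 1) := by
            rw [hNw]; push Not
            have := mul_nonneg hN1.le hv0
            linarith
          have e3 : Phi N h (N * w) = N + h ((N * w - 1) / (N - 1)) := by
            unfold Phi; rw [if_neg hNw1]
          have e4 : Phi n h v = n * h v := by unfold Phi; rw [if_pos hv1]
          rw [e3]
          rw [e4] at t
          have h3 := H.le_one ((N * w - 1) / (N - 1))
          have h4 := H.nonneg v
          nlinarith
        · rw [if_neg hc]
          push Not at hc
          have h3 : N * ((w - 1) / (n - 1)) = 1 + (N - 1) * (v - 1) / (n - 1) := by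
            have : N * (w - 1) = (n - 1) + (N - 1) * (v - 1) := by
              rw [mul_sub, hNw]; ring
            rw [← mul_div_assoc, this]
            field_simp
          rw [h3]
          by_cases hv1 : v ≤ 1
          · have e4 : Phi n h v = n * h v := by unfold Phi; rw [if_pos hv1]
            rw [e4] at t
            have hq : (N - 1) * (v - 1) / (n - 1) ≤ v - 1 := by
              rw [div_le_iff₀ hn1]; nlinarith
            have e3 : Phi N h (1 + (N - 1) * (v - 1) / (n - 1)) =
                N * h (1 + (N - 1) * (v - 1) / (n - 1)) := by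
              unfold Phi; rw [if_pos (by linarith)]
            rw [e3]
            have h4 : h (1 + (N - 1) * (v - 1) / (n - 1)) ≤ h v := by
              apply H.mono; linarith
            have h5 := H.le_one v
            nlinarith
          · push Not at hv1
            have e4 : Phi n h v = n + h ((v - 1) / (n - 1)) := by
              unfold Phi; rw [if_neg (by linarith)]
            rw [e4] at t
            have hq : 0 < (N - 1) * (v - 1) / (n - 1) := by
              apply div_pos _ hn1
              apply mul_pos hN1; linarith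
            have e3 : Phi N h (1 + (N - 1) * (v - 1) / (n - 1)) =
                N + h ((v - 1) / (n - 1)) := by
              unfold Phi; rw [if_neg (by linarith)]
              congr 2
              field_simp
              ring
            rw [e3]
            linarith
  unfold stepF
  have : Phi n (fun x => Phi N h (N * x) / (N + 1)) w = Phi n (stepF N h) w := rfl
  rw [this, ← mul_div_assoc, ← add_div, le_div_iff₀ hNp]
  linarith

theorem nice_step (H : Nice M h) (hN : 2 ≤ N) (hNM : N ≤ M) : Nice N (stepF N h) := by
  have hNp : (0 : ℝ) < N + 1 := by linarith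
  refine ⟨stepF_mono H (by linarith), ?_, ?_, ?_, ?_, ?_⟩
  · intro x hx
    unfold stepF Phi
    have : N * x ≤ 0 := by nlinarith
    rw [if_pos (by linarith), H.zero _ this]; simp
  · intro x hx
    unfold stepF Phi
    rw [if_neg (by push Not; nlinarith), H.one]
    · field_simp
    · rw [ge_iff_le, le_div_iff₀ (by linarith)]; nlinarith
  · intro x y
    unfold stepF
    rw [← add_div, mul_add]
    apply div_le_div_of_nonneg_right _ hNp.le
    exact Phi_sub H hN _ _
  · intro a b ha hb hab
    unfold stepF
    have := Phi_ex H hN (N * a) (N * b) (by nlinarith) (by nlinarith) (by nlinarith)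
    rw [← add_div, le_div_iff₀ hNp, add_mul, div_mul_cancel₀ _ hNp.ne',
      show N * (a + b - 1) = N * a + N * b - N by ring]
    linarith
  · intro n x y h2 hn hy hyx hx
    exact step_tp H hN hNM h2 hn hy hyx hx

end Step

/-- weakly increasing list with first element at least `m` -/
def Ok : ℕ → List ℕ → Prop
  | _, [] => True
  | m, p :: L => m ≤ p ∧ Ok p L

theorem nice_lexG : ∀ (L : List ℕ) (m : ℕ), 3 ≤ m → Ok m L → Nice ((m : ℝ) - 1) (lexG L)
  | [], m, _, _ => nice_nil _
  | p :: L, m, hm, ⟨h1, h2⟩ => by
    have ih := nice_lexG L p (hm.trans h1) h2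
    rw [lexG_cons]
    have hp : (3 : ℝ) ≤ p := by exact_mod_cast hm.trans h1
    have hmp : (m : ℝ) ≤ p := by exact_mod_cast h1
    exact (nice_step ih (by linarith) le_rfl).weaken (by linarith)

end Pool.Agent.Lib.MP_7b7e48_nt.LX
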