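import Pool.Agent.Lib.MP_7b7e48_nt.LX.Nat
import Pool.Agent.Lib.MP_7b7e48_nt.GT.RoughCount

/-!
# MP_7b7e48_nt : the limit function (helper81)
-/

namespace Pool.Agent.Lib.MP_7b7e48_nt.LX

open Finset Pool.Agent.Lib.GT Pool.Agent.Lib.GT.LA Pool.Agent.Lib.GT.Robust
open Pool.Agent.Lib.MP_7b7e48_nt.SP

/-- The extremal function: infimum over all finite sets of odd primes below a bound. -/
noncomputable def gfun (α : ℝ) : ℝ := ⨅ n : ℕ, lexG (ol n) α

theorem lexG_nonneg (n : ℕ) (x : ℝ) : 0 ≤ lexG (ol n) x := (nice_ol n).nonneg x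

theorem lexG_le_one (n : ℕ) (x : ℝ) : lexG (ol n) x ≤ 1 := (nice_ol n).le_one x

theorem stepF_le {N : ℝ} (hN : 0 ≤ N) {h h' : ℝ → ℝ} (hh : ∀ x, h x ≤ h' x) (x : ℝ) :
    stepF N h x ≤ stepF N h' x := by
  unfold stepF Phi
  apply div_le_div_of_nonneg_right _ (by linarith)
  split_ifs
  · exact mul_le_mul_of_nonneg_left (hh _) hN
  · linarith [hh ((N * x - 1) / (N - 1))]

theorem Ok.append {L L' : List ℕ} : ∀ {m : ℕ}, Ok m (L ++ L') → ∃ m', m ≤ m' ∧ Ok m' L' := by
  induction L with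
  | nil => intro m h; exact ⟨m, le_rfl, h⟩
  | cons p L ih =>
    intro m h
    obtain ⟨m', h1, h2⟩ := ih h.2
    exact ⟨m', h.1.trans h1, h2⟩

theorem lexG_append_le (L L' : List ℕ) : ∀ (m : ℕ), 3 ≤ m → Ok m (L ++ L') → ∀ x,
    lexG (L ++ L') x ≤ lexG L x := by
  induction L with
  | nil =>
    intro m hm h x
    have H := nice_lexG L' m hm h
    rcases le_or_gt x 0 with hx | hx
    · rw [List.nil_append, H.zero x hx, (nice_nil 0).zero x hx]
    · have : lexG [] x = 1 := by simp [lexG, not_le.mpr hx]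
      rw [this]
      exact H.le_one x
  | cons p L ih =>
    intro m hm h x
    rw [List.cons_append, lexG_cons, lexG_cons]
    have hp : (3 : ℝ) ≤ p := by exact_mod_cast hm.trans h.1
    exact stepF_le (by linarith) (ih p (hm.trans h.1) h.2) x

theorem ol_prefix {n n' : ℕ} (h : n ≤ n') : ∃ L', ol n' = ol n ++ L' := by
  obtain ⟨k, rfl⟩ : ∃ k, n' = n + k := ⟨n' - n, by omega⟩
  refine ⟨((List.range k).map (n + ·)).filter fun p => p.Prime ∧ p ≠ 2, ?_⟩
  unfold ol
  rw [List.range_add, List.filter_append]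

theorem lexG_anti {n n' : ℕ} (h : n ≤ n') (x : ℝ) : lexG (ol n') x ≤ lexG (ol n) x := by
  obtain ⟨L', hL'⟩ := ol_prefix h
  rw [hL']
  exact lexG_append_le _ _ 3 le_rfl (hL' ▸ ok_ol n') x

theorem gfun_bdd (α : ℝ) : BddBelow (Set.range fun n : ℕ => lexG (ol n) α) :=
  ⟨0, by rintro _ ⟨n, rfl⟩; exact lexG_nonneg n α⟩

theorem gfun_le (n : ℕ) (α : ℝ) : gfun α ≤ lexG (ol n) α := ciInf_le (gfun_bdd α) n

theorem gfun_nonneg (α : ℝ) : 0 ≤ gfun α := le_ciInf fun n => lexG_nonneg n α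

theorem lexG_tendsto (α : ℝ) : Filter.Tendsto (fun n : ℕ => lexG (ol n) α) Filter.atTop
    (nhds (gfun α)) :=
  tendsto_atTop_ciInf (fun _ _ h => lexG_anti h α) (gfun_bdd α)

/-- value at `1 / ∏ (p - 1)` -/
theorem lexG_value (L L' : List ℕ) : ∀ (m : ℕ), 3 ≤ m → Ok m (L ++ L') →
    lexG (L ++ L') (1 / (L.map (fun p : ℕ => (p : ℝ) - 1)).prod) =
      (L.map (fun p : ℕ => 1 - 1 / (p : ℝ))).prod := by
  induction L with
  | nil =>
    intro m hm h
    have H := nice_lexG L' m hm h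
    simp only [List.nil_append, List.map_nil, List.prod_nil, div_one]
    exact H.one 1 le_rfl
  | cons p L ih =>
    intro m hm h
    have hp : (3 : ℝ) ≤ p := by exact_mod_cast hm.trans h.1
    have ih' := ih p (hm.trans h.1) h.2
    rw [List.cons_append, lexG_cons, List.map_cons, List.map_cons, List.prod_cons, List.prod_cons]
    have hP : ∀ (L : List ℕ) (m : ℕ), 3 ≤ m → Ok m L →
        1 ≤ (L.map (fun p : ℕ => (p : ℝ) - 1)).prod := by
      intro L
      induction L with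
      | nil => intro m _ _; simp
      | cons q L ih =>
        intro m hm h
        rw [List.map_cons, List.prod_cons]
        have hq : (3 : ℝ) ≤ q := by exact_mod_cast hm.trans h.1
        have := ih q (hm.trans h.1) h.2
        nlinarith
    have hOkL : Ok p L := by
      have : ∀ (L L' : List ℕ) (m : ℕ), Ok m (L ++ L') → Ok m L := by
        intro L L'
        induction L with
        | nil => intro m _; trivial
        | cons q L ih => intro m h; exact ⟨h.1, ih q h.2⟩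
      exact this L L' p h.2
    have hPL := hP L p (hm.trans h.1) hOkL
    set P := (L.map (fun p : ℕ => (p : ℝ) - 1)).prod
    have e : ((p : ℝ) - 1) * (1 / (((p : ℝ) - 1) * P)) = 1 / P := by
      have : (p : ℝ) - 1 ≠ 0 := by linarith
      field_simp
    unfold stepF Phi
    rw [e, if_pos (by rw [div_le_one (by linarith)]; exact hPL), ih']
    have : (p : ℝ) ≠ 0 := by linarith
    rw [sub_add_cancel]
    field_simp

theorem op_prod_pos (n : ℕ) : 0 < ∏ p ∈ op n, ((p : ℝ) - 1) := by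
  apply Finset.prod_pos
  intro p hp
  unfold op at hp
  rw [Finset.mem_filter] at hp
  have : (2 : ℝ) ≤ p := by exact_mod_cast hp.2.1.two_le
  linarith

theorem lexG_value_ol {n n' : ℕ} (h : n ≤ n') :
    lexG (ol n') (1 / ∏ p ∈ op n, ((p : ℝ) - 1)) = ∏ p ∈ op n, (1 - 1 / (p : ℝ)) := by
  obtain ⟨L', hL'⟩ := ol_prefix h
  have := lexG_value (ol n) L' 3 le_rfl (hL' ▸ ok_ol n')
  rw [ol_prod, ol_prod, ← hL'] at this
  exact this

theorem gfun_value (n : ℕ) :
    gfun (1 / ∏ p ∈ op n, ((p : ℝ) - 1)) = ∏ p ∈ op n, (1 - 1 / (p : ℝ)) := by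
  refine tendsto_nhds_unique (lexG_tendsto _) ?_
  refine tendsto_const_nhds.congr' ?_
  filter_upwards [Filter.eventually_ge_atTop n] with n' hn'
  exact (lexG_value_ol hn').symm

theorem gfun_one : gfun 1 = 1 := by
  have := gfun_value 0
  simpa [op] using this

theorem gfun_zero : gfun 0 = 0 := by
  unfold gfun
  have : ∀ n : ℕ, lexG (ol n) 0 = 0 := fun n => (nice_ol n).zero 0 le_rfl
  simp [this]

theorem gfun_mono : Monotone gfun := fun _ _ h =>
  ciInf_mono (gfun_bdd _) fun n => (nice_ol n).mono h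

theorem prod_V {K : ℕ} (hK : 2 ≤ K) : ∏ p ∈ op (K + 1), (1 - 1 / (p : ℝ)) = 2 * V K := by
  unfold V
  rw [pr_eq_insert hK, Finset.prod_insert (two_not_op _), Nat.cast_ofNat]
  ring

theorem exists_small {ε : ℝ} (hε : 0 < ε) : ∃ τ : ℝ, 0 < τ ∧ ∃ K₀ : ℕ, ∀ K : ℕ, K₀ ≤ K →
    ∀ t : ℝ, t ≤ τ → lexG (ol (K + 1)) t ≤ ε := by
  obtain ⟨z, hz⟩ : ∃ z : ℕ, Real.exp (2 / ε) ≤ z := exists_nat_ge _
  set K₀ := max z 2 with hK₀
  have hK2 : 2 ≤ K₀ := le_max_right _ _
  have hzK : (z : ℝ) ≤ K₀ := by exact_mod_cast le_max_left _ _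
  have hlog : 2 / ε ≤ Real.log K₀ := by
    rw [Real.le_log_iff_exp_le (by positivity)]
    exact hz.trans hzK
  have hlog0 : 0 < Real.log K₀ := lt_of_lt_of_le (by positivity) hlog
  have hV : 2 * V K₀ ≤ ε := by
    have h1 := Pool.Agent.Lib.GT.V_le K₀ hK2
    have h2 : 1 / Real.log K₀ ≤ ε / 2 := by
      rw [div_le_div_iff₀ hlog0 (by norm_num)]
      rw [div_le_iff₀ hε] at hlog
      linarith
    linarith
  refine ⟨1 / ∏ p ∈ op (K₀ + 1), ((p : ℝ) - 1), one_div_pos.mpr (op_prod_pos _), K₀,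
    fun K hK t ht => ?_⟩
  refine ((nice_ol (K + 1)).mono ht).trans ?_
  rw [lexG_value_ol (by omega), prod_V hK2]
  exact hV

end Pool.Agent.Lib.MP_7b7e48_nt.LX
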