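import Pool.Agent.Lib.MP_7b7e48_nt.LX.Nat
import Pool.Agent.Lib.MP_7b7e48_nt.SP.Final

/-!
# MP_7b7e48_nt : popular sums of a class at a small scale and a class (helper81)
-/

namespace Pool.Agent.Lib.MP_7b7e48_nt.LX

open Finset Pool.Agent.Lib.GT Pool.Agent.Lib.GT.LA Pool.Agent.Lib.GT.Robust
open Pool.Agent.Lib.MP_7b7e48_nt.SP

/-- popular sums of the part of `a` in `[1,s]` and the class `u`, and the part of `b` in
`[1,X-s]` and the class `v`. -/
theorem pair_scale {K : ℕ} (hK : 2 ≤ K) {t ε' : ℝ} (ht : 0 < t)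
    (hB : 140 / Real.sqrt K ≤ ε' * t) :
    ∃ κ : ℝ, 0 < κ ∧ ∃ X₀ : ℕ, ∀ X : ℕ, X₀ ≤ X → ∀ s : ℕ, s ≤ X → ∀ a b : ℕ → ℝ,
      (∀ n, 0 ≤ a n) → (∀ n, a n ≤ lam n) → (∀ n, 0 ≤ b n) → (∀ n, b n ≤ lam n) →
      ∀ u v : ℕ, t * RR K X ≤ ms a (Wp K) u 0 s →
      (X : ℝ) / Wp K * (ms b (Wp K) v 0 (X - s) / RR K X - ε') ≤
        (((range (X + 1)).filter (fun N => N % Wp K = (u + v) % Wp K ∧
          κ * X ≤ cv a b N)).card : ℝ) := by
  classical
  have hKR : (2 : ℝ) ≤ K := by exact_mod_cast hK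
  have hsK : 0 < Real.sqrt K := Real.sqrt_pos.2 (by linarith)
  have hVW := VW_pos K
  have hV := V_pos K
  have hW0 : 0 < Wp K := Wp_pos K
  have hWR : (0 : ℝ) < Wp K := by exact_mod_cast hW0
  set κ : ℝ := 1 / (3 * Real.sqrt K * (V K * (Wp K : ℝ)) ^ 2) with hκ
  have hκ0 : 0 < κ := by positivity
  obtain ⟨X₁, hX₁⟩ := half hK
  refine ⟨κ, hκ0, max X₁ 1, fun X hX s hs a b ha0 hal hb0 hbl u v hmass => ?_⟩
  have hXa : X₁ ≤ X := (le_max_left _ _).trans hX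
  have hX1 : 1 ≤ X := (le_max_right _ _).trans hX
  have hXR : (1 : ℝ) ≤ X := by exact_mod_cast hX1
  set W := Wp K with hW
  set R := RR K X with hR
  have hRdef : R = X / (V K * (W : ℝ)) := rfl
  have hR0 : 0 < R := by rw [hRdef]; positivity
  have hVR : V K * R = X / W := by rw [hRdef]; field_simp
  set T := (range (X + 1)).filter (fun N => N % W = (u + v) % W ∧ κ * X ≤ cv a b N) with hT
  have hκX : 0 ≤ κ * X := by positivity
  have hlin : ∀ (z : ℕ) (f : ℕ → ℝ) (s t : ℕ), (∀ n, 0 ≤ f n) → (∀ n, f n ≤ lam n) → t ≤ X →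
      (∀ n, 0 ≤ rs f W z s t n) ∧ (∀ n, rs f W z s t n ≤ lam n) ∧
      (∀ n, rs f W z s t n ≠ 0 → n ≤ X ∧ n % W = z) := by
    intro z f s t hf0 hfl htX
    refine ⟨fun n => rs_nonneg hf0 _ _ _ _ _, fun n => (rs_le hf0 _ _ _ _ _).trans (hfl n),
      fun n hn => ?_⟩
    have := rs_ne hn
    exact ⟨this.1.2.trans htX, this.2⟩
  have herr : (2 * (X : ℝ) + 1) * (κ * X) ≤ 1 / Real.sqrt K * R ^ 2 := by
    have h1 : (2 * (X : ℝ) + 1) * (κ * X) ≤ 3 * X * (κ * X) :=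
      mul_le_mul_of_nonneg_right (by linarith) hκX
    refine h1.trans (le_of_eq ?_)
    rw [hκ, hRdef]
    field_simp
  obtain ⟨p1, p2, p3⟩ := hlin u a 0 s ha0 hal hs
  obtain ⟨q1, q2, q3⟩ := hlin v b 0 (X - s) hb0 hbl (Nat.sub_le _ _)
  have half1 := hX₁ X hXa u v _ _ p1 p2 p3 q1 q2 q3 (κ * X) hκX T
    (by
      intro N hN
      rw [hT, Finset.mem_filter, Finset.mem_range] at hN
      rw [Finset.mem_range]
      omega) (by
      intro N hN hNT
      by_contra! hc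
      apply hNT
      obtain ⟨x, hxN, hx1, hx2⟩ := cv_ne (ne_of_gt (lt_of_le_of_lt hκX hc))
      have h1 := rs_ne hx1
      have h2 := rs_ne hx2
      rw [hT, Finset.mem_filter, Finset.mem_range]
      refine ⟨?_, ?_, ?_⟩
      · have h3 := h1.1.2
        have h4 := h2.1.2
        omega
      · have h3 : N = x + (N - x) := by omega
        rw [h3, Nat.add_mod, h1.2, h2.2]
      · exact hc.le.trans (cv_mono p1 hb0 (fun n => rs_le ha0 _ _ _ _ _)
          (fun n => rs_le hb0 _ _ _ _ _) N))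
  rw [sum_rs a W u hs, sum_rs b W v (Nat.sub_le _ _)] at half1
  have hB0' : (0 : ℝ) ≤ 140 / Real.sqrt K := by positivity
  have hsplit : 140 / Real.sqrt K * R ^ 2 = 1 / Real.sqrt K * R ^ 2 + 139 / Real.sqrt K * R ^ 2 := by
    ring
  have c1 := half_use (K := K) (X := X) (F := ms a W u 0 s) (G := ms b W v 0 (X - s))
    (R := R) (t := t) (ε' := ε') (q := ms b W v 0 (X - s) / R) (B := 140 / Real.sqrt K)
    (n := T.card) hR0 hV hmass ht (by linarith) hB hB0' (by rw [div_mul_cancel₀ _ hR0.ne'])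
  rw [hVR] at c1
  exact c1

end Pool.Agent.Lib.MP_7b7e48_nt.LX
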