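import Pool.Agent.Lib.MP_7b7e48_nt.LX.G
import Pool.Agent.Lib.MP_7b7e48_nt.LX.Scale

/-!
# MP_7b7e48_nt : one dense summand, lower bound (helper81)
-/

namespace Pool.Agent.Lib.MP_7b7e48_nt.LX

open Finset Pool.Agent.Lib.GT Pool.Agent.Lib.GT.LA Pool.Agent.Lib.GT.Robust
open Pool.Agent.Lib.MP_7b7e48_nt.SP

theorem card_un (K : ℕ) : ((un K).card : ℝ) = V K * (Wp K : ℝ) := by
  rw [← WindowAux.totient_Wp, Nat.totient_eq_card_coprime]
  congr 2
  ext u
  rw [mem_un_coprime, Finset.mem_filter, Finset.mem_range, Nat.coprime_comm]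

/-- most classes: the number of classes with positive mass -/
theorem classes_lower {K : ℕ} {α δ₁ F0 : ℝ} {s : ℕ} (hs : 0 < s) (hδ₁ : 0 < δ₁) (F : ℕ → ℝ)
    (hF : ∀ u ∈ un K, F u ≤ (1 + δ₁) * ((s : ℝ) / (V K * (Wp K : ℝ))))
    (hsum : F0 - δ₁ * s ≤ ∑ u ∈ un K, F u) (hF0 : (α - δ₁) * s ≤ F0) :
    (α - 3 * δ₁) / (1 + δ₁) ≤
      (((un K).filter (fun u => δ₁ * ((s : ℝ) / (V K * (Wp K : ℝ))) ≤ F u)).card : ℝ) /
        ((un K).card : ℝ) := by
  have hVW := VW_pos K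
  have hsR : (0 : ℝ) < s := by exact_mod_cast hs
  set R : ℝ := (s : ℝ) / (V K * (Wp K : ℝ)) with hR
  have hR0 : 0 < R := by positivity
  set S := (un K).filter (fun u => δ₁ * R ≤ F u) with hS
  have h1 : ∑ u ∈ un K, F u ≤ S.card * ((1 + δ₁) * R) + (un K).card * (δ₁ * R) := by
    rw [← Finset.sum_filter_add_sum_filter_not (un K) (fun u => δ₁ * R ≤ F u)]
    refine add_le_add ?_ ?_
    · rw [← hS, ← nsmul_eq_mul]
      exact Finset.sum_le_card_nsmul _ _ _ fun u hu => hF u (Finset.filter_subset _ _ hu)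
    · have h2 : ∑ u ∈ (un K).filter (fun u => ¬ δ₁ * R ≤ F u), F u ≤
          ((un K).filter (fun u => ¬ δ₁ * R ≤ F u)).card • (δ₁ * R) :=
        Finset.sum_le_card_nsmul _ _ _ fun u hu => by
          rw [Finset.mem_filter] at hu
          exact (not_le.mp hu.2).le
      rw [nsmul_eq_mul] at h2
      refine h2.trans ?_
      apply mul_le_mul_of_nonneg_right _ (by positivity)
      exact_mod_cast Finset.card_le_card (Finset.filter_subset _ _)
  have hRs : V K * (Wp K : ℝ) * R = s := by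
    rw [hR, mul_div_assoc', mul_comm, mul_div_assoc, div_self hVW.ne', mul_one]
  rw [card_un] at h1 ⊢
  rw [div_le_div_iff₀ (by linarith) hVW]
  have h3 : (α - 3 * δ₁) * s ≤ S.card * ((1 + δ₁) * R) := by
    have : V K * (Wp K : ℝ) * (δ₁ * R) = δ₁ * s := by rw [← hRs]; ring
    linarith
  have h4 : (α - 3 * δ₁) * (V K * (Wp K : ℝ)) * R ≤ S.card * (1 + δ₁) * R := by
    calc (α - 3 * δ₁) * (V K * (Wp K : ℝ)) * R = (α - 3 * δ₁) * s := by rw [← hRs]; ring
      _ ≤ S.card * ((1 + δ₁) * R) := h3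
      _ = _ := by ring
  exact le_of_mul_le_mul_right h4 hR0

theorem aux_ge {g ε : ℝ} (h5 : g ≤ 1) (h6 : 0 ≤ g) (hε : 0 ≤ ε) :
    g - ε ≤ (g - ε / 4) * (1 - ε / 2) := by
  nlinarith

theorem aux_fin {κ X l m : ℝ} (h10 : κ * (2 * X) ≤ 4 * l * (m + 1)) (h11 : l ≤ κ / 4 * X) :
    κ / 4 * X ≤ m * l := by
  nlinarith

theorem count_even {X : ℕ} {P : ℕ → Prop} [DecidablePred P] (h0 : ¬ P 0) :
    ((range (2 * X + 1)).filter (fun N => N % 2 = 0 ∧ P N)).card ≤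
      ((Icc 1 X).filter (fun n => P (2 * n))).card := by
  apply Finset.card_le_card_of_injOn (fun N => N / 2)
  · intro N hN
    rw [Finset.mem_coe, Finset.mem_filter, Finset.mem_range] at hN
    obtain ⟨hN1, hN2, hN3⟩ := hN
    have hN0 : N ≠ 0 := by
      rintro rfl
      exact h0 hN3
    rw [Finset.mem_coe, Finset.mem_filter, Finset.mem_Icc]
    have h2N : 2 * (N / 2) = N := by omega
    show (1 ≤ N / 2 ∧ N / 2 ≤ X) ∧ P (2 * (N / 2))
    rw [h2N]
    exact ⟨⟨by omega, by omega⟩, hN3⟩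
  · intro N hN M hM h
    rw [Finset.mem_coe, Finset.mem_filter] at hN hM
    have h' : N / 2 = M / 2 := h
    omega

theorem pair_count {A B : Finset ℕ} (hB : ∀ p ∈ B, p.Prime) (N : ℕ) :
    ((A ×ˢ B).filter (fun x => x.1 ≠ x.2 ∧ x.1 + x.2 = N)).card ≤
      (A.filter (fun a => a < N ∧ (N - a).Prime ∧ N - a ≠ a)).card := by
  apply Finset.card_le_card_of_injOn (fun x => x.1)
  · intro x hx
    rw [Finset.mem_coe, Finset.mem_filter, Finset.mem_product] at hx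
    obtain ⟨⟨hxA, hxB⟩, hne, hsum⟩ := hx
    have h13 := hB _ hxB
    have h14 := h13.pos
    have h15 : N - x.1 = x.2 := by omega
    rw [Finset.mem_coe, Finset.mem_filter, h15]
    exact ⟨hxA, (by omega : x.1 < N), h13, fun h => hne h.symm⟩
  · intro x hx y hy hxy
    rw [Finset.mem_coe, Finset.mem_filter] at hx hy
    have h1 := hx.2.2
    have h2 := hy.2.2
    have h3 : x.1 = y.1 := hxy
    exact Prod.ext h3 (by omega)

theorem main_lower {α ε : ℝ} (hα0 : 0 ≤ α) (hε : 0 < ε) :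
    ∃ δ : ℝ, 0 < δ ∧ δ ≤ 1 ∧ ∃ c : ℝ, 0 < c ∧ ∃ X₀ : ℕ, ∀ X : ℕ, X₀ ≤ X → ∀ A : Finset ℕ,
      (∀ p ∈ A, p.Prime ∧ (p : ℝ) ≤ δ * X) → α * (Nat.primeCounting ⌊δ * X⌋₊ : ℝ) ≤ A.card →
      (gfun α - ε) * X ≤ (((Icc 1 X).filter (fun n => c * X / Real.log X ^ 2 ≤
        ((A.filter (fun a => a < 2 * n ∧ (2 * n - a).Prime ∧ 2 * n - a ≠ a)).card : ℝ))).card :
          ℝ) := by
  classical
  wlog hε1 : ε ≤ 1 generalizing ε
  · obtain ⟨δ, h1, h2, c, hc, X₀, h3⟩ := this one_pos le_rfl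
    refine ⟨δ, h1, h2, c, hc, X₀, fun X hX A hA hcA => (mul_le_mul_of_nonneg_right ?_
      (Nat.cast_nonneg _)).trans (h3 X hX A hA hcA)⟩
    push Not at hε1
    linarith
  obtain ⟨τ, hτ, K₁, hK₁⟩ := exists_small (show 0 < ε / 4 by positivity)
  set δ : ℝ := ε / 4 with hδ
  have hδ0 : 0 < δ := by positivity
  have hδ1 : δ ≤ 1 := by rw [hδ]; linarith
  set δ₁ : ℝ := min (τ / (α + 3)) (ε / 8) with hδ₁
  have hδ₁0 : 0 < δ₁ := by positivity
  have hδ₁ε : δ₁ ≤ ε / 8 := min_le_right _ _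
  have hδ₁τ : δ₁ * (α + 3) ≤ τ := by
    have := min_le_left (τ / (α + 3)) (ε / 8)
    rw [← hδ₁, le_div_iff₀ (by linarith)] at this
    exact this
  set t : ℝ := δ₁ * δ / 4 with ht
  have ht0 : 0 < t := by positivity
  obtain ⟨K₂, hK₂⟩ : ∃ K₂ : ℕ, (140 / (ε / 4 * t)) ^ 2 ≤ K₂ := exists_nat_ge _
  obtain ⟨K, hKdef⟩ : ∃ K, K = max (max K₁ K₂) 2 := ⟨_, rfl⟩
  have hKa : K₁ ≤ K := hKdef ▸ (le_max_left _ _).trans (le_max_left _ _)
  have hKb : K₂ ≤ K := hKdef ▸ (le_max_right _ _).trans (le_max_left _ _)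
  have hK2 : 2 ≤ K := hKdef ▸ le_max_right _ _
  have hKR : (2 : ℝ) ≤ K := by exact_mod_cast hK2
  have hsK : 0 < Real.sqrt K := Real.sqrt_pos.2 (by linarith)
  have hB : 140 / Real.sqrt K ≤ ε / 4 * t := by
    have h1 : 140 / (ε / 4 * t) ≤ Real.sqrt K := by
      apply Real.le_sqrt_of_sq_le
      exact hK₂.trans (by exact_mod_cast hKb)
    rw [div_le_iff₀ (by positivity)] at h1
    rw [div_le_iff₀ hsK]
    linarith
  obtain ⟨κ, hκ0, X₁, hX₁⟩ := pair_scale hK2 ht0 hB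
  have hVW := VW_pos K
  have hWR : (0 : ℝ) < Wp K := by exact_mod_cast Wp_pos K
  obtain ⟨X₂, hX₂⟩ := window_mass K hK2 (δ₁ * δ / (4 * (V K * (Wp K : ℝ)))) (by positivity)
  obtain ⟨X₃, hX₃⟩ := mass_lower hα0 hδ₁0
  obtain ⟨X₄, hX₄⟩ : ∃ X₄ : ℕ, (∑ p ∈ pr K, Real.log p) / δ₁ ≤ X₄ := exists_nat_ge _
  obtain ⟨X₅, hX₅⟩ : ∃ X₅ : ℕ, ∀ X : ℕ, X₅ ≤ X → Real.log X ^ 2 ≤ κ / 4 * X := by
    have h := (isLittleO_log_rpow_atTop (show (0 : ℝ) < 1 / 2 by norm_num)).tendsto_div_nhds_zero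
    have h6 := (h.comp tendsto_natCast_atTop_atTop).eventually_lt_const
      (show (0 : ℝ) < Real.sqrt (κ / 4) by positivity)
    obtain ⟨N₀, hN₀⟩ := Filter.eventually_atTop.mp h6
    refine ⟨max N₀ 1, fun X hX => ?_⟩
    have h7 := hN₀ X ((le_max_left _ _).trans hX)
    have hX1 : (1 : ℝ) ≤ X := by exact_mod_cast (le_max_right _ _).trans hX
    simp only [Function.comp] at h7
    rw [div_lt_iff₀ (by positivity)] at h7
    have h8 : 0 ≤ Real.log X := Real.log_nonneg hX1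
    calc Real.log X ^ 2 ≤ (Real.sqrt (κ / 4) * (X : ℝ) ^ (1 / 2 : ℝ)) ^ 2 :=
          pow_le_pow_left₀ h8 h7.le 2
      _ = κ / 4 * X := by
          rw [mul_pow, Real.sq_sqrt (by positivity), ← Real.sqrt_eq_rpow,
            Real.sq_sqrt (by linarith)]
  obtain ⟨X₆, hX₆⟩ : ∃ X₆ : ℕ, 2 * (1 + X₃ + X₄) / δ ≤ (X₆ : ℝ) := exists_nat_ge _
  refine ⟨δ, hδ0, hδ1, κ / 4, by positivity, max (max (max X₁ X₂) X₅) (max X₆ 3),
    fun X hX A hA hcA => ?_⟩
  have hXa : X₁ ≤ X := (le_max_left _ _).trans ((le_max_left _ _).trans ((le_max_left _ _).trans hX))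
  have hXb : X₂ ≤ X := (le_max_right _ _).trans ((le_max_left _ _).trans ((le_max_left _ _).trans hX))
  have hXc : X₅ ≤ X := (le_max_right _ _).trans ((le_max_left _ _).trans hX)
  have hXd : X₆ ≤ X := (le_max_left _ _).trans ((le_max_right _ _).trans hX)
  have hX3 : 3 ≤ X := (le_max_right _ _).trans ((le_max_right _ _).trans hX)
  have hXR : (3 : ℝ) ≤ X := by exact_mod_cast hX3
  obtain ⟨s, hs⟩ : ∃ s, s = ⌊δ * X⌋₊ := ⟨_, rfl⟩
  obtain ⟨Y, hY⟩ : ∃ Y, Y = 2 * X := ⟨_, rfl⟩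
  have hYR : (Y : ℝ) = 2 * X := by rw [hY]; push_cast; ring
  have hs_le : (s : ℝ) ≤ δ * X := hs ▸ Nat.floor_le (by positivity)
  have hXδ : 2 * (1 + X₃ + X₄) ≤ δ * X := by
    have h1 : 2 * (1 + X₃ + X₄) / δ ≤ (X : ℝ) := hX₆.trans (by exact_mod_cast hXd)
    rw [div_le_iff₀ hδ0] at h1
    linarith
  have hs_ge : δ * X / 2 ≤ s := by
    have h1 : δ * X < s + 1 := hs ▸ Nat.lt_floor_add_one _
    have h2 : (0 : ℝ) ≤ X₃ := Nat.cast_nonneg _
    have h3 : (0 : ℝ) ≤ X₄ := Nat.cast_nonneg _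
    linarith
  have hsX₃ : X₃ ≤ s := by
    have h3 : (0 : ℝ) ≤ X₄ := Nat.cast_nonneg _
    have : (X₃ : ℝ) ≤ s := by linarith
    exact_mod_cast this
  have hsX₄ : (X₄ : ℝ) ≤ s := by
    have h3 : (0 : ℝ) ≤ X₃ := Nat.cast_nonneg _
    linarith
  have hs0 : 0 < s := by
    have h3 : (0 : ℝ) ≤ X₃ := Nat.cast_nonneg _
    have h4 : (0 : ℝ) ≤ X₄ := Nat.cast_nonneg _
    have : (0 : ℝ) < s := by linarith
    exact_mod_cast this
  have hsX : s ≤ X := by
    have : (s : ℝ) ≤ X := hs_le.trans (mul_le_of_le_one_left (Nat.cast_nonneg _) hδ1)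
    exact_mod_cast this
  have hsY : s ≤ Y := by omega
  have hXY : X ≤ Y := by omega
  set W := Wp K with hW
  set R := RR K Y with hR
  have hRdef : R = Y / (V K * (W : ℝ)) := rfl
  have hR0 : 0 < R := by rw [hRdef, hYR]; positivity
  have hAs : ∀ p ∈ A, p.Prime ∧ p ≤ s := fun p hp =>
    ⟨(hA p hp).1, hs ▸ Nat.le_floor (hA p hp).2⟩
  have herr : δ₁ * δ / (4 * (V K * (W : ℝ))) * Y = δ₁ * δ / 4 * R := by
    rw [hRdef]; field_simp
  -- masses of the classes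
  set F : ℕ → ℝ := fun u => ms (wt A) W u 0 s with hF
  set Rs : ℝ := (s : ℝ) / (V K * (W : ℝ)) with hRs
  have hRs0 : 0 < Rs := by
    have : (0 : ℝ) < s := by exact_mod_cast hs0
    positivity
  have hRsR : δ / 4 * R ≤ Rs := by
    rw [hRs, hRdef, ← mul_div_assoc]
    apply div_le_div_of_nonneg_right _ hVW.le
    rw [hYR]; linarith
  have hFle : ∀ u ∈ un K, F u ≤ (1 + δ₁) * Rs := by
    intro u hu
    have hu' := mem_un.1 hu
    have h1 := hX₂ Y (hXb.trans hXY) 0 s u (Nat.zero_le _) hsY hu'.2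
    rw [Nat.mod_eq_of_lt hu'.1, herr] at h1
    have h2 := (abs_le.1 h1).2
    have h5 : F u ≤ ms lam W u 0 s := ms_le_lam (wt_le A) W u 0 s
    have h6 : ms lam W u 0 s = ∑ x ∈ (Finset.Ioc 0 s).filter (fun x => x % W = u), lam x := rfl
    rw [← h6] at h2
    have h7 : ((s : ℝ) - (0 : ℕ)) / (V K * (W : ℝ)) = Rs := by rw [hRs]; simp
    rw [h7] at h2
    have h8 : δ₁ * δ / 4 * R ≤ δ₁ * Rs := by
      calc δ₁ * δ / 4 * R = δ₁ * (δ / 4 * R) := by ring
        _ ≤ _ := mul_le_mul_of_nonneg_left hRsR hδ₁0.le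
    linarith
  have hFsum : ∑ p ∈ A, Real.log p - δ₁ * s ≤ ∑ u ∈ un K, F u := by
    have h1 := sum_classes (K := K) A hAs
    have h2 : ∑ p ∈ pr K, Real.log p ≤ δ₁ * s := by
      rw [div_le_iff₀ hδ₁0] at hX₄
      calc _ ≤ (X₄ : ℝ) * δ₁ := hX₄
        _ ≤ s * δ₁ := mul_le_mul_of_nonneg_right hsX₄ hδ₁0.le
        _ = _ := mul_comm _ _
    linarith
  have hlow := classes_lower (K := K) (α := α) hs0 hδ₁0 F hFle hFsum
    (hX₃ s hsX₃ A hAs (hs ▸ hcA))
  set S := (un K).filter (fun u => δ₁ * ((s : ℝ) / (V K * (Wp K : ℝ))) ≤ F u) with hS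
  have hloc := loc_un hK2 S (Finset.filter_subset _ _)
  set C := (range (Wp K)).filter (fun c => ∃ u ∈ S, ∃ v ∈ un K, (u + v) % Wp K = c) with hC
  -- the value of lexG
  have hval : gfun α - ε / 4 ≤ lexG (ol (K + 1)) ((S.card : ℝ) / (un K).card) := by
    have N := nice_ol (K + 1)
    have h1 := N.mono hlow
    have h2 := N.sub ((α - 3 * δ₁) / (1 + δ₁)) (α - (α - 3 * δ₁) / (1 + δ₁))
    rw [add_sub_cancel] at h2
    have h3 : α - (α - 3 * δ₁) / (1 + δ₁) ≤ τ := by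
      have : α - (α - 3 * δ₁) / (1 + δ₁) = δ₁ * (α + 3) / (1 + δ₁) := by
        field_simp; ring
      rw [this]
      refine (div_le_self (by positivity) (by linarith)).trans hδ₁τ
    have h4 := hK₁ K hKa _ h3
    have h5 := gfun_le (K + 1) α
    linarith
  -- popular sums
  set B := (range (Y + 1)).filter Nat.Prime with hBdef
  have hBp : ∀ p ∈ B, p.Prime ∧ p ≤ Y := by
    intro p hp
    rw [hBdef, Finset.mem_filter, Finset.mem_range] at hp
    exact ⟨hp.2, by omega⟩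
  have hAY : ∀ p ∈ A, p.Prime ∧ p ≤ Y := fun p hp => ⟨(hAs p hp).1, (hAs p hp).2.trans hsY⟩
  set cnt : ℕ → ℕ := fun c => ((range (Y + 1)).filter (fun N => N % W = c ∧
    κ * Y ≤ cv (wt A) (wt B) N)).card with hcnt
  have hcntC : ∀ c ∈ C, (Y : ℝ) / W * (1 - ε / 2) ≤ cnt c := by
    intro c hc
    rw [hC, Finset.mem_filter] at hc
    obtain ⟨_, u, hu, v, hv, rfl⟩ := hc
    rw [hS, Finset.mem_filter] at hu
    have hv' := mem_un.1 hv
    have h1 := hX₁ Y (hXa.trans hXY) s hsY (wt A) (wt B) (wt_nonneg A) (wt_le A) (wt_nonneg B)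
      (wt_le B) u v (by
        calc t * RR K Y = δ₁ * (δ / 4 * R) := by rw [ht, ← hR]; ring
          _ ≤ δ₁ * Rs := mul_le_mul_of_nonneg_left hRsR hδ₁0.le
          _ ≤ _ := hu.2)
    refine le_trans ?_ h1
    apply mul_le_mul_of_nonneg_left _ (by positivity)
    have h2 : ms (wt B) W v 0 (Y - s) = ms lam W v 0 (Y - s) := by
      unfold ms
      refine Finset.sum_congr rfl fun x hx => ?_
      rw [Finset.mem_filter, Finset.mem_Ioc] at hx
      unfold wt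
      by_cases hxB : x ∈ B
      · rw [if_pos hxB]
      · rw [if_neg hxB]
        unfold lam
        rw [if_neg]
        intro hxp
        apply hxB
        rw [hBdef, Finset.mem_filter, Finset.mem_range]
        exact ⟨by omega, hxp⟩
    have h3 := hX₂ Y (hXb.trans hXY) 0 (Y - s) v (Nat.zero_le _) (Nat.sub_le _ _) hv'.2
    rw [Nat.mod_eq_of_lt hv'.1, herr] at h3
    have h4 := (abs_le.1 h3).1
    have h6 : ms lam W v 0 (Y - s) =
        ∑ x ∈ (Finset.Ioc 0 (Y - s)).filter (fun x => x % W = v), lam x := rfl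
    rw [← h6, ← h2] at h4
    have h7 : (1 - δ / 2) * R ≤ (((Y - s : ℕ) : ℝ) - (0 : ℕ)) / (V K * (W : ℝ)) := by
      rw [hRdef, ← mul_div_assoc]
      apply div_le_div_of_nonneg_right _ hVW.le
      rw [Nat.cast_sub hsY, Nat.cast_zero, sub_zero]
      have : δ / 2 * Y = δ * X := by rw [hYR]; ring
      linarith
    have h8 : 1 - ε / 4 ≤ ms (wt B) W v 0 (Y - s) / R := by
      rw [le_div_iff₀ hR0]
      have h9 : δ₁ * δ / 4 * R ≤ ε / 8 * R := by
        apply mul_le_mul_of_nonneg_right _ hR0.le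
        have : δ₁ * δ ≤ δ₁ := mul_le_of_le_one_right hδ₁0.le hδ1
        linarith
      have h10 : (1 - δ / 2) * R = (1 - ε / 8) * R := by rw [hδ]; ring
      linarith
    linarith
  -- total
  have htot : ∑ c ∈ C, cnt c ≤ ((range (Y + 1)).filter (fun N => N % 2 = 0 ∧
      κ * Y ≤ cv (wt A) (wt B) N)).card := by
    rw [hcnt, ← Finset.card_biUnion]
    · apply Finset.card_le_card
      intro N hN
      rw [Finset.mem_biUnion] at hN
      obtain ⟨c, hc, hN⟩ := hN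
      rw [hC, Finset.mem_filter] at hc
      obtain ⟨_, u, hu, v, hv, rfl⟩ := hc
      rw [Finset.mem_filter] at hN ⊢
      have h2K : 2 ∈ pr K := mem_pr.2 ⟨hK2, Nat.prime_two⟩
      refine ⟨hN.1, ?_, hN.2.2⟩
      have h2W : 2 ∣ W := dvd_Wp h2K
      rw [← Nat.mod_mod_of_dvd N h2W, hN.2.1, Nat.mod_mod_of_dvd _ h2W]
      have h4 := (mem_un.1 (Finset.filter_subset _ _ hu)).2 2 h2K
      have h5 := (mem_un.1 hv).2 2 h2K
      omega
    · intro c _ c' _ hcc'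
      rw [Function.onFun, Finset.disjoint_left]
      intro N hN hN'
      rw [Finset.mem_filter] at hN hN'
      exact hcc' (hN.2.1.symm.trans hN'.2.1)
  have hCcard : (W : ℝ) / 2 * (gfun α - ε / 4) ≤ C.card :=
    (mul_le_mul_of_nonneg_left hval (by positivity)).trans hloc
  have hmain : (gfun α - ε) * X ≤ ∑ c ∈ C, (cnt c : ℝ) := by
    have h1 : (C.card : ℝ) * ((Y : ℝ) / W * (1 - ε / 2)) ≤ ∑ c ∈ C, (cnt c : ℝ) := by
      rw [← nsmul_eq_mul]
      exact Finset.card_nsmul_le_sum _ _ _ hcntC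
    have h2 : (Y : ℝ) / W * (1 - ε / 2) ≥ 0 := by
      have : 0 ≤ 1 - ε / 2 := by linarith
      positivity
    have h3 := mul_le_mul_of_nonneg_right hCcard h2
    refine le_trans ?_ (h3.trans h1)
    have h4 : (W : ℝ) / 2 * (gfun α - ε / 4) * ((Y : ℝ) / W * (1 - ε / 2)) =
        (gfun α - ε / 4) * (1 - ε / 2) * X := by
      rw [hYR]
      field_simp
    rw [h4]
    apply mul_le_mul_of_nonneg_right _ (by linarith)
    have h5 : gfun α ≤ 1 := (gfun_le 0 α).trans (lexG_le_one 0 α)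
    have h6 := gfun_nonneg α
    exact aux_ge h5 h6 hε.le
  refine hmain.trans ?_
  rw [← Nat.cast_sum]
  have hP0 : ¬ (κ * Y ≤ cv (wt A) (wt B) 0) := by
    have : cv (wt A) (wt B) 0 = 0 := by
      by_contra hne
      obtain ⟨x, hx, h1, _⟩ := cv_ne hne
      have hx0 : x = 0 := by omega
      subst hx0
      apply h1
      unfold wt lam
      split_ifs with h2 h3
      · exact absurd h3 Nat.not_prime_zero
      · rfl
      · rfl
    rw [this, hYR]
    have : 0 < κ * (2 * X) := by positivity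
    linarith
  have hev := count_even (X := X) (P := fun N => κ * Y ≤ cv (wt A) (wt B) N) hP0
  rw [← hY] at hev
  refine (Nat.cast_le.mpr (htot.trans (hev.trans (Finset.card_le_card ?_))))
  intro n hn
  rw [Finset.mem_filter] at hn ⊢
  refine ⟨hn.1, ?_⟩
  have h9 := hn.2.trans (cv_le_card (by omega : 1 ≤ Y) A B hAY hBp (2 * n))
  have hlogX : 0 < Real.log X := Real.log_pos (by linarith)
  have hlogY : Real.log Y ≤ 2 * Real.log X := by
    rw [hYR, Real.log_mul (by norm_num) (by linarith)]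
    have : Real.log 2 ≤ Real.log X := Real.log_le_log (by norm_num) (by linarith)
    linarith
  have hlogY0 : 0 ≤ Real.log Y := by
    apply Real.log_nonneg; rw [hYR]; linarith
  have hlogY2 : Real.log Y ^ 2 ≤ 4 * Real.log X ^ 2 := by
    calc Real.log Y ^ 2 ≤ (2 * Real.log X) ^ 2 := pow_le_pow_left₀ hlogY0 hlogY 2
      _ = _ := by ring
  have h12 := pair_count (A := A) (B := B) (fun p hp => (hBp p hp).1) (2 * n)
  have h12' : (((A ×ˢ B).filter (fun x => x.1 ≠ x.2 ∧ x.1 + x.2 = 2 * n)).card : ℝ) ≤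
      ((A.filter (fun a => a < 2 * n ∧ (2 * n - a).Prime ∧ 2 * n - a ≠ a)).card : ℝ) := by
    exact_mod_cast h12
  refine le_trans ?_ h12'
  generalize (((A ×ˢ B).filter (fun x => x.1 ≠ x.2 ∧ x.1 + x.2 = 2 * n)).card : ℝ) = m at h9
  have h11 := hX₅ X hXc
  rw [div_le_iff₀ (by positivity)]
  have hm1 : 0 ≤ m + 1 := by
    by_contra! hc
    have h13 : Real.log Y ^ 2 * (m + 1) ≤ 0 :=
      mul_nonpos_of_nonneg_of_nonpos (sq_nonneg _) hc.le
    have h14 : 0 < κ * (Y : ℝ) := by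
      rw [hYR]
      exact mul_pos hκ0 (by linarith)
    exact absurd (h14.trans_le h9) (not_lt.mpr h13)
  have h10 : κ * Y ≤ 4 * Real.log X ^ 2 * (m + 1) :=
    h9.trans (mul_le_mul_of_nonneg_right hlogY2 hm1)
  rw [hYR] at h10
  exact aux_fin h10 h11

end Pool.Agent.Lib.MP_7b7e48_nt.LX
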