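import Pool.Agent.Lib.MP_7b7e48_nt.LX.Two
import Pool.Agent.Lib.MP_7b7e48_nt.LX.Lower

/-!
# MP_7b7e48_nt : two dense summands, lower bound (helper81)
-/

namespace Pool.Agent.Lib.MP_7b7e48_nt.LX

open Finset Pool.Agent.Lib.GT Pool.Agent.Lib.GT.LA Pool.Agent.Lib.GT.Robust
open Pool.Agent.Lib.MP_7b7e48_nt.SP

/-- the function for two dense summands -/
noncomputable def G2 (q : ℕ) (x : ℝ) : ℝ :=
  (∏ p ∈ op q, (1 - 1 / (p : ℝ))) *
    ((∏ p ∈ op q, ((p : ℝ) - 1)) * x) ^ (Real.log q / Real.log ((q : ℝ) - 1) - 1)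

theorem one_div_ownS {q : ℕ} (hq : 5 ≤ q) :
    1 / ownS (q - 1) = Real.log q / Real.log ((q : ℝ) - 1) - 1 := by
  have hqR : (5 : ℝ) ≤ q := by exact_mod_cast hq
  have h1 : ((q - 1 : ℕ) : ℝ) = (q : ℝ) - 1 := by
    rw [Nat.cast_sub (by omega), Nat.cast_one]
  have h2 : 0 < Real.log ((q : ℝ) - 1) := Real.log_pos (by linarith)
  have h3 : 1 + 1 / ((q : ℝ) - 1) = q / ((q : ℝ) - 1) := by
    have : (q : ℝ) - 1 ≠ 0 := by linarith
    field_simp
    ring
  unfold ownS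
  rw [h1, h3, Real.log_div (by linarith) (by linarith), one_div_div, sub_div, div_self h2.ne']

theorem theta_pos {q : ℕ} (hq : 5 ≤ q) : 0 < Real.log q / Real.log ((q : ℝ) - 1) - 1 := by
  rw [← one_div_ownS hq]
  exact one_div_pos.mpr (ownS_pos (by omega))

theorem op_sub {q n : ℕ} (h : q ≤ n) : op q ⊆ op n := by
  intro p hp
  unfold op at hp ⊢
  rw [Finset.mem_filter, Finset.mem_range] at hp ⊢
  exact ⟨by omega, hp.2⟩

theorem op_three {n p : ℕ} (hp : p ∈ op n) : (3 : ℝ) ≤ p := by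
  unfold op at hp
  rw [Finset.mem_filter] at hp
  exact_mod_cast prime_three hp.2.1 hp.2.2

theorem CC_eq {K q : ℕ} (hq : 5 ≤ q) (hK : q ≤ K + 1) {x : ℝ} (hx : 0 ≤ x) :
    CC q (1 / ownS (q - 1)) (ol (K + 1)) * x ^ (1 / ownS (q - 1)) = G2 q x := by
  unfold CC G2
  rw [one_div_ownS hq, ol_prod (K + 1)]
  set θ := Real.log q / Real.log ((q : ℝ) - 1) - 1 with hθ
  have h1 : ∏ p ∈ op (K + 1), cc q θ p =
      ∏ p ∈ op q, (((p : ℝ) - 1) / p * ((p : ℝ) - 1) ^ θ) := by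
    rw [← Finset.prod_subset (op_sub hK) (f := cc q θ)]
    · refine Finset.prod_congr rfl fun p hp => ?_
      unfold cc
      unfold op at hp
      rw [Finset.mem_filter, Finset.mem_range] at hp
      rw [if_pos hp.1]
    · intro p hp hpn
      unfold cc
      unfold op at hp hpn
      rw [Finset.mem_filter, Finset.mem_range] at hp hpn
      rw [if_neg]
      intro h
      exact hpn ⟨h, hp.2⟩
  rw [h1, Finset.prod_mul_distrib, Real.finsetProd_rpow, Real.mul_rpow _ hx, ← mul_assoc]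
  · congr 2
    refine Finset.prod_congr rfl fun p hp => ?_
    have := op_three hp
    field_simp
  · exact (op_prod_pos q).le
  · intro p hp
    have := op_three hp
    linarith

theorem G2_nonneg (q : ℕ) {x : ℝ} (hx : 0 ≤ x) : 0 ≤ G2 q x := by
  unfold G2
  apply mul_nonneg
  · apply Finset.prod_nonneg
    intro p hp
    have := op_three hp
    have : 1 / (p : ℝ) ≤ 1 := by rw [div_le_one (by linarith)]; linarith
    linarith
  · exact Real.rpow_nonneg (mul_nonneg (op_prod_pos q).le hx) _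

theorem G2_mono {q : ℕ} (hq : 5 ≤ q) {x y : ℝ} (hx : 0 ≤ x) (hxy : x ≤ y) : G2 q x ≤ G2 q y := by
  unfold G2
  apply mul_le_mul_of_nonneg_left
  · exact Real.rpow_le_rpow (mul_nonneg (op_prod_pos q).le hx)
      (mul_le_mul_of_nonneg_left hxy (op_prod_pos q).le) (theta_pos hq).le
  · apply Finset.prod_nonneg
    intro p hp
    have := op_three hp
    have : 1 / (p : ℝ) ≤ 1 := by rw [div_le_one (by linarith)]; linarith
    linarith

theorem G2_continuous {q : ℕ} (hq : 5 ≤ q) : Continuous (G2 q) := by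
  unfold G2
  apply Continuous.mul continuous_const
  exact (continuous_const.mul continuous_id).rpow_const fun x => Or.inr (theta_pos hq).le

theorem G2_near {q : ℕ} (hq : 5 ≤ q) {α β ε : ℝ} (hα : 0 ≤ α) (hβ : 0 ≤ β) (hε : 0 < ε) :
    ∃ η : ℝ, 0 < η ∧ ∀ x y : ℝ, α - η ≤ x → 0 ≤ x → β - η ≤ y → 0 ≤ y →
      β * G2 q α - ε ≤ y * G2 q x := by
  set h : ℝ → ℝ := fun η => max 0 (β - η) * G2 q (max 0 (α - η)) with hh
  have hc : Continuous h := by
    apply Continuous.mul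
    · exact continuous_const.max (continuous_const.sub continuous_id)
    · exact (G2_continuous hq).comp (continuous_const.max (continuous_const.sub continuous_id))
  have h0 : h 0 = β * G2 q α := by
    simp only [hh, sub_zero, max_eq_right hα, max_eq_right hβ]
  obtain ⟨δ, hδ, hδ'⟩ := Metric.continuous_iff.mp hc 0 ε hε
  refine ⟨δ / 2, by positivity, fun x y hx hx0 hy hy0 => ?_⟩
  have h1 := hδ' (δ / 2) (by rw [Real.dist_eq, sub_zero, abs_of_pos (by positivity)]; linarith)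
  rw [Real.dist_eq, h0] at h1
  have h2 := (abs_lt.mp h1).1
  have h3 : h (δ / 2) ≤ y * G2 q x := by
    simp only [hh]
    apply mul_le_mul
    · exact max_le hy0 hy
    · exact G2_mono hq (le_max_left _ _) (max_le hx0 hx)
    · exact G2_nonneg q (le_max_left _ _)
    · exact hy0
  linarith

/-- the mass of `B` in the unit classes below `Y - s` -/
theorem sum_upper_part {K : ℕ} {β δ₁ δ' : ℝ} {s Y : ℕ} (_hsY : s ≤ Y) (B : Finset ℕ)
    (hB : ∀ p ∈ B, p.Prime ∧ p ≤ Y) (hsum : (β - δ₁) * Y ≤ ∑ p ∈ B, Real.log p)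
    (hsmall : ∑ p ∈ pr K, Real.log p ≤ δ₁ * Y)
    (hw : ∀ v ∈ un K, ms lam (Wp K) v (Y - s) Y ≤ (s : ℝ) / (V K * (Wp K : ℝ)) +
      δ' * (Y / (V K * (Wp K : ℝ)))) :
    (β - 2 * δ₁ - δ') * Y - s ≤ ∑ v ∈ un K, ms (wt B) (Wp K) v 0 (Y - s) := by
  have hVW := VW_pos K
  have h1 := sum_classes (K := K) B hB
  have h2 : ∀ v ∈ un K, ms (wt B) (Wp K) v 0 Y - ((s : ℝ) / (V K * (Wp K : ℝ)) +
      δ' * (Y / (V K * (Wp K : ℝ)))) ≤ ms (wt B) (Wp K) v 0 (Y - s) := by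
    intro v hv
    have h3 := ms_add (wt B) (Wp K) v (Nat.zero_le (Y - s)) (Nat.sub_le Y s)
    have h4 : ms (wt B) (Wp K) v (Y - s) Y ≤ ms lam (Wp K) v (Y - s) Y :=
      ms_le_lam (wt_le B) (Wp K) v (Y - s) Y
    have h5 := hw v hv
    linarith
  have h3 := Finset.sum_le_sum h2
  rw [Finset.sum_sub_distrib, Finset.sum_const, nsmul_eq_mul, card_un] at h3
  have h4 : V K * (Wp K : ℝ) * ((s : ℝ) / (V K * (Wp K : ℝ)) + δ' * (Y / (V K * (Wp K : ℝ)))) =
      s + δ' * Y := by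
    have h5 : ∀ r : ℝ, 0 < r → r * ((s : ℝ) / r + δ' * (Y / r)) = s + δ' * Y := by
      intro r hr
      field_simp
    exact h5 _ hVW
  rw [h4] at h3
  linarith

theorem card_even_range {W : ℕ} (hW : 2 ∣ W) :
    (((range W).filter (fun c => c % 2 = 0)).card : ℝ) ≤ (W : ℝ) / 2 := by
  obtain ⟨k, rfl⟩ := hW
  have h : ((range (2 * k)).filter (fun c => c % 2 = 0)).card ≤ (range k).card := by
    apply Finset.card_le_card_of_injOn (fun c => c / 2)
    · intro c hc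
      rw [Finset.mem_coe, Finset.mem_filter, Finset.mem_range] at hc
      rw [Finset.mem_coe, Finset.mem_range]
      show c / 2 < k
      omega
    · intro a ha b hb hab
      rw [Finset.mem_coe, Finset.mem_filter] at ha hb
      have : a / 2 = b / 2 := hab
      omega
  rw [Finset.card_range] at h
  have h2 : (((range (2 * k)).filter (fun c => c % 2 = 0)).card : ℝ) ≤ k := by exact_mod_cast h
  push_cast
  linarith

theorem fin2 {Y W g e m L : ℝ} (hY : 0 < Y) (hW : 0 < W)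
    (h1 : W / 2 * g ≤ W / Y * m + e * (W / 2)) (h2 : L ≤ g) : (L - e) * (Y / 2) ≤ m := by
  have h3 : W / 2 * (L - e) ≤ W / Y * m := by nlinarith
  have h4 : (W / Y) * ((L - e) * (Y / 2)) ≤ (W / Y) * m := by
    refine le_trans (le_of_eq ?_) h3
    field_simp
  exact le_of_mul_le_mul_left h4 (by positivity)

theorem main_lower2 {q : ℕ} (hq : 5 ≤ q) {α β ε : ℝ} (hα0 : 0 ≤ α) (hβ0 : 0 ≤ β)
    (hε : 0 < ε) :
    ∃ δ : ℝ, 0 < δ ∧ δ ≤ 1 ∧ ∃ c : ℝ, 0 < c ∧ ∃ X₀ : ℕ, ∀ X : ℕ, X₀ ≤ X → ∀ A B : Finset ℕ,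
      (∀ p ∈ A, p.Prime ∧ (p : ℝ) ≤ δ * X) → α * (Nat.primeCounting ⌊δ * X⌋₊ : ℝ) ≤ A.card →
      (∀ p ∈ B, p.Prime ∧ p ≤ 2 * X) → β * (Nat.primeCounting (2 * X) : ℝ) ≤ B.card →
      (β * G2 q α - ε) * X ≤ (((Icc 1 X).filter (fun n => c * X / Real.log X ^ 2 ≤
        (((A ×ˢ B).filter (fun x => x.1 ≠ x.2 ∧ x.1 + x.2 = 2 * n)).card : ℝ))).card : ℝ) := by
  classical
  obtain ⟨η, hη0, hη⟩ := G2_near hq hα0 hβ0 (show 0 < ε / 2 by positivity)
  set δ₁ : ℝ := min (η / (α + 4)) (1 / 2) with hδ₁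
  have hδ₁0 : 0 < δ₁ := by positivity
  have hδ₁h : δ₁ ≤ 1 / 2 := min_le_right _ _
  have hδ₁η : δ₁ * (α + 4) ≤ η := by
    have := min_le_left (η / (α + 4)) (1 / 2)
    rw [← hδ₁, le_div_iff₀ (by linarith)] at this
    exact this
  obtain ⟨δ, hδ⟩ : ∃ δ : ℝ, δ = δ₁ := ⟨_, rfl⟩
  have hδ0 : 0 < δ := hδ ▸ hδ₁0
  have hδ1 : δ ≤ 1 := by linarith
  set t : ℝ := δ₁ * δ / 4 with ht
  have ht0 : 0 < t := by positivity
  obtain ⟨K₂, hK₂⟩ : ∃ K₂ : ℕ, (140 / (ε / 2 * t)) ^ 2 ≤ K₂ := exists_nat_ge _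
  obtain ⟨K, hKdef⟩ : ∃ K, K = max q K₂ := ⟨_, rfl⟩
  have hKa : q ≤ K := hKdef ▸ le_max_left _ _
  have hKb : K₂ ≤ K := hKdef ▸ le_max_right _ _
  have hK2 : 2 ≤ K := by omega
  have hKR : (2 : ℝ) ≤ K := by exact_mod_cast hK2
  have hsK : 0 < Real.sqrt K := Real.sqrt_pos.2 (by linarith)
  have hB : 140 / Real.sqrt K ≤ ε / 2 * t := by
    have h1 : 140 / (ε / 2 * t) ≤ Real.sqrt K := by
      apply Real.le_sqrt_of_sq_le
      exact hK₂.trans (by exact_mod_cast hKb)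
    rw [div_le_iff₀ (by positivity)] at h1
    rw [div_le_iff₀ hsK]
    linarith
  obtain ⟨κ, hκ0, X₁, hX₁⟩ := pair_scale hK2 ht0 hB
  have hVW := VW_pos K
  have hWR : (0 : ℝ) < Wp K := by exact_mod_cast Wp_pos K
  obtain ⟨X₂, hX₂⟩ := window_mass K hK2 (δ₁ * δ / (4 * (V K * (Wp K : ℝ)))) (by positivity)
  obtain ⟨X₃, hX₃⟩ := mass_lower hα0 hδ₁0
  obtain ⟨X₇, hX₇⟩ := mass_lower hβ0 hδ₁0
  obtain ⟨X₄, hX₄⟩ : ∃ X₄ : ℕ, (∑ p ∈ pr K, Real.log p) / δ₁ ≤ X₄ := exists_nat_ge _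
  obtain ⟨X₅, hX₅⟩ : ∃ X₅ : ℕ, ∀ X : ℕ, X₅ ≤ X → Real.log X ^ 2 ≤ κ / 4 * X := by
    have h := (isLittleO_log_rpow_atTop (show (0 : ℝ) < 1 / 2 by norm_num)).tendsto_div_nhds_zero
    have h6 := (h.comp tendsto_natCast_atTop_atTop).eventually_lt_const
      (show (0 : ℝ) < Real.sqrt (κ / 4) by positivity)
    obtain ⟨N₀, hN₀⟩ := Filter.eventually_atTop.mp h6
    refine ⟨max N₀ 1, fun X hX => ?_⟩
    have h7 := hN₀ X ((le_max_left _ _).trans hX)
    have hX1 : (1 : ℝ) ≤ X := by exact_mod_cast (le_max_right _ _).trans hX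
    simp only [Function.comp] at h7
    rw [div_lt_iff₀ (by positivity)] at h7
    have h8 : 0 ≤ Real.log X := Real.log_nonneg hX1
    calc Real.log X ^ 2 ≤ (Real.sqrt (κ / 4) * (X : ℝ) ^ (1 / 2 : ℝ)) ^ 2 :=
          pow_le_pow_left₀ h8 h7.le 2
      _ = κ / 4 * X := by
          rw [mul_pow, Real.sq_sqrt (by positivity), ← Real.sqrt_eq_rpow,
            Real.sq_sqrt (by linarith)]
  obtain ⟨X₆, hX₆⟩ : ∃ X₆ : ℕ, 2 * (1 + X₃ + X₄) / δ ≤ (X₆ : ℝ) := exists_nat_ge _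
  refine ⟨δ, hδ0, hδ1, κ / 4, by positivity, max (max (max X₁ X₂) X₅) (max (max X₆ X₇) 3),
    fun X hX A B hA hcA hB' hcB => ?_⟩
  have hXa : X₁ ≤ X := (le_max_left _ _).trans ((le_max_left _ _).trans ((le_max_left _ _).trans hX))
  have hXb : X₂ ≤ X := (le_max_right _ _).trans ((le_max_left _ _).trans ((le_max_left _ _).trans hX))
  have hXc : X₅ ≤ X := (le_max_right _ _).trans ((le_max_left _ _).trans hX)
  have hXd : X₆ ≤ X := (le_max_left _ _).trans ((le_max_left _ _).trans ((le_max_right _ _).trans hX))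
  have hXe : X₇ ≤ X := (le_max_right _ _).trans ((le_max_left _ _).trans ((le_max_right _ _).trans hX))
  have hX3 : 3 ≤ X := (le_max_right _ _).trans ((le_max_right _ _).trans hX)
  have hXR : (3 : ℝ) ≤ X := by exact_mod_cast hX3
  obtain ⟨s, hs⟩ : ∃ s, s = ⌊δ * X⌋₊ := ⟨_, rfl⟩
  obtain ⟨Y, hY⟩ : ∃ Y, Y = 2 * X := ⟨_, rfl⟩
  have hYR : (Y : ℝ) = 2 * X := by rw [hY]; push_cast; ring
  have hs_le : (s : ℝ) ≤ δ * X := hs ▸ Nat.floor_le (by positivity)
  have hXδ : 2 * (1 + X₃ + X₄) ≤ δ * X := by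
    have h1 : 2 * (1 + X₃ + X₄) / δ ≤ (X : ℝ) := hX₆.trans (by exact_mod_cast hXd)
    rw [div_le_iff₀ hδ0] at h1
    linarith
  have hX₃0 : (0 : ℝ) ≤ X₃ := Nat.cast_nonneg _
  have hX₄0 : (0 : ℝ) ≤ X₄ := Nat.cast_nonneg _
  have hs_ge : δ * X / 2 ≤ s := by
    have h1 : δ * X < s + 1 := hs ▸ Nat.lt_floor_add_one _
    linarith
  have hsX₃ : X₃ ≤ s := by
    have : (X₃ : ℝ) ≤ s := by linarith
    exact_mod_cast this
  have hsX₄ : (X₄ : ℝ) ≤ s := by linarith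
  have hs0 : 0 < s := by
    have : (0 : ℝ) < s := by linarith
    exact_mod_cast this
  have hsX : s ≤ X := by
    have : (s : ℝ) ≤ X := hs_le.trans (mul_le_of_le_one_left (Nat.cast_nonneg _) hδ1)
    exact_mod_cast this
  have hsY : s ≤ Y := by omega
  have hXY : X ≤ Y := by omega
  have hY0 : (0 : ℝ) < Y := by rw [hYR]; linarith
  set W := Wp K with hW
  set R := RR K Y with hR
  have hRdef : R = Y / (V K * (W : ℝ)) := rfl
  have hR0 : 0 < R := by rw [hRdef, hYR]; positivity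
  have hAs : ∀ p ∈ A, p.Prime ∧ p ≤ s := fun p hp =>
    ⟨(hA p hp).1, hs ▸ Nat.le_floor (hA p hp).2⟩
  have herr : δ₁ * δ / (4 * (V K * (W : ℝ))) * Y = δ₁ * δ / 4 * R := by
    rw [hRdef]; field_simp
  have hlogs : ∑ p ∈ pr K, Real.log p ≤ δ₁ * s := by
    rw [div_le_iff₀ hδ₁0] at hX₄
    calc _ ≤ (X₄ : ℝ) * δ₁ := hX₄
      _ ≤ s * δ₁ := mul_le_mul_of_nonneg_right hsX₄ hδ₁0.le
      _ = _ := mul_comm _ _
  -- masses of the classes
  set F : ℕ → ℝ := fun u => ms (wt A) W u 0 s with hF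
  set Rs : ℝ := (s : ℝ) / (V K * (W : ℝ)) with hRs
  have hRs0 : 0 < Rs := by
    have : (0 : ℝ) < s := by exact_mod_cast hs0
    positivity
  have hRsR : δ / 4 * R ≤ Rs := by
    rw [hRs, hRdef, ← mul_div_assoc]
    apply div_le_div_of_nonneg_right _ hVW.le
    rw [hYR]; linarith
  have hFle : ∀ u ∈ un K, F u ≤ (1 + δ₁) * Rs := by
    intro u hu
    have hu' := mem_un.1 hu
    have h1 := hX₂ Y (hXb.trans hXY) 0 s u (Nat.zero_le _) hsY hu'.2
    rw [Nat.mod_eq_of_lt hu'.1, herr] at h1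
    have h2 := (abs_le.1 h1).2
    have h5 : F u ≤ ms lam W u 0 s := ms_le_lam (wt_le A) W u 0 s
    have h6 : ms lam W u 0 s = ∑ x ∈ (Finset.Ioc 0 s).filter (fun x => x % W = u), lam x := rfl
    rw [← h6] at h2
    have h7 : ((s : ℝ) - (0 : ℕ)) / (V K * (W : ℝ)) = Rs := by rw [hRs]; simp
    rw [h7] at h2
    have h8 : δ₁ * δ / 4 * R ≤ δ₁ * Rs := by
      calc δ₁ * δ / 4 * R = δ₁ * (δ / 4 * R) := by ring
        _ ≤ _ := mul_le_mul_of_nonneg_left hRsR hδ₁0.le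
    linarith
  have hFsum : ∑ p ∈ A, Real.log p - δ₁ * s ≤ ∑ u ∈ un K, F u := by
    have h1 := sum_classes (K := K) A hAs
    linarith
  have hlow := classes_lower (K := K) (α := α) hs0 hδ₁0 F hFle hFsum
    (hX₃ s hsX₃ A hAs (hs ▸ hcA))
  set S := (un K).filter (fun u => δ₁ * ((s : ℝ) / (V K * (Wp K : ℝ))) ≤ F u) with hS
  -- the second set
  have hBY : ∀ p ∈ B, p.Prime ∧ p ≤ Y := fun p hp => ⟨(hB' p hp).1, hY ▸ (hB' p hp).2⟩
  have hAY : ∀ p ∈ A, p.Prime ∧ p ≤ Y := fun p hp => ⟨(hAs p hp).1, (hAs p hp).2.trans hsY⟩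
  have hBsum := hX₇ Y (hXe.trans hXY) B hBY (hY ▸ hcB)
  have hBpart := sum_upper_part (K := K) (δ' := δ₁ * δ / 4) hsY B hBY hBsum (by
      refine hlogs.trans (mul_le_mul_of_nonneg_left ?_ hδ₁0.le)
      exact_mod_cast hsY) (by
      intro v hv
      have hv' := mem_un.1 hv
      have h3 := hX₂ Y (hXb.trans hXY) (Y - s) Y v (Nat.sub_le _ _) le_rfl hv'.2
      rw [Nat.mod_eq_of_lt hv'.1, herr] at h3
      have h4 := (abs_le.1 h3).2
      have h6 : ms lam W v (Y - s) Y =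
          ∑ x ∈ (Finset.Ioc (Y - s) Y).filter (fun x => x % W = v), lam x := rfl
      rw [← h6, Nat.cast_sub hsY, sub_sub_cancel] at h4
      have h7 : δ₁ * δ / 4 * R = δ₁ * δ / 4 * (Y / (V K * (Wp K : ℝ))) := rfl
      linarith)
  set b : ℕ → ℝ := fun v => ms (wt B) W v 0 (Y - s) / R with hb
  have hb0 : ∀ v, 0 ≤ b v := fun v => div_nonneg (ms_nonneg (wt_nonneg B) _ _ _ _) hR0.le
  have hbsum : (∑ v ∈ un K, b v) / (un K).card = (∑ v ∈ un K, ms (wt B) W v 0 (Y - s)) / Y := by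
    rw [hb, ← Finset.sum_div, card_un, div_div]
    congr 1
    rw [hRdef, div_mul_cancel₀ _ hVW.ne']
  have hβ' : β - η ≤ (∑ v ∈ un K, b v) / (un K).card := by
    rw [hbsum, le_div_iff₀ hY0]
    refine le_trans ?_ hBpart
    have h1 : (s : ℝ) ≤ δ₁ * Y := by
      rw [← hδ, hYR]
      linarith [mul_pos hδ0 (show (0 : ℝ) < X by linarith)]
    have h2 : δ₁ * δ / 4 * Y ≤ δ₁ * Y := by
      apply mul_le_mul_of_nonneg_right _ hY0.le
      have : δ₁ * δ ≤ δ₁ * 1 := mul_le_mul_of_nonneg_left hδ1 hδ₁0.le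
      linarith
    have h3 : (δ₁ * 4) * Y ≤ η * Y := by
      apply mul_le_mul_of_nonneg_right _ hY0.le
      have : 0 ≤ δ₁ * α := mul_nonneg hδ₁0.le hα0
      linarith
    linarith
  have hβ'0 : 0 ≤ (∑ v ∈ un K, b v) / (un K).card :=
    div_nonneg (Finset.sum_nonneg fun v _ => hb0 v) (Nat.cast_nonneg _)
  have hσ : α - η ≤ (S.card : ℝ) / (un K).card := by
    refine le_trans ?_ hlow
    have : α - (α - 3 * δ₁) / (1 + δ₁) = δ₁ * (α + 3) / (1 + δ₁) := by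
      field_simp; ring
    have h1 : δ₁ * (α + 3) / (1 + δ₁) ≤ δ₁ * (α + 3) :=
      div_le_self (by positivity) (by linarith)
    linarith
  have hσ0 : 0 ≤ (S.card : ℝ) / (un K).card := div_nonneg (Nat.cast_nonneg _) (Nat.cast_nonneg _)
  have hval := hη _ _ hσ hσ0 hβ' hβ'0
  -- popular sums
  set cnt : ℕ → ℕ := fun c => ((range (Y + 1)).filter (fun N => N % W = c ∧
    κ * Y ≤ cv (wt A) (wt B) N)).card with hcnt
  set M : ℕ → ℝ := fun c => if c % 2 = 0 then (W : ℝ) / Y * cnt c + ε / 2 else 0 with hM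
  have hM0 : ∀ c, 0 ≤ M c := by
    intro c
    simp only [hM]
    split_ifs
    · positivity
    · exact le_rfl
  have h2K : 2 ∈ pr K := mem_pr.2 ⟨hK2, Nat.prime_two⟩
  have h2W : 2 ∣ W := dvd_Wp h2K
  have hMb : ∀ u ∈ S, ∀ v ∈ un K, b v ≤ M ((u + v) % Wp K) := by
    intro u hu v hv
    rw [hS, Finset.mem_filter] at hu
    have hodd : (u + v) % Wp K % 2 = 0 := by
      rw [Nat.mod_mod_of_dvd _ h2W]
      have h4 := (mem_un.1 hu.1).2 2 h2K
      have h5 := (mem_un.1 hv).2 2 h2K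
      omega
    simp only [hM]
    rw [if_pos hodd]
    have h1 := hX₁ Y (hXa.trans hXY) s hsY (wt A) (wt B) (wt_nonneg A) (wt_le A) (wt_nonneg B)
      (wt_le B) u v (by
        calc t * RR K Y = δ₁ * (δ / 4 * R) := by rw [ht, ← hR]; ring
          _ ≤ δ₁ * Rs := mul_le_mul_of_nonneg_left hRsR hδ₁0.le
          _ ≤ _ := hu.2)
    have h2 : (Y : ℝ) / W * (b v - ε / 2) ≤ cnt ((u + v) % W) := h1
    have h3 : (W : ℝ) / Y * ((Y : ℝ) / W * (b v - ε / 2)) ≤ (W : ℝ) / Y * cnt ((u + v) % W) :=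
      mul_le_mul_of_nonneg_left h2 (by positivity)
    have h4 : (W : ℝ) / Y * ((Y : ℝ) / W * (b v - ε / 2)) = b v - ε / 2 := by
      field_simp
    linarith
  have hloc := locF_un hK2 hq S (Finset.filter_subset _ _) b M hb0 hMb hM0
  rw [CC_eq hq (by omega) hσ0] at hloc
  have hMsum : ∑ c ∈ range (Wp K), M c ≤ (W : ℝ) / Y *
      (∑ c ∈ (range W).filter (fun c => c % 2 = 0), (cnt c : ℝ)) + ε / 2 * ((W : ℝ) / 2) := by
    have h1 : ∑ c ∈ range (Wp K), M c =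
        ∑ c ∈ (range W).filter (fun c => c % 2 = 0), ((W : ℝ) / Y * cnt c + ε / 2) := by
      rw [Finset.sum_filter]
    rw [h1, Finset.sum_add_distrib, ← Finset.mul_sum, Finset.sum_const, nsmul_eq_mul]
    have h2 := card_even_range h2W
    have h3 := mul_le_mul_of_nonneg_right h2 (show 0 ≤ ε / 2 by positivity)
    linarith
  have hmain := fin2 hY0 hWR (hloc.trans hMsum) (L := β * G2 q α - ε / 2) (by linarith)
  have hmain' : (β * G2 q α - ε) * X ≤
      ∑ c ∈ (range W).filter (fun c => c % 2 = 0), (cnt c : ℝ) := by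
    refine le_trans (le_of_eq ?_) hmain
    rw [hYR]
    ring
  -- total
  have htot : ∑ c ∈ (range W).filter (fun c => c % 2 = 0), cnt c ≤
      ((range (Y + 1)).filter (fun N => N % 2 = 0 ∧ κ * Y ≤ cv (wt A) (wt B) N)).card := by
    rw [hcnt, ← Finset.card_biUnion]
    · apply Finset.card_le_card
      intro N hN
      rw [Finset.mem_biUnion] at hN
      obtain ⟨c, hc, hN⟩ := hN
      rw [Finset.mem_filter] at hc hN ⊢
      refine ⟨hN.1, ?_, hN.2.2⟩
      rw [← Nat.mod_mod_of_dvd N h2W, hN.2.1]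
      exact hc.2
    · intro c _ c' _ hcc'
      rw [Function.onFun, Finset.disjoint_left]
      intro N hN hN'
      rw [Finset.mem_filter] at hN hN'
      exact hcc' (hN.2.1.symm.trans hN'.2.1)
  refine hmain'.trans ?_
  rw [← Nat.cast_sum]
  have hP0 : ¬ (κ * Y ≤ cv (wt A) (wt B) 0) := by
    have : cv (wt A) (wt B) 0 = 0 := by
      by_contra hne
      obtain ⟨x, hx, h1, _⟩ := cv_ne hne
      have hx0 : x = 0 := by omega
      subst hx0
      apply h1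
      unfold wt lam
      split_ifs with h2 h3
      · exact absurd h3 Nat.not_prime_zero
      · rfl
      · rfl
    rw [this]
    have : 0 < κ * (Y : ℝ) := mul_pos hκ0 hY0
    linarith
  have hev := count_even (X := X) (P := fun N => κ * Y ≤ cv (wt A) (wt B) N) hP0
  rw [← hY] at hev
  refine (Nat.cast_le.mpr (htot.trans (hev.trans (Finset.card_le_card ?_))))
  intro n hn
  rw [Finset.mem_filter] at hn ⊢
  refine ⟨hn.1, ?_⟩
  have h9 := hn.2.trans (cv_le_card (by omega : 1 ≤ Y) A B hAY hBY (2 * n))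
  have hlogX : 0 < Real.log X := Real.log_pos (by linarith)
  have hlogY : Real.log Y ≤ 2 * Real.log X := by
    rw [hYR, Real.log_mul (by norm_num) (by linarith)]
    have : Real.log 2 ≤ Real.log X := Real.log_le_log (by norm_num) (by linarith)
    linarith
  have hlogY0 : 0 ≤ Real.log Y := by
    apply Real.log_nonneg; rw [hYR]; linarith
  have hlogY2 : Real.log Y ^ 2 ≤ 4 * Real.log X ^ 2 := by
    calc Real.log Y ^ 2 ≤ (2 * Real.log X) ^ 2 := pow_le_pow_left₀ hlogY0 hlogY 2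
      _ = _ := by ring
  generalize (((A ×ˢ B).filter (fun x => x.1 ≠ x.2 ∧ x.1 + x.2 = 2 * n)).card : ℝ) = m at h9
  have h11 := hX₅ X hXc
  rw [div_le_iff₀ (by positivity)]
  have hm1 : 0 ≤ m + 1 := by
    by_contra! hc
    have h13 : Real.log Y ^ 2 * (m + 1) ≤ 0 :=
      mul_nonpos_of_nonneg_of_nonpos (sq_nonneg _) hc.le
    have h14 : 0 < κ * (Y : ℝ) := mul_pos hκ0 hY0
    exact absurd (h14.trans_le h9) (not_lt.mpr h13)
  have h10 : κ * Y ≤ 4 * Real.log X ^ 2 * (m + 1) :=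
    h9.trans (mul_le_mul_of_nonneg_right hlogY2 hm1)
  rw [hYR] at h10
  exact aux_fin h10 h11

end Pool.Agent.Lib.MP_7b7e48_nt.LX
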