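import Pool.Agent.Lib.MP_7b7e48_nt.LX.Ring
import Pool.Agent.Lib.MP_7b7e48_nt.SP.Loc

/-!
# MP_7b7e48_nt : the local theorem modulo a primorial (helper81)
-/

namespace Pool.Agent.Lib.MP_7b7e48_nt.LX

open Finset Pool.Agent.Lib.GT Pool.Agent.Lib.GT.LA Pool.Agent.Lib.GT.Robust
open Pool.Agent.Lib.MP_7b7e48_nt.SP

theorem ok_of_pairwise : ∀ (L : List ℕ) (m : ℕ), (∀ q ∈ L, m ≤ q) → L.Pairwise (· < ·) → Ok m L
  | [], _, _, _ => trivial
  | p :: L, m, h, hp => by
    rw [List.pairwise_cons] at hp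
    exact ⟨h p (by simp), ok_of_pairwise L p (fun q hq => (hp.1 q hq).le) hp.2⟩

theorem ok_ol (n : ℕ) : Ok 3 (ol n) := by
  apply ok_of_pairwise _ _ _ (ol_pairwise n)
  intro q hq
  rw [mem_ol] at hq
  exact prime_three hq.2.1 hq.2.2

theorem nice_ol (n : ℕ) : Nice 2 (lexG (ol n)) := by
  have := nice_lexG (ol n) 3 le_rfl (ok_ol n)
  norm_num at this
  exact this

theorem Wp_eq_nat {K : ℕ} (hK : 2 ≤ K) : Wp K = 2 * (ol (K + 1)).prod := by
  have := Wp_eq hK
  exact_mod_cast this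

theorem locP_two' {R : Type} [CommRing R] [Fintype R] {L : List ℕ} (h : LocP R L) :
    LocP (ZMod 2 × R) (2 :: L) := by
  intro S hS
  have key := locP_two h S hS
  have hle : (S.card : ℝ) / ((unitsF (ZMod 2 × R)).card : ℝ) ≤ 1 := by
    have h0 : (0 : ℝ) < (unitsF (ZMod 2 × R)).card := by exact_mod_cast unitsF_pos _
    rw [div_le_one h0]
    exact_mod_cast Finset.card_le_card fun s hs => mem_unitsF.mpr (hS s hs)
  have e : lexG (2 :: L) ((S.card : ℝ) / ((unitsF (ZMod 2 × R)).card : ℝ)) =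
      1 / 2 * lexG L ((S.card : ℝ) / ((unitsF (ZMod 2 × R)).card : ℝ)) := by
    show (if _ then _ else _) = _
    have h1 : (((2 : ℕ) : ℝ) - 1) = 1 := by norm_num
    rw [h1, one_mul, if_pos hle]
    norm_num
  rw [e]
  have hc : (Fintype.card (ZMod 2 × R) : ℝ) = 2 * Fintype.card R := by
    rw [Fintype.card_prod, ZMod.card]; push_cast; ring
  rw [hc]
  linarith

theorem locP_Wp {K : ℕ} (hK : 2 ≤ K) (inst : Fintype (ZMod (Wp K))) :
    @LocP (ZMod (Wp K)) _ inst (2 :: ol (K + 1)) := by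
  have hpr : ∀ p ∈ ol (K + 1), p.Prime := fun p hp => ((mem_ol.mp hp).2).1
  have hne : (ol (K + 1)).prod ≠ 0 := by
    rw [Ne, List.prod_eq_zero_iff]
    intro h0
    exact Nat.not_prime_zero (hpr 0 h0)
  have : NeZero (ol (K + 1)).prod := ⟨hne⟩
  have key := locP_two' (locP_zmod (ol (K + 1)) 3 le_rfl (ok_ol _) hpr
    ((ol_pairwise _).imp fun h => ne_of_lt h) inferInstance)
  have hcop : Nat.Coprime 2 (ol (K + 1)).prod := by
    rw [Nat.coprime_list_prod_right_iff]
    intro q hq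
    rw [mem_ol] at hq
    rw [Nat.coprime_primes Nat.prime_two hq.2.1]
    exact fun h => hq.2.2 h.symm
  have e : ZMod 2 × ZMod (ol (K + 1)).prod ≃+* ZMod (Wp K) :=
    (ZMod.chineseRemainder hcop).symm.trans (ZMod.ringEquivCongr (Wp_eq_nat hK).symm)
  exact key.of_equiv e

theorem mem_un_coprime {K u : ℕ} : u ∈ un K ↔ u < Wp K ∧ Nat.Coprime u (Wp K) := by
  rw [mem_un]
  refine and_congr_right fun _ => ?_
  unfold Wp
  rw [Nat.coprime_prod_right_iff]
  refine forall₂_congr fun p hp => ?_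
  have hpp : p.Prime := (Pool.Agent.Lib.GT.LA.mem_pr.1 hp).2
  rw [Nat.coprime_comm, Nat.Prime.coprime_iff_not_dvd hpp, Nat.dvd_iff_mod_eq_zero]

theorem card_unitsF_Wp {K : ℕ} (inst : Fintype (ZMod (Wp K))) :
    (@unitsF (ZMod (Wp K)) _ inst).card = (un K).card := by
  have : NeZero (Wp K) := ⟨(Wp_pos K).ne'⟩
  apply Finset.card_bij (fun x _ => ZMod.val x)
  · intro x hx
    rw [mem_unitsF] at hx
    rw [mem_un_coprime]
    refine ⟨ZMod.val_lt x, ?_⟩
    rw [← ZMod.isUnit_iff_coprime, ZMod.natCast_zmod_val]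
    exact hx
  · intro x _ y _ h
    exact ZMod.val_injective _ h
  · intro u hu
    rw [mem_un_coprime] at hu
    refine ⟨(u : ZMod (Wp K)), ?_, ?_⟩
    · rw [mem_unitsF, ZMod.isUnit_iff_coprime]
      exact hu.2
    · rw [ZMod.val_natCast, Nat.mod_eq_of_lt hu.1]

/-- **The local theorem** for residue classes modulo a primorial. -/
theorem loc_un {K : ℕ} (hK : 2 ≤ K) (S : Finset ℕ) (hS : S ⊆ un K) :
    (Wp K : ℝ) / 2 * lexG (ol (K + 1)) ((S.card : ℝ) / (un K).card) ≤
      (((range (Wp K)).filter (fun c => ∃ u ∈ S, ∃ v ∈ un K, (u + v) % Wp K = c)).card : ℝ) := by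
  classical
  have : NeZero (Wp K) := ⟨(Wp_pos K).ne'⟩
  set T : Finset (ZMod (Wp K)) := S.image (fun u : ℕ => (u : ZMod (Wp K))) with hT
  have hTu : ∀ s ∈ T, IsUnit s := by
    intro s hs
    rw [hT, Finset.mem_image] at hs
    obtain ⟨u, hu, rfl⟩ := hs
    rw [ZMod.isUnit_iff_coprime]
    exact (mem_un_coprime.mp (hS hu)).2
  have key := locP_Wp hK inferInstance T hTu
  have hcT : T.card = S.card := by
    rw [hT]
    apply Finset.card_image_of_injOn
    intro a ha b hb hab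
    have h1 := (mem_un_coprime.mp (hS ha)).1
    have h2 := (mem_un_coprime.mp (hS hb)).1
    have h3 : (a : ZMod (Wp K)) = b := hab
    rw [ZMod.natCast_eq_natCast_iff', Nat.mod_eq_of_lt h1, Nat.mod_eq_of_lt h2] at h3
    exact h3
  rw [hcT, card_unitsF_Wp, ZMod.card] at key
  have hun0 : (0 : ℝ) < (un K).card := by
    rw [← card_unitsF_Wp inferInstance]
    exact_mod_cast unitsF_pos _
  have hle : (S.card : ℝ) / ((un K).card : ℝ) ≤ 1 := by
    rw [div_le_one hun0]
    exact_mod_cast Finset.card_le_card hS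
  have e : lexG (2 :: ol (K + 1)) ((S.card : ℝ) / ((un K).card : ℝ)) =
      1 / 2 * lexG (ol (K + 1)) ((S.card : ℝ) / ((un K).card : ℝ)) := by
    show (if _ then _ else _) = _
    have h1 : (((2 : ℕ) : ℝ) - 1) = 1 := by norm_num
    rw [h1, one_mul, if_pos hle]
    norm_num
  rw [e] at key
  have hfin : (nbh T).card ≤
      ((range (Wp K)).filter (fun c => ∃ u ∈ S, ∃ v ∈ un K, (u + v) % Wp K = c)).card := by
    apply Finset.card_le_card_of_injOn (fun x => ZMod.val x)
    · intro z hz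
      have hz' := mem_nbh.mp (Finset.mem_coe.mp hz)
      obtain ⟨s, hs, hzs⟩ := hz'
      rw [hT, Finset.mem_image] at hs
      obtain ⟨u, hu, rfl⟩ := hs
      rw [Finset.mem_coe, Finset.mem_filter, Finset.mem_range]
      refine ⟨ZMod.val_lt z, u, hu, (z - u : ZMod (Wp K)).val, ?_, ?_⟩
      · rw [mem_un_coprime]
        refine ⟨ZMod.val_lt _, ?_⟩
        rw [← ZMod.isUnit_iff_coprime, ZMod.natCast_zmod_val]
        exact hzs
      · rw [← ZMod.val_natCast]
        push_cast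
        rw [ZMod.natCast_zmod_val]
        congr 1
        ring
    · intro x _ y _ h
      exact ZMod.val_injective _ h
  have hfin' : ((nbh T).card : ℝ) ≤ _ := Nat.cast_le.mpr hfin
  linarith

end Pool.Agent.Lib.MP_7b7e48_nt.LX
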