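import Mathlib

/-!
# MP_7b7e48_nt : the real inequalities for two dense summands (helper81)
-/

namespace Pool.Agent.Lib.MP_7b7e48_nt.LX

open Finset

/-- `1 + t + ... + t ^ (n - 1)` -/
noncomputable def geo (n : ℕ) (t : ℝ) : ℝ := ∑ i ∈ range n, t ^ i

theorem geo_succ (n : ℕ) (t : ℝ) : geo (n + 1) t = geo n t + t ^ n := by
  unfold geo; rw [Finset.sum_range_succ]

theorem geo_nonneg {n : ℕ} {t : ℝ} (ht : 0 ≤ t) : 0 ≤ geo n t :=
  Finset.sum_nonneg fun i _ => pow_nonneg ht i

theorem geo_one_le {n : ℕ} (hn : 1 ≤ n) {t : ℝ} (ht : 0 ≤ t) : 1 ≤ geo n t := by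
  obtain ⟨k, rfl⟩ : ∃ k, n = k + 1 := ⟨n - 1, by omega⟩
  unfold geo
  rw [Finset.sum_range_succ']
  have : 0 ≤ ∑ i ∈ range k, t ^ (i + 1) := Finset.sum_nonneg fun i _ => pow_nonneg ht _
  simp only [pow_zero]
  linarith

theorem geo_mono {n m : ℕ} (h : n ≤ m) {t : ℝ} (ht : 0 ≤ t) : geo n t ≤ geo m t := by
  unfold geo
  exact Finset.sum_le_sum_of_subset_of_nonneg (Finset.range_mono h) fun i _ _ => pow_nonneg ht i

/-- the increment `t ^ n / (1 + t + ... + t ^ (n-1))` -/
noncomputable def inc (n : ℕ) (t : ℝ) : ℝ := t ^ n / geo n t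

theorem inc_nonneg {n : ℕ} {t : ℝ} (ht : 0 ≤ t) : 0 ≤ inc n t :=
  div_nonneg (pow_nonneg ht n) (geo_nonneg ht)

/-- **Telescoping weights.** -/
theorem seq_ineq {n : ℕ} (hn : 1 ≤ n) {t : ℝ} (ht0 : 0 ≤ t) (ht1 : t ≤ 1) (g m : ℕ → ℝ)
    (hm1 : ∀ k, k < n → g (k + 1) ≤ m (k + 1))
    (hm2 : ∀ k, k ≤ n → t * g k ≤ m (k + 1)) :
    (1 + inc n t) * ∑ k ∈ range n, g (k + 1) ≤ ∑ k ∈ range (n + 1), m (k + 1) := by
  have hG := geo_one_le hn ht0
  have hG0 : 0 < geo n t := by linarith
  set ν : ℕ → ℝ := fun j => t ^ (n - j) * geo j t / geo n t with hν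
  have hν0 : ν 0 = 0 := by simp [hν, geo]
  have hνn : ν n = 1 := by
    simp only [hν, Nat.sub_self, pow_zero, one_mul]
    exact div_self hG0.ne'
  have hνnn : ∀ j, 0 ≤ ν j := fun j => by
    simp only [hν]
    exact div_nonneg (mul_nonneg (pow_nonneg ht0 _) (geo_nonneg ht0)) hG0.le
  have hν1 : ∀ j, j ≤ n → ν j ≤ 1 := fun j hj => by
    simp only [hν]
    rw [div_le_one hG0]
    calc t ^ (n - j) * geo j t ≤ 1 * geo n t :=
          mul_le_mul (pow_le_one₀ ht0 ht1) (geo_mono hj ht0) (geo_nonneg ht0) zero_le_one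
      _ = _ := one_mul _
  have hrec : ∀ j, j < n → t * ν (j + 1) = ν j + inc n t := fun j hj => by
    simp only [hν, inc]
    rw [← mul_div_assoc, ← add_div]
    congr 1
    rw [geo_succ]
    have h1 : n - j = (n - (j + 1)) + 1 := by omega
    have h2 : t ^ n = t ^ (n - j) * t ^ j := by rw [← pow_add]; congr 1; omega
    rw [h2, h1, pow_succ]
    ring
  have key : ∀ j ∈ range (n + 1), (1 - ν j) * g (j + 1) + ν j * (t * g j) ≤ m (j + 1) := by
    intro j hj
    rw [Finset.mem_range] at hj
    have h2 := hm2 j (by omega)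
    rcases Nat.lt_or_ge j n with h | h
    · have h1 := hm1 j h
      have h3 := hνnn j
      have h4 := hν1 j h.le
      calc (1 - ν j) * g (j + 1) + ν j * (t * g j) ≤ (1 - ν j) * m (j + 1) + ν j * m (j + 1) :=
            add_le_add (mul_le_mul_of_nonneg_left h1 (by linarith))
              (mul_le_mul_of_nonneg_left h2 h3)
        _ = _ := by ring
    · have : j = n := by omega
      subst this
      rw [hνn, sub_self, zero_mul, zero_add, one_mul]
      exact h2
  refine le_trans (le_of_eq ?_) (Finset.sum_le_sum key)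
  rw [Finset.sum_add_distrib, Finset.sum_range_succ (fun j => (1 - ν j) * g (j + 1)),
    Finset.sum_range_succ' (fun j => ν j * (t * g j)), hνn, hν0, sub_self, zero_mul, zero_mul,
    add_zero, add_zero, ← Finset.sum_add_distrib, Finset.mul_sum]
  refine Finset.sum_congr rfl fun j hj => ?_
  rw [Finset.mem_range] at hj
  have := hrec j hj
  linear_combination (-g (j + 1)) * this

/-- the exponent `s` is admissible for `n = p - 1` -/
def Adm (n : ℕ) (s : ℝ) : Prop :=
  ∀ t : ℝ, 0 ≤ t → t ≤ 1 → 1 + ((n : ℝ) - 1) * t ^ s ≤ (1 + inc n t) ^ s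

/-- the exponential inequality -/
theorem exp_ineq {a x lam : ℝ} (ha : 0 < a) (hx : 0 ≤ x)
    (hlam : a * Real.exp a ≤ lam * (Real.exp a - 1)) :
    (Real.exp a - 1) * Real.exp (-(lam * x)) ≤ Real.exp (a * Real.exp (-x)) - 1 := by
  set f : ℝ → ℝ := fun x => Real.exp (lam * x) * (Real.exp (a * Real.exp (-x)) - 1) with hf
  have hd : ∀ x, HasDerivAt f (Real.exp (lam * x) * (lam * (Real.exp (a * Real.exp (-x)) - 1) -
      a * Real.exp (-x) * Real.exp (a * Real.exp (-x)))) x := by
    intro x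
    have h1 : HasDerivAt (fun x => Real.exp (lam * x)) (Real.exp (lam * x) * (lam * 1)) x :=
      ((hasDerivAt_id x).const_mul lam).exp
    have h2 : HasDerivAt (fun x : ℝ => Real.exp (-x)) (Real.exp (-x) * (-1)) x :=
      ((hasDerivAt_id x).neg).exp
    have h3 : HasDerivAt (fun x : ℝ => Real.exp (a * Real.exp (-x)) - 1)
        (Real.exp (a * Real.exp (-x)) * (a * (Real.exp (-x) * (-1)))) x :=
      ((h2.const_mul a).exp).sub_const 1
    have h4 := h1.mul h3
    refine h4.congr_deriv ?_
    ring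
  have hmono : MonotoneOn f (Set.Ici 0) := by
    apply monotoneOn_of_deriv_nonneg (convex_Ici 0)
    · exact fun x _ => (hd x).continuousAt.continuousWithinAt
    · exact fun x _ => (hd x).differentiableAt.differentiableWithinAt
    · intro x hx
      rw [interior_Ici, Set.mem_Ioi] at hx
      rw [(hd x).deriv]
      apply mul_nonneg (Real.exp_nonneg _)
      set y := a * Real.exp (-x) with hy
      have hy0 : 0 < y := by positivity
      have hya : y ≤ a := by
        rw [hy]
        have : Real.exp (-x) ≤ 1 := Real.exp_le_one_iff.mpr (by linarith)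
        nlinarith
      -- convexity: `exp (-y) ≤ 1 - (y / a) (1 - exp (-a))`
      have hconv : Real.exp (-y) ≤ 1 - y / a * (1 - Real.exp (-a)) := by
        have h1 := convexOn_exp.2 (Set.mem_univ (0 : ℝ)) (Set.mem_univ (-a))
          (show 0 ≤ 1 - y / a by rw [sub_nonneg, div_le_one ha]; exact hya)
          (show 0 ≤ y / a by positivity) (by ring)
        simp only [smul_eq_mul, mul_zero, zero_add, Real.exp_zero, mul_one] at h1
        have h2 : y / a * -a = -y := by field_simp
        rw [h2] at h1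
        linarith
      have hE : 0 < Real.exp y := Real.exp_pos y
      have hEa : 0 < Real.exp a := Real.exp_pos a
      have h1 : Real.exp y * Real.exp (-y) = 1 := by rw [← Real.exp_add]; simp
      have h2 : Real.exp a * Real.exp (-a) = 1 := by rw [← Real.exp_add]; simp
      -- y (1 - exp(-a)) ≤ a (1 - exp (-y))
      have h3 : y * (1 - Real.exp (-a)) ≤ a * (1 - Real.exp (-y)) := by
        have h4 : y / a * (1 - Real.exp (-a)) * a = y * (1 - Real.exp (-a)) := by field_simp
        nlinarith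
      -- a ≤ lam (1 - exp (-a))
      have h5 : a ≤ lam * (1 - Real.exp (-a)) := by
        have h6 : a * Real.exp a * Real.exp (-a) ≤ lam * (Real.exp a - 1) * Real.exp (-a) :=
          mul_le_mul_of_nonneg_right hlam (Real.exp_pos _).le
        have h7 : a * Real.exp a * Real.exp (-a) = a := by rw [mul_assoc, h2, mul_one]
        have h8 : lam * (Real.exp a - 1) * Real.exp (-a) = lam * (1 - Real.exp (-a)) := by
          rw [mul_assoc, sub_mul, h2, one_mul]
        linarith
      have h9 : 0 < 1 - Real.exp (-a) := by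
        have : Real.exp (-a) < 1 := by
          rw [← Real.exp_zero]
          exact Real.exp_lt_exp.mpr (by linarith)
        linarith
      have h10 : 0 ≤ 1 - Real.exp (-y) := by
        have : Real.exp (-y) ≤ 1 := Real.exp_le_one_iff.mpr (by linarith)
        linarith
      -- y ≤ lam (1 - exp (-y))
      have h11 : y ≤ lam * (1 - Real.exp (-y)) := by
        have h12 : y * (1 - Real.exp (-a)) ≤ lam * (1 - Real.exp (-y)) * (1 - Real.exp (-a)) := by
          calc y * (1 - Real.exp (-a)) ≤ a * (1 - Real.exp (-y)) := h3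
            _ ≤ lam * (1 - Real.exp (-a)) * (1 - Real.exp (-y)) :=
                mul_le_mul_of_nonneg_right h5 h10
            _ = _ := by ring
        exact le_of_mul_le_mul_right h12 h9
      have h13 : y * Real.exp y ≤ lam * (1 - Real.exp (-y)) * Real.exp y :=
        mul_le_mul_of_nonneg_right h11 hE.le
      have h14 : lam * (1 - Real.exp (-y)) * Real.exp y = lam * (Real.exp y - 1) := by
        rw [mul_assoc, sub_mul, one_mul, mul_comm (Real.exp (-y)), h1]
      linarith
  have h := hmono (Set.mem_Ici.mpr le_rfl) (Set.mem_Ici.mpr hx) hx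
  simp only [hf, mul_zero, Real.exp_zero, neg_zero, mul_one, one_mul] at h
  have h1 := mul_le_mul_of_nonneg_right h (Real.exp_nonneg (-(lam * x)))
  have h2 : Real.exp (lam * x) * (Real.exp (a * Real.exp (-x)) - 1) * Real.exp (-(lam * x)) =
      Real.exp (a * Real.exp (-x)) - 1 := by
    rw [mul_comm (Real.exp (lam * x)), mul_assoc, ← Real.exp_add]
    simp
  rw [h2] at h1
  exact h1

theorem geo_le_two {n : ℕ} {t : ℝ} (ht0 : 0 ≤ t) (ht : t ≤ 1 / 2) : geo n t ≤ 2 := by
  have h : ∀ n, geo n t ≤ 2 - (1 / 2) ^ n * 2 := by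
    intro n
    induction n with
    | zero => simp [geo]
    | succ n ih =>
      rw [geo_succ]
      have : t ^ n ≤ (1 / 2) ^ n := pow_le_pow_left₀ ht0 ht n
      rw [pow_succ]
      linarith
  have := h n
  have h2 : (0 : ℝ) ≤ (1 / 2) ^ n := by positivity
  linarith

theorem geo_le {n : ℕ} (hn : 4 ≤ n) {t : ℝ} (ht : 1 / 2 ≤ t) (ht1 : t ≤ 1) :
    geo n t ≤ n * t := by
  induction n, hn using Nat.le_induction with
  | base =>
    have : geo 4 t = 1 + t + t ^ 2 + t ^ 3 := by
      simp [geo, Finset.sum_range_succ]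
    rw [this]
    push_cast
    nlinarith [mul_nonneg (sub_nonneg.mpr ht1) (show 0 ≤ t ^ 2 + 2 * t - 1 by nlinarith)]
  | succ n hn ih =>
    rw [geo_succ]
    have h1 : t ^ n ≤ t := by
      calc t ^ n ≤ t ^ 1 := pow_le_pow_of_le_one (by linarith) ht1 (by omega)
        _ = t := pow_one t
    push_cast
    linarith

/-- the exponent of the prime `n + 1` -/
noncomputable def ownS (n : ℕ) : ℝ := Real.log n / Real.log (1 + 1 / (n : ℝ))

theorem log_one_add_pos {n : ℕ} (hn : 1 ≤ n) : 0 < Real.log (1 + 1 / (n : ℝ)) := by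
  apply Real.log_pos
  have : (0 : ℝ) < n := by exact_mod_cast hn
  have : 0 < 1 / (n : ℝ) := by positivity
  linarith

theorem log_one_add_le {n : ℕ} (hn : 1 ≤ n) : Real.log (1 + 1 / (n : ℝ)) ≤ 1 / n := by
  have : (0 : ℝ) < n := by exact_mod_cast hn
  have h := Real.log_le_sub_one_of_pos (show 0 < 1 + 1 / (n : ℝ) by positivity)
  linarith

theorem ownS_ge {n : ℕ} (hn : 1 ≤ n) : (n : ℝ) * Real.log n ≤ ownS n := by
  have h0 : (0 : ℝ) < n := by exact_mod_cast hn
  have h1 := log_one_add_pos hn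
  have h2 := log_one_add_le hn
  have h3 : 0 ≤ Real.log n := Real.log_natCast_nonneg n
  unfold ownS
  rw [le_div_iff₀ h1]
  calc (n : ℝ) * Real.log n * Real.log (1 + 1 / (n : ℝ)) ≤ n * Real.log n * (1 / n) :=
        mul_le_mul_of_nonneg_left h2 (by positivity)
    _ = Real.log n := by field_simp

theorem ownS_rpow {n : ℕ} (hn : 1 ≤ n) : (1 + 1 / (n : ℝ)) ^ ownS n = n := by
  have h0 : (0 : ℝ) < n := by exact_mod_cast hn
  have h1 := log_one_add_pos hn
  rw [Real.rpow_def_of_pos (by positivity)]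
  unfold ownS
  rw [mul_div_cancel₀ _ h1.ne', Real.exp_log h0]

theorem log_four : 5 / 4 < Real.log 4 := by
  have : Real.log 4 = 2 * Real.log 2 := by
    rw [show (4 : ℝ) = 2 ^ 2 by norm_num, Real.log_pow]; norm_num
  rw [this]
  have := Real.log_two_gt_d9
  linarith

theorem ownS_ge' {n : ℕ} (hn : 4 ≤ n) : (n : ℝ) + 1 ≤ ownS n := by
  have h0 : (4 : ℝ) ≤ n := by exact_mod_cast hn
  have h1 := ownS_ge (by omega : 1 ≤ n)
  have h2 : Real.log 4 ≤ Real.log n := Real.log_le_log (by norm_num) h0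
  have h3 := log_four
  nlinarith

theorem adm_own {n : ℕ} (hn : 4 ≤ n) : Adm n (ownS n) := by
  intro t ht0 ht1
  have hn4 : (4 : ℝ) ≤ n := by exact_mod_cast hn
  have hs := ownS_ge' hn
  set s := ownS n with hsdef
  have hs1 : 1 ≤ s := by linarith
  have hinc := inc_nonneg (n := n) ht0
  have hG := geo_one_le (by omega : 1 ≤ n) ht0
  rcases le_or_gt t (1 / 2) with ht | ht
  · -- small `t`
    have h1 : 1 + s * inc n t ≤ (1 + inc n t) ^ s :=
      one_add_mul_self_le_rpow_one_add (by linarith) hs1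
    have h2 : t ^ n / 2 ≤ inc n t := by
      unfold inc
      apply div_le_div_of_nonneg_left (pow_nonneg ht0 n) (by linarith) (geo_le_two ht0 ht)
    have h3 : t ^ s ≤ t ^ n / 2 := by
      rcases eq_or_lt_of_le ht0 with h0 | h0
      · rw [← h0, Real.zero_rpow (by linarith), zero_pow (by omega)]; norm_num
      · calc t ^ s ≤ t ^ ((n : ℝ) + 1) := Real.rpow_le_rpow_of_exponent_ge h0 ht1 hs
          _ = t ^ n * t := by rw [Real.rpow_add h0, Real.rpow_one, Real.rpow_natCast]
          _ ≤ t ^ n * (1 / 2) := mul_le_mul_of_nonneg_left ht (pow_nonneg ht0 n)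
          _ = _ := by ring
    have h4 : 0 ≤ t ^ n / 2 := by positivity
    have h5 : 0 ≤ t ^ s := Real.rpow_nonneg ht0 s
    nlinarith
  · -- large `t`
    have ht0' : 0 < t := by linarith
    have hn0 : (0 : ℝ) < n := by linarith
    set v : ℝ := t ^ (n - 1) with hv
    have hv0 : 0 ≤ v := pow_nonneg ht0 _
    have hv0' : 0 < v := pow_pos ht0' _
    have hv1 : v ≤ 1 := pow_le_one₀ ht0 ht1
    have hh : v / n ≤ inc n t := by
      unfold inc
      rw [div_le_div_iff₀ hn0 (by linarith)]
      have h1 := geo_le hn ht.le ht1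
      calc v * geo n t ≤ v * (n * t) := mul_le_mul_of_nonneg_left h1 hv0
        _ = t ^ n * n := by
            rw [hv]
            have : t ^ n = t ^ (n - 1) * t := by rw [← pow_succ]; congr 1; omega
            rw [this]; ring
    have h1 : (1 + 1 / (n : ℝ)) ^ v ≤ 1 + v * (1 / n) :=
      rpow_one_add_le_one_add_mul_self (by
        have : 0 < 1 / (n : ℝ) := by positivity
        linarith) hv0 hv1
    have h2 : (1 + 1 / (n : ℝ)) ^ v ≤ 1 + inc n t := by
      have : v * (1 / n) = v / n := by ring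
      linarith
    have h3 : (n : ℝ) ^ v ≤ (1 + inc n t) ^ s := by
      calc (n : ℝ) ^ v = ((1 + 1 / (n : ℝ)) ^ s) ^ v := by rw [hsdef, ownS_rpow (by omega)]
        _ = ((1 + 1 / (n : ℝ)) ^ v) ^ s := by
            rw [← Real.rpow_mul (by positivity), ← Real.rpow_mul (by positivity), mul_comm]
        _ ≤ _ := Real.rpow_le_rpow (by positivity) h2 (by linarith)
    refine le_trans ?_ h3
    -- exponential inequality
    have ha : 0 < Real.log n := Real.log_pos (by linarith)
    have hea : Real.exp (Real.log n) = n := Real.exp_log hn0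
    set x := -Real.log v with hx
    have hx0 : 0 ≤ x := by
      have := Real.log_nonpos hv0 hv1
      rw [hx]; linarith
    have hex : Real.exp (-x) = v := by rw [hx, neg_neg, Real.exp_log hv0']
    have hn1 : (0 : ℝ) < (n : ℝ) - 1 := by linarith
    have hlam : Real.log n * Real.exp (Real.log n) ≤
        s / ((n : ℝ) - 1) * (Real.exp (Real.log n) - 1) := by
      rw [hea, div_mul_cancel₀ _ hn1.ne', mul_comm]
      exact ownS_ge (by omega)
    have key := exp_ineq ha hx0 hlam
    rw [hea, hex] at key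
    have e1 : Real.exp (Real.log n * v) = (n : ℝ) ^ v := by rw [Real.rpow_def_of_pos hn0]
    have e2 : Real.exp (-(s / ((n : ℝ) - 1) * x)) = t ^ s := by
      have hlv : Real.log v = ((n : ℝ) - 1) * Real.log t := by
        rw [hv, Real.log_pow, Nat.cast_sub (by omega), Nat.cast_one]
      rw [Real.rpow_def_of_pos ht0', hx, hlv]
      congr 1
      field_simp
    rw [e1, e2] at key
    linarith

theorem Adm.of_le {n : ℕ} (hn : 2 ≤ n) {s s' : ℝ} (hs : 0 < s) (h : Adm n s) (hss : s ≤ s') :
    Adm n s' := by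
  intro t ht0 ht1
  have h1 := h t ht0 ht1
  have hn2 : (2 : ℝ) ≤ n := by exact_mod_cast hn
  have hr : 1 ≤ s' / s := by rw [le_div_iff₀ hs]; linarith
  have hinc := inc_nonneg (n := n) ht0
  have hts := Real.rpow_nonneg ht0 s
  have hts' := Real.rpow_nonneg ht0 s'
  calc 1 + ((n : ℝ) - 1) * t ^ s' ≤ 1 ^ (s' / s) + (((n : ℝ) - 1) * t ^ s) ^ (s' / s) := by
        rw [Real.one_rpow, Real.mul_rpow (by linarith) hts, ← Real.rpow_mul ht0]
        have e : s * (s' / s) = s' := by field_simp
        rw [e]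
        have : (n : ℝ) - 1 ≤ ((n : ℝ) - 1) ^ (s' / s) := by
          calc (n : ℝ) - 1 = ((n : ℝ) - 1) ^ (1 : ℝ) := (Real.rpow_one _).symm
            _ ≤ _ := Real.rpow_le_rpow_of_exponent_le (by linarith) hr
        nlinarith
    _ ≤ (1 + ((n : ℝ) - 1) * t ^ s) ^ (s' / s) :=
        Real.add_rpow_le_rpow_add zero_le_one (mul_nonneg (by linarith) hts) hr
    _ ≤ ((1 + inc n t) ^ s) ^ (s' / s) :=
        Real.rpow_le_rpow (by have : 0 ≤ ((n : ℝ) - 1) * t ^ s := mul_nonneg (by linarith) hts
                              linarith) h1 (by linarith)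
    _ = (1 + inc n t) ^ s' := by
        rw [← Real.rpow_mul (by linarith)]
        congr 1
        field_simp

theorem adm_two {s : ℝ} (hs : 2 ≤ s) : Adm 2 s := by
  intro t ht0 ht1
  have hinc := inc_nonneg (n := 2) ht0
  have h1 : 1 + s * inc 2 t ≤ (1 + inc 2 t) ^ s :=
    one_add_mul_self_le_rpow_one_add (by linarith) (by linarith)
  have h2 : t ^ s ≤ t ^ 2 := by
    rcases eq_or_lt_of_le ht0 with h0 | h0
    · rw [← h0, Real.zero_rpow (by linarith)]; norm_num
    · calc t ^ s ≤ t ^ (2 : ℝ) := Real.rpow_le_rpow_of_exponent_ge h0 ht1 hs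
        _ = t ^ 2 := by rw [← Real.rpow_natCast]; norm_num
  have h3 : t ^ 2 ≤ 2 * inc 2 t := by
    unfold inc geo
    rw [Finset.sum_range_succ, Finset.sum_range_one, pow_zero, pow_one, ← mul_div_assoc,
      le_div_iff₀ (by linarith)]
    nlinarith [sq_nonneg t]
  push_cast
  nlinarith

end Pool.Agent.Lib.MP_7b7e48_nt.LX
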