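import Pool.Agent.Lib.MP_7b7e48_nt.LX.Sum

/-!
# MP_7b7e48_nt : the extremal function at small densities (helper81)

`av n = 1 / ∏ (p - 1)` and `vv n = ∏ (1 - 1 / p)` over the odd primes `p < n`; `gfun (av n) = vv n`.
Relative continuity (`gfun_rel`) and relative convergence (`lexG_rel`).
-/

namespace Pool.Agent.Lib.MP_7b7e48_nt.LX

open Finset Pool.Agent.Lib.GT Pool.Agent.Lib.GT.LA Pool.Agent.Lib.GT.Robust
open Pool.Agent.Lib.MP_7b7e48_nt.SP

/-- `1 / ∏ (p - 1)` over the odd primes below `n` -/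
noncomputable def av (n : ℕ) : ℝ := 1 / ∏ p ∈ op n, ((p : ℝ) - 1)

/-- `∏ (1 - 1 / p)` over the odd primes below `n` -/
noncomputable def vv (n : ℕ) : ℝ := ∏ p ∈ op n, (1 - 1 / (p : ℝ))

theorem mem_op {n p : ℕ} : p ∈ op n ↔ p < n ∧ p.Prime ∧ p ≠ 2 := by
  unfold op
  rw [Finset.mem_filter, Finset.mem_range]

theorem rop_three {n p : ℕ} (h : p ∈ op n) : (3 : ℝ) ≤ p := by
  rw [mem_op] at h
  exact_mod_cast prime_three h.2.1 h.2.2

theorem av_pos (n : ℕ) : 0 < av n := one_div_pos.mpr (op_prod_pos n)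

theorem vv_pos (n : ℕ) : 0 < vv n := by
  apply Finset.prod_pos
  intro p hp
  have h3 := rop_three hp
  have : 1 / (p : ℝ) < 1 := by rw [div_lt_one (by linarith)]; linarith
  linarith

theorem gfun_av (n : ℕ) : gfun (av n) = vv n := gfun_value n

theorem lexG_av {n n' : ℕ} (h : n ≤ n') : lexG (ol n') (av n) = vv n := lexG_value_ol h

theorem op_succ {n : ℕ} (h : n.Prime) (h2 : n ≠ 2) : op (n + 1) = insert n (op n) := by
  ext p
  rw [Finset.mem_insert, mem_op, mem_op]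
  constructor
  · rintro ⟨h3, h4⟩
    rcases Nat.lt_or_ge p n with h5 | h5
    · exact Or.inr ⟨h5, h4⟩
    · exact Or.inl (by omega)
  · rintro (rfl | ⟨h3, h4⟩)
    · exact ⟨by omega, h, h2⟩
    · exact ⟨by omega, h4⟩

theorem not_mem_op (n : ℕ) : n ∉ op n := by
  rw [mem_op]
  omega

theorem av_succ {n : ℕ} (h : n.Prime) (h2 : n ≠ 2) : av (n + 1) = av n / ((n : ℝ) - 1) := by
  unfold av
  rw [op_succ h h2, Finset.prod_insert (not_mem_op n), div_div, mul_comm]

theorem vv_succ {n : ℕ} (h : n.Prime) (h2 : n ≠ 2) : vv (n + 1) = vv n * (1 - 1 / (n : ℝ)) := by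
  unfold vv
  rw [op_succ h h2, Finset.prod_insert (not_mem_op n), mul_comm]

theorem op_succ_of_not {n : ℕ} (h : ¬ (n.Prime ∧ n ≠ 2)) : op (n + 1) = op n := by
  ext p
  rw [mem_op, mem_op]
  constructor
  · rintro ⟨h3, h4⟩
    refine ⟨?_, h4⟩
    rcases Nat.lt_or_ge p n with h5 | h5
    · exact h5
    · exact absurd ((show p = n by omega) ▸ h4) h
  · rintro ⟨h3, h4⟩
    exact ⟨by omega, h4⟩

theorem av_anti : Antitone av := by
  apply antitone_nat_of_succ_le
  intro n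
  by_cases h : n.Prime ∧ n ≠ 2
  · rw [av_succ h.1 h.2]
    have h3 : (3 : ℝ) ≤ n := by exact_mod_cast prime_three h.1 h.2
    apply div_le_self (av_pos n).le
    linarith
  · unfold av
    rw [op_succ_of_not h]

theorem exists_next (n : ℕ) : ∃ m, n ≤ m ∧ m.Prime ∧ m ≠ 2 ∧ op m = op n := by
  have hex : ∃ m, n ≤ m ∧ m.Prime ∧ m ≠ 2 := by
    obtain ⟨p, hp1, hp2⟩ := Nat.exists_infinite_primes (n + 3)
    exact ⟨p, by omega, hp2, by omega⟩
  classical
  refine ⟨Nat.find hex, (Nat.find_spec hex).1, (Nat.find_spec hex).2.1, (Nat.find_spec hex).2.2, ?_⟩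
  ext p
  rw [mem_op, mem_op]
  constructor
  · rintro ⟨h3, h4⟩
    refine ⟨?_, h4⟩
    by_contra h5
    exact Nat.find_min hex h3 ⟨by omega, h4⟩
  · rintro ⟨h3, h4⟩
    exact ⟨lt_of_lt_of_le h3 (Nat.find_spec hex).1, h4⟩

theorem av_congr {m n : ℕ} (h : op m = op n) : av m = av n := by
  unfold av
  rw [h]

theorem vv_congr {m n : ℕ} (h : op m = op n) : vv m = vv n := by
  unfold vv
  rw [h]

theorem av_small (k : ℕ) : ∃ n : ℕ, av n ≤ (1 / 2) ^ k := by
  induction k with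
  | zero => exact ⟨0, by simp [av, op]⟩
  | succ k ih =>
    obtain ⟨n, hn⟩ := ih
    obtain ⟨m, _, hm, hm2, hop⟩ := exists_next n
    refine ⟨m + 1, ?_⟩
    rw [av_succ hm hm2, av_congr hop, pow_succ]
    have h3 : (3 : ℝ) ≤ m := by exact_mod_cast prime_three hm hm2
    rw [div_le_iff₀ (by linarith)]
    have h4 : (0 : ℝ) < (1 / 2) ^ k := by positivity
    nlinarith

theorem exists_av_lt {x : ℝ} (hx : 0 < x) : ∃ n : ℕ, av n < x := by
  obtain ⟨k, hk⟩ := exists_pow_lt_of_lt_one hx (show (1 / 2 : ℝ) < 1 by norm_num)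
  obtain ⟨n, hn⟩ := av_small k
  exact ⟨n, hn.trans_lt hk⟩

/-- The level of `x`. -/
theorem exists_level {x : ℝ} (h0 : 0 < x) (h1 : x ≤ 1) :
    ∃ p : ℕ, p.Prime ∧ p ≠ 2 ∧ av (p + 1) < x ∧ x ≤ av p := by
  classical
  have hex := exists_av_lt h0
  have hne : Nat.find hex ≠ 0 := by
    intro h
    have := Nat.find_spec hex
    rw [h] at this
    have h2 : av 0 = 1 := by simp [av, op]
    linarith
  obtain ⟨p, hp⟩ := Nat.exists_eq_succ_of_ne_zero hne
  have h2 : av (p + 1) < x := by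
    have := Nat.find_spec hex
    rwa [hp] at this
  have h3 : x ≤ av p := by
    have := Nat.find_min hex (m := p) (by omega)
    exact le_of_not_gt this
  have h4 : p.Prime ∧ p ≠ 2 := by
    by_contra h
    have : av (p + 1) = av p := av_congr (op_succ_of_not h)
    linarith
  exact ⟨p, h4.1, h4.2, h2, h3⟩

theorem gfun_pos {x : ℝ} (hx : 0 < x) : 0 < gfun x := by
  obtain ⟨n, hn⟩ := exists_av_lt hx
  have := gfun_mono hn.le
  rw [gfun_av] at this
  exact (vv_pos n).trans_le this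

theorem gfun_le_one (x : ℝ) : gfun x ≤ 1 := (gfun_le 0 x).trans (lexG_le_one 0 x)

theorem one_sub_inv_pos {p : ℕ} (h : p.Prime) (h2 : p ≠ 2) :
    (3 : ℝ) ≤ p ∧ 0 < 1 - 1 / (p : ℝ) := by
  have h3 : (3 : ℝ) ≤ p := by exact_mod_cast prime_three h h2
  have : 1 / (p : ℝ) < 1 := by rw [div_lt_one (by linarith)]; linarith
  exact ⟨h3, by linarith⟩

/-- Relative continuity. -/
theorem gfun_rel {ε : ℝ} (hε : 0 < ε) : ∃ η : ℝ, 0 < η ∧ η ≤ 1 / 2 ∧ ∀ x : ℝ, 0 < x → x ≤ 1 →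
    (1 - ε) * gfun x ≤ gfun ((1 - η) * x) := by
  rcases le_or_gt 1 ε with hε1 | hε1
  · refine ⟨1 / 2, by norm_num, le_rfl, fun x hx _ => ?_⟩
    have h1 := gfun_nonneg x
    have h2 := gfun_nonneg ((1 - 1 / 2) * x)
    nlinarith
  set P : ℕ := ⌈2 / ε⌉₊ + 2 with hP
  have hPε : 2 / ε ≤ P := by
    have := Nat.le_ceil (2 / ε)
    rw [hP]
    push_cast
    linarith
  have hg0 : 0 < gfun (av (P + 1)) := gfun_pos (av_pos _)
  obtain ⟨τ, hτ, hnear⟩ := gfun_near (show 0 < ε * gfun (av (P + 1)) by positivity)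
  refine ⟨min (1 / 2) τ, lt_min (by norm_num) hτ, min_le_left _ _, fun x hx hx1 => ?_⟩
  set η := min (1 / 2) τ with hη
  have hη2 : η ≤ 1 / 2 := min_le_left _ _
  have hητ : η ≤ τ := min_le_right _ _
  have hη0 : 0 < η := lt_min (by norm_num) hτ
  obtain ⟨p, hp, hp2, hlow, hup⟩ := exists_level hx hx1
  obtain ⟨hp3, hpp⟩ := one_sub_inv_pos hp hp2
  rcases Nat.lt_or_ge p P with hpP | hpP
  · have h1 : gfun (av (P + 1)) ≤ gfun x := gfun_mono ((av_anti (by omega)).trans hlow.le)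
    have h2 := hnear ((1 - η) * x) x (by nlinarith)
    nlinarith
  · obtain ⟨m, hm1, hm, hm2, hop⟩ := exists_next (p + 1)
    obtain ⟨hm3, hmm⟩ := one_sub_inv_pos hm hm2
    have h1 : av (m + 1) ≤ (1 - η) * x := by
      rw [av_succ hm hm2, av_congr hop, div_le_iff₀ (by linarith)]
      have e2 : 1 ≤ (1 - η) * ((m : ℝ) - 1) := by nlinarith
      have e1 : 1 * x ≤ (1 - η) * ((m : ℝ) - 1) * x := mul_le_mul_of_nonneg_right e2 hx.le
      linarith
    have h2 : vv (m + 1) ≤ gfun ((1 - η) * x) := by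
      rw [← gfun_av]
      exact gfun_mono h1
    have h3 : gfun x ≤ vv p := by
      rw [← gfun_av]
      exact gfun_mono hup
    rw [vv_succ hm hm2, vv_congr hop, vv_succ hp hp2] at h2
    have hpP' : (P : ℝ) ≤ p := by exact_mod_cast hpP
    have h4 : 1 / (p : ℝ) ≤ ε / 2 := by
      rw [div_le_div_iff₀ (by linarith) (by norm_num)]
      have : 2 / ε ≤ p := hPε.trans hpP'
      rw [div_le_iff₀ hε] at this
      linarith
    have hmp : (p : ℝ) ≤ m := by exact_mod_cast (by omega : p ≤ m)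
    have h5 : 1 / (m : ℝ) ≤ ε / 2 := (one_div_le_one_div_of_le (by linarith) hmp).trans h4
    have h6 : 1 - ε ≤ (1 - 1 / (p : ℝ)) * (1 - 1 / (m : ℝ)) := by
      have h7 : 0 ≤ 1 / (p : ℝ) := by positivity
      have h8 : 0 ≤ 1 / (m : ℝ) := by positivity
      nlinarith
    calc (1 - ε) * gfun x ≤ (1 - ε) * vv p := mul_le_mul_of_nonneg_left h3 (by linarith)
      _ ≤ ((1 - 1 / (p : ℝ)) * (1 - 1 / (m : ℝ))) * vv p :=
          mul_le_mul_of_nonneg_right h6 (vv_pos p).le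
      _ = vv p * (1 - 1 / (p : ℝ)) * (1 - 1 / (m : ℝ)) := by ring
      _ ≤ _ := h2

/-- Uniform convergence. -/
theorem lexG_unif {ε : ℝ} (hε : 0 < ε) : ∃ K₀ : ℕ, ∀ K : ℕ, K₀ ≤ K → ∀ x : ℝ,
    lexG (ol K) x ≤ gfun x + ε := by
  obtain ⟨τ, hτ, hnear⟩ := gfun_near (show 0 < ε / 2 by positivity)
  obtain ⟨M, hM⟩ : ∃ M : ℕ, 1 / τ ≤ M := exists_nat_ge _
  have h1 : ∀ j ∈ range (M + 2), ∀ᶠ K in Filter.atTop,
      lexG (ol K) ((j : ℝ) * τ) < gfun ((j : ℝ) * τ) + ε / 2 := by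
    intro j _
    exact (lexG_tendsto ((j : ℝ) * τ)).eventually_lt_const (by linarith)
  have h2 := (Filter.eventually_all_finset (range (M + 2))).mpr h1
  obtain ⟨K₀, hK₀⟩ := Filter.eventually_atTop.mp h2
  refine ⟨K₀, fun K hK x => ?_⟩
  rcases le_or_gt x 0 with hx | hx
  · rw [(nice_ol K).zero x hx]
    have := gfun_nonneg x
    linarith
  rcases le_or_gt 1 x with hx1 | hx1
  · have h3 := gfun_mono hx1
    rw [gfun_one] at h3
    have := lexG_le_one K x
    linarith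
  · set j : ℕ := ⌈x / τ⌉₊ with hj
    have hj1 : x / τ ≤ j := Nat.le_ceil _
    have hj2 : (j : ℝ) < x / τ + 1 := Nat.ceil_lt_add_one (by positivity)
    have hj3 : j ∈ range (M + 2) := by
      rw [Finset.mem_range]
      have h3 : x / τ ≤ 1 / τ := div_le_div_of_nonneg_right hx1.le hτ.le
      have h4 : (j : ℝ) < (M : ℝ) + 1 := by linarith
      have h5 : j < M + 1 := by exact_mod_cast h4
      omega
    have h3 := hK₀ K hK j hj3
    have h4 : x ≤ (j : ℝ) * τ := by rwa [div_le_iff₀ hτ] at hj1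
    have h5 : (j : ℝ) * τ - x ≤ τ := by
      have : (j : ℝ) * τ < (x / τ + 1) * τ := mul_lt_mul_of_pos_right hj2 hτ
      have h6 : (x / τ + 1) * τ = x + τ := by field_simp
      linarith
    have h6 := hnear x ((j : ℝ) * τ) h5
    have h7 := (nice_ol K).mono h4
    linarith

/-- Relative convergence. -/
theorem lexG_rel {ε : ℝ} (hε : 0 < ε) : ∃ K₀ : ℕ, ∀ K : ℕ, K₀ ≤ K → ∀ x : ℝ, x ≤ 1 →
    av K ≤ x → lexG (ol K) x ≤ (1 + ε) * gfun x := by
  set P : ℕ := ⌈1 / ε⌉₊ + 2 with hP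
  have hPε : 1 / ε ≤ (P : ℝ) - 1 := by
    have := Nat.le_ceil (1 / ε)
    rw [hP]
    push_cast
    linarith
  have hg0 : 0 < gfun (av (P + 1)) := gfun_pos (av_pos _)
  obtain ⟨K₀, hK₀⟩ := lexG_unif (show 0 < ε * gfun (av (P + 1)) by positivity)
  refine ⟨K₀, fun K hK x hx1 hxK => ?_⟩
  have hx : 0 < x := (av_pos K).trans_le hxK
  obtain ⟨p, hp, hp2, hlow, hup⟩ := exists_level hx hx1
  obtain ⟨hp3, hpp⟩ := one_sub_inv_pos hp hp2
  rcases Nat.lt_or_ge p P with hpP | hpP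
  · have h1 : gfun (av (P + 1)) ≤ gfun x := gfun_mono ((av_anti (by omega)).trans hlow.le)
    have h2 := hK₀ K hK x
    nlinarith
  · rcases le_or_gt p K with hpK | hpK
    · have h1 : lexG (ol K) x ≤ vv p := by
        rw [← lexG_av hpK]
        exact (nice_ol K).mono hup
      have h2 : vv p * (1 - 1 / (p : ℝ)) ≤ gfun x := by
        rw [← vv_succ hp hp2, ← gfun_av]
        exact gfun_mono hlow.le
      have hpP' : (P : ℝ) ≤ p := by exact_mod_cast hpP
      have h3 : 1 ≤ (1 + ε) * (1 - 1 / (p : ℝ)) := by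
        have h4 : 1 / ε ≤ (p : ℝ) - 1 := by linarith
        rw [div_le_iff₀ hε] at h4
        have hp0 : (0 : ℝ) < p := by linarith
        have h5 : (1 + ε) * (1 - 1 / (p : ℝ)) - 1 = (((p : ℝ) - 1) * ε - 1) / p := by
          field_simp
          ring
        have h6 : 0 ≤ (((p : ℝ) - 1) * ε - 1) / p := div_nonneg (by linarith) hp0.le
        linarith
      calc lexG (ol K) x ≤ vv p := h1
        _ = 1 * vv p := (one_mul _).symm
        _ ≤ ((1 + ε) * (1 - 1 / (p : ℝ))) * vv p := mul_le_mul_of_nonneg_right h3 (vv_pos p).le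
        _ = (1 + ε) * (vv p * (1 - 1 / (p : ℝ))) := by ring
        _ ≤ (1 + ε) * gfun x := mul_le_mul_of_nonneg_left h2 (by linarith)
    · have h1 : lexG (ol K) x ≤ vv K := by
        rw [← lexG_av (le_refl K)]
        exact (nice_ol K).mono (hup.trans (av_anti hpK.le))
      have h2 : vv K ≤ gfun x := by
        rw [← gfun_av]
        exact gfun_mono hxK
      have h3 := gfun_nonneg x
      nlinarith

end Pool.Agent.Lib.MP_7b7e48_nt.LX
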