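import Pool.Agent.Lib.MP_7b7e48_nt.LX.RelAsymp
import Pool.Agent.Lib.SW.LG2

/-!
# MP_7b7e48_nt : primes in residue classes and the uniform lower bound on a dyadic block (helper81)
-/

namespace Pool.Agent.Lib.MP_7b7e48_nt.LX

open Finset Pool.Agent.Lib.GT Pool.Agent.Lib.GT.LA Pool.Agent.Lib.GT.Robust
open Pool.Agent.Lib.MP_7b7e48_nt.SP

/-- the number of primes `≤ x` congruent to `a` modulo `q` -/
def Pc (x q a : ℕ) : ℕ := ((Icc 1 x).filter (fun n => n.Prime ∧ n ≡ a [MOD q])).card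

theorem Pc_one (x : ℕ) : Pc x 1 1 = Nat.primeCounting x := by
  unfold Pc
  rw [Nat.primeCounting, Nat.primeCounting', Nat.count_eq_card_filter_range]
  congr 1
  ext p
  rw [Finset.mem_filter, Finset.mem_filter, Finset.mem_Icc, Finset.mem_range]
  constructor
  · rintro ⟨⟨_, h1⟩, h2, _⟩
    exact ⟨by omega, h2⟩
  · rintro ⟨h1, h2⟩
    exact ⟨⟨h2.one_le, by omega⟩, h2, Nat.modEq_one⟩

/-- primes in residue classes, uniformly for moduli up to a power of the logarithm -/
theorem class_count (B : ℕ) {θ : ℝ} (hθ : 0 < θ) (hθ1 : θ ≤ 1) : ∃ X₀ : ℕ, ∀ x : ℕ, X₀ ≤ x →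
    ∀ q a : ℕ, 1 ≤ q → (q : ℝ) ≤ (Real.log x) ^ B → Nat.Coprime a q →
      (1 - θ) * ((x : ℝ) / q.totient / Real.log x) ≤ (Pc x q a : ℝ) ∧
      (Pc x q a : ℝ) ≤ (1 + θ) * ((x : ℝ) / q.totient / Real.log x) := by
  obtain ⟨C, hC, hAP⟩ := Pool.Agent.Lib.SW.theta_ap (2 * B + 1) 1 one_pos
  set η : ℝ := θ / 4 with hη
  have hη0 : 0 < η := by positivity
  have hη1 : η ≤ 1 / 4 := by linarith
  obtain ⟨X₁, hX₁⟩ := Pool.Agent.Lib.SW.eventually_range B η hη0
  obtain ⟨X₂, hX₂⟩ := Filter.eventually_atTop.mp (Pool.Agent.Lib.SW.eventually_log_ge (C / η))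
  refine ⟨max (max X₁ X₂) 3, fun x hx q a hq hqL ha => ?_⟩
  have hxa : X₁ ≤ x := (le_max_left _ _).trans ((le_max_left _ _).trans hx)
  have hxb : X₂ ≤ x := (le_max_right _ _).trans ((le_max_left _ _).trans hx)
  have hx3 : 3 ≤ x := (le_max_right _ _).trans hx
  have hxR : (3 : ℝ) ≤ x := by exact_mod_cast hx3
  obtain ⟨hL1, hηL, hT1, hlT⟩ := hX₁ x hxa
  have hCL := hX₂ x hxb
  set L : ℝ := Real.log x with hL
  have hL0 : 0 < L := by linarith
  have hφpos : 0 < q.totient := Nat.totient_pos.mpr hq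
  have hφ : (0 : ℝ) < q.totient := by exact_mod_cast hφpos
  have hφq : (q.totient : ℝ) ≤ q := by exact_mod_cast Nat.totient_le q
  have hφL : (q.totient : ℝ) ≤ L ^ B := hφq.trans hqL
  set M : ℝ := (x : ℝ) / q.totient with hM
  have hM0 : 0 < M := by positivity
  have hq0 : (0 : ℝ) < q := by exact_mod_cast hq
  -- theta
  set Θ : ℝ := ∑ n ∈ (Finset.Icc 1 x).filter (fun n => n.Prime ∧ n ≡ a [MOD q]), Real.log n with hΘ
  have hE : |Θ - M| ≤ η * M := by
    have h1 := hAP q a hq ha x (by linarith)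
    rw [Nat.floor_natCast, Real.rpow_one] at h1
    refine h1.trans ?_
    have hLk : (0 : ℝ) < L ^ (2 * B + 1) := by positivity
    rw [div_le_iff₀ hLk, hM]
    have h2 : C ≤ η * L := by
      rw [div_le_iff₀ hη0] at hCL
      linarith
    have h3 : (q : ℝ) * q.totient ≤ L ^ B * L ^ B :=
      mul_le_mul hqL hφL hφ.le (by positivity)
    have h4 : C * ((q : ℝ) * q.totient) ≤ η * L * (L ^ B * L ^ B) :=
      mul_le_mul h2 h3 (by positivity) (by positivity)
    have h5 : η * (x / q.totient) * L ^ (2 * B + 1) =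
        (η * L * (L ^ B * L ^ B)) * x / q.totient := by
      rw [pow_succ, two_mul, pow_add]
      ring
    rw [h5, le_div_iff₀ hφ]
    have h6 := mul_le_mul_of_nonneg_right h4 (show (0 : ℝ) ≤ x by linarith)
    linarith
  obtain ⟨hE1, hE2⟩ := abs_le.mp hE
  constructor
  · -- lower bound
    have h1 : Θ ≤ (Pc x q a : ℝ) * L := by
      rw [hΘ]
      unfold Pc
      rw [← nsmul_eq_mul]
      refine Finset.sum_le_card_nsmul _ _ _ fun p hp => ?_
      rw [Finset.mem_filter, Finset.mem_Icc] at hp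
      apply Real.log_le_log
      · exact_mod_cast hp.2.1.pos
      · exact_mod_cast hp.1.2
    have h2 : (1 - θ) * (M / L) = (1 - θ) * M / L := by ring
    rw [h2, div_le_iff₀ hL0]
    have h3 : (1 - θ) * M ≤ (1 - η) * M := mul_le_mul_of_nonneg_right (by linarith) hM0.le
    linarith
  · -- upper bound
    set T : ℝ := x / L ^ (B + 2) with hT
    have hlT0 : 0 < Real.log T := Real.log_pos hT1
    have hsplit : (Pc x q a : ℝ) ≤ T + Θ / Real.log T := by
      set F := (Finset.Icc 1 x).filter (fun n => n.Prime ∧ n ≡ a [MOD q]) with hF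
      have h1 : (Pc x q a : ℝ) = ((F.filter (fun n : ℕ => (n : ℝ) ≤ T)).card : ℝ) +
          ((F.filter (fun n : ℕ => ¬ (n : ℝ) ≤ T)).card : ℝ) := by
        have := Finset.card_filter_add_card_filter_not (s := F) (fun n : ℕ => (n : ℝ) ≤ T)
        unfold Pc
        rw [← hF, ← this]
        push_cast
        rfl
      have h2 : ((F.filter (fun n : ℕ => (n : ℝ) ≤ T)).card : ℝ) ≤ T := by
        have h3 : F.filter (fun n : ℕ => (n : ℝ) ≤ T) ⊆ Finset.Icc 1 ⌊T⌋₊ := by
          intro n hn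
          rw [Finset.mem_filter, hF, Finset.mem_filter, Finset.mem_Icc] at hn
          rw [Finset.mem_Icc]
          exact ⟨hn.1.1.1, Nat.le_floor hn.2⟩
        have h4 := Finset.card_le_card h3
        rw [Nat.card_Icc, Nat.add_sub_cancel] at h4
        have h5 : (⌊T⌋₊ : ℝ) ≤ T := Nat.floor_le (by positivity)
        exact (Nat.cast_le.mpr h4).trans h5
      have h3 : ((F.filter (fun n : ℕ => ¬ (n : ℝ) ≤ T)).card : ℝ) * Real.log T ≤ Θ := by
        rw [← nsmul_eq_mul]
        refine (Finset.card_nsmul_le_sum _ (fun n : ℕ => Real.log (n : ℝ)) _ fun n hn => ?_).trans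
          (Finset.sum_le_sum_of_subset_of_nonneg (Finset.filter_subset _ _)
            fun n _ _ => Real.log_natCast_nonneg n)
        rw [Finset.mem_filter, not_le] at hn
        exact Real.log_le_log (by positivity) hn.2.le
      rw [h1]
      have h4 : ((F.filter (fun n : ℕ => ¬ (n : ℝ) ≤ T)).card : ℝ) ≤ Θ / Real.log T := by
        rw [le_div_iff₀ hlT0]
        exact h3
      linarith
    have h1 : T ≤ η * (M / L) := by
      rw [hT, hM, div_le_iff₀ (by positivity)]
      have h2 : (1 : ℝ) * q.totient ≤ η * L * L ^ B :=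
        mul_le_mul hηL hφL hφ.le (by positivity)
      have h3 : η * (x / q.totient / L) * L ^ (B + 2) = (η * L * L ^ B) * x / q.totient := by
        rw [pow_add]
        field_simp
      rw [h3, le_div_iff₀ hφ]
      have h4 := mul_le_mul_of_nonneg_right h2 (show (0 : ℝ) ≤ x by linarith)
      linarith
    have h2 : Θ / Real.log T ≤ (1 + 3 * η) * (M / L) := by
      rw [div_le_iff₀ hlT0]
      have h3 : (1 + 3 * η) * (M / L) * ((1 - η / 2) * L) ≤ (1 + 3 * η) * (M / L) * Real.log T :=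
        mul_le_mul_of_nonneg_left hlT (by positivity)
      have h4 : (1 + 3 * η) * (M / L) * ((1 - η / 2) * L) = ((1 + 3 * η) * (1 - η / 2)) * M := by
        field_simp
      have h5 : (1 + η) ≤ (1 + 3 * η) * (1 - η / 2) := by nlinarith
      have h6 := mul_le_mul_of_nonneg_right h5 hM0.le
      linarith
    have h3 : (1 + θ) * (M / L) = (1 + 3 * η) * (M / L) + η * (M / L) := by
      rw [hη]
      ring
    linarith

/-- most classes, relative version -/
theorem rel_classes (U : Finset ℕ) (F : ℕ → ℝ) {θ α s T : ℝ} (hs : 0 < s) (hθ : 0 ≤ θ)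
    (hθ1 : θ ≤ 1 / 2) (hT : 0 ≤ T) (hU : 0 < U.card)
    (hF : ∀ u ∈ U, F u ≤ (1 + 3 * θ) * (s / U.card)) (hsum : (1 - θ) * T ≤ ∑ u ∈ U, F u)
    (hα : α * s ≤ T) :
    (1 - 2 * θ) * α / (1 + 3 * θ) ≤
      ((U.filter (fun u => θ * (T / U.card) ≤ F u)).card : ℝ) / U.card := by
  have hUR : (0 : ℝ) < U.card := by exact_mod_cast hU
  set S := U.filter (fun u => θ * (T / U.card) ≤ F u) with hS
  have h1 : ∑ u ∈ U, F u ≤ S.card * ((1 + 3 * θ) * (s / U.card)) + U.card * (θ * (T / U.card)) := by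
    rw [← Finset.sum_filter_add_sum_filter_not U (fun u => θ * (T / U.card) ≤ F u)]
    refine add_le_add ?_ ?_
    · rw [← hS, ← nsmul_eq_mul]
      exact Finset.sum_le_card_nsmul _ _ _ fun u hu => hF u (Finset.filter_subset _ _ hu)
    · have h2 : ∑ u ∈ U.filter (fun u => ¬ θ * (T / U.card) ≤ F u), F u ≤
          (U.filter (fun u => ¬ θ * (T / U.card) ≤ F u)).card • (θ * (T / U.card)) :=
        Finset.sum_le_card_nsmul _ _ _ fun u hu => by
          rw [Finset.mem_filter] at hu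
          exact (not_le.mp hu.2).le
      rw [nsmul_eq_mul] at h2
      refine h2.trans ?_
      apply mul_le_mul_of_nonneg_right _ (by positivity)
      exact_mod_cast Finset.card_le_card (Finset.filter_subset _ _)
  have h2 : (U.card : ℝ) * (θ * (T / U.card)) = θ * T := by field_simp
  rw [h2] at h1
  have h3 : (1 - 2 * θ) * (α * s) ≤ (1 - 2 * θ) * T := mul_le_mul_of_nonneg_left hα (by linarith)
  have h4 : ((1 - 2 * θ) * α) * s ≤ (S.card * (1 + 3 * θ) / U.card) * s := by
    calc ((1 - 2 * θ) * α) * s = (1 - 2 * θ) * (α * s) := by ring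
      _ ≤ (1 - 2 * θ) * T := h3
      _ ≤ S.card * ((1 + 3 * θ) * (s / U.card)) := by linarith
      _ = _ := by ring
  have h5 := le_of_mul_le_mul_right h4 hs
  rw [div_le_iff₀ (by linarith)]
  calc (1 - 2 * θ) * α ≤ S.card * (1 + 3 * θ) / U.card := h5
    _ = _ := by ring

theorem Wp_wX (Y : ℕ) : Wp (Pool.Agent.Lib.SW.wX Y) = Pool.Agent.Lib.SW.WX Y := rfl

theorem card_un_totient (K : ℕ) : (un K).card = (Wp K).totient := by
  rw [Nat.totient_eq_card_coprime]
  congr 1
  ext u
  rw [mem_un_coprime, Finset.mem_filter, Finset.mem_range, Nat.coprime_comm]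

end Pool.Agent.Lib.MP_7b7e48_nt.LX
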