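import Pool.Agent.Lib.MP_7b7e48_nt.LX.Rel1
import Pool.Agent.Lib.Sieve.Mertens3
import Pool.Agent.Lib.SW.SWFinal

/-!
# MP_7b7e48_nt : the asymptotic formula of the extremal function at small densities (helper81)
-/

namespace Pool.Agent.Lib.MP_7b7e48_nt.LX

open Finset Pool.Agent.Lib.GT Pool.Agent.Lib.GT.LA Pool.Agent.Lib.GT.Robust
open Pool.Agent.Lib.MP_7b7e48_nt.SP

/-- Chebyshev's lower bound -/
theorem theta_low : ∃ N₀ : ℕ, ∀ n : ℕ, N₀ ≤ n → (n : ℝ) / 2 ≤ ∑ p ∈ pr n, Real.log p := by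
  obtain ⟨C, hC, h⟩ := Pool.Agent.Lib.SW.theta_ap 1 1 one_pos
  obtain ⟨z, hz⟩ : ∃ z : ℕ, Real.exp (2 * C) ≤ z := exists_nat_ge _
  refine ⟨max z 2, fun n hn => ?_⟩
  have hn2 : 2 ≤ n := (le_max_right _ _).trans hn
  have hnz : (z : ℝ) ≤ n := by exact_mod_cast (le_max_left _ _).trans hn
  have hn2' : (2 : ℝ) ≤ n := by exact_mod_cast hn2
  have hlog : 2 * C ≤ Real.log n := by
    rw [Real.le_log_iff_exp_le (by linarith)]
    exact hz.trans hnz
  have hlog0 : 0 < Real.log n := lt_of_lt_of_le (by positivity) hlog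
  have h1 := h 1 1 le_rfl (Nat.coprime_one_right 1) n hn2'
  have h2 : (Finset.Icc 1 ⌊(n : ℝ)⌋₊).filter (fun m => m.Prime ∧ m ≡ 1 [MOD 1]) = pr n := by
    ext p
    rw [Finset.mem_filter, Finset.mem_Icc, Nat.floor_natCast, mem_pr]
    constructor
    · rintro ⟨⟨_, h3⟩, h4, _⟩
      exact ⟨h3, h4⟩
    · rintro ⟨h3, h4⟩
      exact ⟨⟨h4.one_le, h3⟩, h4, Nat.modEq_one⟩
  rw [h2] at h1
  have h3 := (abs_le.mp h1).1
  rw [Nat.totient_one, Nat.cast_one, Real.one_rpow, div_one, mul_one, pow_one] at h3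
  have h4 : C * (n : ℝ) / Real.log n ≤ n / 2 := by
    rw [div_le_div_iff₀ hlog0 (by norm_num)]
    nlinarith
  linarith

theorem log_inv_av (n : ℕ) : Real.log (1 / av n) = ∑ p ∈ op n, Real.log ((p : ℝ) - 1) := by
  unfold av
  rw [one_div_one_div, Real.log_prod]
  intro p hp
  have := rop_three hp
  linarith

theorem log_av_low : ∃ N₀ : ℕ, ∀ n : ℕ, N₀ ≤ n → (n : ℝ) / 8 ≤ Real.log (1 / av (n + 1)) := by
  obtain ⟨N₀, h⟩ := theta_low
  refine ⟨max N₀ 6, fun n hn => ?_⟩
  have hn0 : N₀ ≤ n := (le_max_left _ _).trans hn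
  have hn6 : (6 : ℝ) ≤ n := by exact_mod_cast (le_max_right _ _).trans hn
  have hn2 : 2 ≤ n := by
    have := (le_max_right _ _).trans hn
    omega
  have h1 := h n hn0
  rw [pr_eq_insert hn2, Finset.sum_insert (two_not_op _)] at h1
  rw [log_inv_av]
  have h2 : ∑ p ∈ op (n + 1), Real.log (p : ℝ) ≤ ∑ p ∈ op (n + 1), 2 * Real.log ((p : ℝ) - 1) := by
    refine Finset.sum_le_sum fun p hp => ?_
    have h3 := rop_three hp
    have h4 : 2 * Real.log ((p : ℝ) - 1) = Real.log (((p : ℝ) - 1) ^ 2) := by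
      rw [Real.log_pow]
      norm_num
    rw [h4]
    apply Real.log_le_log (by linarith)
    nlinarith
  rw [← Finset.mul_sum] at h2
  have h5 := Real.log_two_lt_d9
  push_cast at h1
  linarith

theorem log_av_up {n : ℕ} : Real.log (1 / av (n + 1)) ≤ n * Real.log 4 := by
  rw [log_inv_av]
  have h1 : ∑ p ∈ op (n + 1), Real.log ((p : ℝ) - 1) ≤ ∑ p ∈ pr n, Real.log (p : ℝ) := by
    refine (Finset.sum_le_sum (g := fun p : ℕ => Real.log (p : ℝ)) fun p hp => ?_).trans
      (Finset.sum_le_sum_of_subset_of_nonneg ?_ fun p _ _ => Real.log_natCast_nonneg p)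
    · have h3 := rop_three hp
      apply Real.log_le_log <;> linarith
    · intro p hp
      rw [mem_op] at hp
      rw [mem_pr]
      exact ⟨by omega, hp.2.1⟩
  have h2 : ∑ p ∈ pr n, Real.log (p : ℝ) = Real.log (primorial n : ℝ) := by
    unfold primorial pr
    rw [Nat.cast_prod, Real.log_prod]
    intro p hp
    rw [Finset.mem_filter] at hp
    exact_mod_cast hp.2.ne_zero
  have h3 : Real.log (primorial n : ℝ) ≤ Real.log ((4 : ℝ) ^ n) := by
    apply Real.log_le_log
    · exact_mod_cast primorial_pos n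
    · exact_mod_cast primorial_le_four_pow n
  rw [Real.log_pow] at h3
  linarith

theorem vv_eq_V {K : ℕ} (hK : 2 ≤ K) : vv (K + 1) = 2 * V K := prod_V hK

/-- **The asymptotic formula**: `gfun α ~ 2 e^(-γ) / log log (1/α)` as `α → 0+`. -/
theorem gfun_asymp : Filter.Tendsto (fun α : ℝ => gfun α * Real.log (Real.log (1 / α)))
    (nhdsWithin 0 (Set.Ioi 0)) (nhds (2 * Real.exp (-Real.eulerMascheroniConstant))) := by
  have hM : Filter.Tendsto (fun z : ℕ => Real.log z * V z) Filter.atTop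
      (nhds (Real.exp (-Real.eulerMascheroniConstant))) :=
    Pool.Agent.Lib.Sieve.Mertens3.mertens_three
  have hlog : Filter.Tendsto (fun z : ℕ => Real.log (z : ℝ)) Filter.atTop Filter.atTop :=
    Real.tendsto_log_atTop.comp tendsto_natCast_atTop_atTop
  have hV0 : Filter.Tendsto (fun z : ℕ => V z) Filter.atTop (nhds 0) := by
    have h1 := hM.div_atTop hlog
    refine h1.congr' ?_
    filter_upwards [hlog.eventually_ge_atTop 1] with z hz
    have : Real.log (z : ℝ) ≠ 0 := by linarith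
    field_simp
  have h1 : Filter.Tendsto (fun z : ℕ => 2 * (Real.log z * V z) - 2 * Real.log 16 * V z)
      Filter.atTop (nhds (2 * Real.exp (-Real.eulerMascheroniConstant) - 2 * Real.log 16 * 0)) :=
    (hM.const_mul 2).sub (hV0.const_mul _)
  have hinv : Filter.Tendsto (fun z : ℕ => (1 - 1 / (z : ℝ))⁻¹) Filter.atTop (nhds ((1 - 0)⁻¹)) := by
    have := (tendsto_one_div_atTop_nhds_zero_nat (𝕜 := ℝ)).const_sub 1
    exact this.inv₀ (by norm_num)
  have h2 : Filter.Tendsto (fun z : ℕ => (2 * (Real.log z * V z) + 2 * Real.log 2 * V z) *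
      (1 - 1 / (z : ℝ))⁻¹) Filter.atTop
      (nhds ((2 * Real.exp (-Real.eulerMascheroniConstant) + 2 * Real.log 2 * 0) * (1 - 0)⁻¹)) :=
    ((hM.const_mul 2).add (hV0.const_mul _)).mul hinv
  rw [mul_zero, sub_zero] at h1
  rw [mul_zero, add_zero, sub_zero, inv_one, mul_one] at h2
  obtain ⟨N₁, hN₁⟩ := log_av_low
  rw [Metric.tendsto_nhdsWithin_nhds]
  intro ε hε
  obtain ⟨N₂, hN₂⟩ := Filter.eventually_atTop.mp (h1.eventually_const_lt
    (show 2 * Real.exp (-Real.eulerMascheroniConstant) - ε <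
      2 * Real.exp (-Real.eulerMascheroniConstant) by linarith))
  obtain ⟨N₃, hN₃⟩ := Filter.eventually_atTop.mp (h2.eventually_lt_const
    (show 2 * Real.exp (-Real.eulerMascheroniConstant) <
      2 * Real.exp (-Real.eulerMascheroniConstant) + ε by linarith))
  set N := max (max N₂ N₃) (max (N₁ + 1) 17) with hN
  refine ⟨min (av (N + 1)) 1, lt_min (av_pos _) one_pos, fun α hα hd => ?_⟩
  have hα0 : 0 < α := hα
  rw [Real.dist_eq, sub_zero, abs_of_pos hα0] at hd
  have hα1 : α < av (N + 1) := hd.trans_le (min_le_left _ _)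
  have hα2 : α ≤ 1 := (hd.trans_le (min_le_right _ _)).le
  obtain ⟨p, hp, hp2, hlow, hup⟩ := exists_level hα0 hα2
  have hpN : N ≤ p := by
    by_contra hc
    have := av_anti (show p + 1 ≤ N + 1 by omega)
    linarith
  have hpN2 : N₂ ≤ p := ((le_max_left _ _).trans (le_max_left _ _)).trans hpN
  have hpN3 : N₃ ≤ p := ((le_max_right _ _).trans (le_max_left _ _)).trans hpN
  have hpN1 : N₁ + 1 ≤ p := ((le_max_left _ _).trans (le_max_right _ _)).trans hpN
  have hp17 : 17 ≤ p := ((le_max_right _ _).trans (le_max_right _ _)).trans hpN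
  have hpR : (17 : ℝ) ≤ p := by exact_mod_cast hp17
  obtain ⟨_, hpp⟩ := one_sub_inv_pos hp hp2
  -- the logarithms
  have hl1 : (p : ℝ) / 16 ≤ Real.log (1 / α) := by
    have h3 := hN₁ (p - 1) (by omega)
    rw [Nat.sub_add_cancel (by omega), Nat.cast_sub (by omega)] at h3
    push_cast at h3
    have h4 : Real.log (1 / av p) ≤ Real.log (1 / α) :=
      Real.log_le_log (one_div_pos.mpr (av_pos p)) (one_div_le_one_div_of_le hα0 hup)
    linarith
  have hl2 : Real.log (1 / α) ≤ 2 * p := by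
    have h3 : Real.log (1 / α) ≤ Real.log (1 / av (p + 1)) :=
      Real.log_le_log (one_div_pos.mpr hα0) (one_div_le_one_div_of_le (av_pos _) hlow.le)
    have h4 := log_av_up (n := p)
    have h5 : Real.log 4 ≤ 2 := by
      have h6 : Real.log 4 = 2 * Real.log 2 := by
        rw [show (4 : ℝ) = 2 ^ 2 by norm_num, Real.log_pow]
        norm_num
      have := Real.log_two_lt_d9
      linarith
    nlinarith
  have hl0 : 0 < Real.log (1 / α) := by linarith
  have hll1 : Real.log p - Real.log 16 ≤ Real.log (Real.log (1 / α)) := by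
    rw [← Real.log_div (by linarith) (by norm_num)]
    exact Real.log_le_log (by positivity) hl1
  have hll2 : Real.log (Real.log (1 / α)) ≤ Real.log p + Real.log 2 := by
    rw [add_comm, ← Real.log_mul (by norm_num) (by linarith)]
    exact Real.log_le_log hl0 hl2
  have hll0 : 0 ≤ Real.log p - Real.log 16 := by
    rw [← Real.log_div (by linarith) (by norm_num)]
    apply Real.log_nonneg
    linarith
  -- the values
  have hg1 : 2 * V p ≤ gfun α := by
    rw [← vv_eq_V (by omega), ← gfun_av]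
    exact gfun_mono hlow.le
  have hg2 : gfun α ≤ 2 * V p * (1 - 1 / (p : ℝ))⁻¹ := by
    have h3 : gfun α ≤ vv p := by
      rw [← gfun_av]
      exact gfun_mono hup
    rw [← vv_eq_V (by omega), vv_succ hp hp2, mul_assoc, mul_inv_cancel₀ hpp.ne', mul_one]
    exact h3
  have hVp := V_pos p
  have h3 := hN₂ p hpN2
  have h4 := hN₃ p hpN3
  rw [Real.dist_eq, abs_lt]
  constructor
  · have h5 : 2 * (Real.log p * V p) - 2 * Real.log 16 * V p ≤
        gfun α * Real.log (Real.log (1 / α)) := by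
      calc 2 * (Real.log p * V p) - 2 * Real.log 16 * V p =
          (2 * V p) * (Real.log p - Real.log 16) := by ring
        _ ≤ gfun α * Real.log (Real.log (1 / α)) :=
          mul_le_mul hg1 hll1 hll0 (gfun_nonneg α)
    linarith
  · have h5 : gfun α * Real.log (Real.log (1 / α)) ≤
        (2 * (Real.log p * V p) + 2 * Real.log 2 * V p) * (1 - 1 / (p : ℝ))⁻¹ := by
      calc gfun α * Real.log (Real.log (1 / α)) ≤
          (2 * V p * (1 - 1 / (p : ℝ))⁻¹) * (Real.log p + Real.log 2) :=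
            mul_le_mul hg2 hll2 (hll0.trans hll1) (by positivity)
        _ = _ := by ring
    linarith

end Pool.Agent.Lib.MP_7b7e48_nt.LX
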