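import Pool.Agent.Lib.MP_7b7e48_nt.LX.Rel2

/-!
# MP_7b7e48_nt : the uniform lower bound (helper81)
-/

namespace Pool.Agent.Lib.MP_7b7e48_nt.LX

open Finset Pool.Agent.Lib.GT Pool.Agent.Lib.GT.LA Pool.Agent.Lib.GT.Robust
open Pool.Agent.Lib.MP_7b7e48_nt.SP
open Pool.Agent.Lib.SW (wX WX cX reps rS Sa WX_pos WX_totient_pos one_le_cX)

theorem two_le_wX {X : ℕ} (h : 8 ≤ Real.log X) : 2 ≤ wX X := by
  unfold Pool.Agent.Lib.SW.wX
  apply Nat.le_floor
  rw [Nat.cast_ofNat, Real.le_log_iff_exp_le (by linarith)]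
  have h1 : Real.exp 2 = Real.exp 1 * Real.exp 1 := by rw [← Real.exp_add]; norm_num
  have h2 := Real.exp_one_lt_d9
  have h3 := Real.exp_pos 1
  rw [h1]
  nlinarith

theorem wX_le {X : ℕ} (h : 1 ≤ Real.log X) : (wX X : ℝ) ≤ Real.log X := by
  unfold Pool.Agent.Lib.SW.wX
  have h0 : 0 ≤ Real.log (Real.log X) := Real.log_nonneg h
  refine (Nat.floor_le h0).trans ?_
  have := Real.log_le_sub_one_of_pos (show 0 < Real.log X by linarith)
  linarith

/-- the mass of a set of primes in the unit classes -/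
theorem unit_mass {w : ℕ} {S : Finset ℕ} (hS : ∀ s ∈ S, s.Prime) :
    (S.card : ℝ) - w ≤ ∑ u ∈ un w, ((S.filter (fun s => s % Wp w = u)).card : ℝ) := by
  have h1 : ∑ u ∈ un w, (S.filter (fun s => s % Wp w = u)).card =
      (S.filter (fun s => s % Wp w ∈ un w)).card := by
    rw [Finset.card_eq_sum_card_fiberwise (f := fun s => s % Wp w) (t := un w)]
    · refine Finset.sum_congr rfl fun u hu => ?_
      congr 1
      ext s
      rw [Finset.mem_filter, Finset.mem_filter, Finset.mem_filter]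
      constructor
      · rintro ⟨h2, h3⟩
        exact ⟨⟨h2, h3 ▸ hu⟩, h3⟩
      · rintro ⟨⟨h2, _⟩, h3⟩
        exact ⟨h2, h3⟩
    · intro s hs
      exact (Finset.mem_filter.mp hs).2
  have h2 := Finset.card_filter_add_card_filter_not (s := S) (fun s => s % Wp w ∈ un w)
  have h3 : (S.filter (fun s => ¬ s % Wp w ∈ un w)).card ≤ w := by
    have h4 : S.filter (fun s => ¬ s % Wp w ∈ un w) ⊆ Icc 1 w := by
      intro s hs
      rw [Finset.mem_filter, mem_un] at hs
      obtain ⟨hs1, hs2⟩ := hs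
      have hsp := hS s hs1
      rw [not_and] at hs2
      have h5 := hs2 (Nat.mod_lt _ (Wp_pos w))
      push Not at h5
      obtain ⟨p, hp, hp2⟩ := h5
      rw [mem_pr] at hp
      have h6 : s % p = 0 := by
        rw [Nat.mod_mod_of_dvd _ (dvd_Wp (mem_pr.2 hp))] at hp2
        exact hp2
      have h7 : p = s := (Nat.prime_dvd_prime_iff_eq hp.2 hsp).1 (Nat.dvd_of_mod_eq_zero h6)
      rw [Finset.mem_Icc]
      exact ⟨hsp.one_le, h7 ▸ hp.1⟩
    have h5 := Finset.card_le_card h4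
    rwa [Nat.card_Icc, Nat.add_sub_cancel] at h5
  have h4 : ∑ u ∈ un w, ((S.filter (fun s => s % Wp w = u)).card : ℝ) =
      ((S.filter (fun s => s % Wp w ∈ un w)).card : ℝ) := by
    rw [← h1]
    push_cast
    rfl
  rw [h4]
  have h5 : (S.card : ℝ) = ((S.filter (fun s => s % Wp w ∈ un w)).card : ℝ) +
      ((S.filter (fun s => ¬ s % Wp w ∈ un w)).card : ℝ) := by exact_mod_cast h2.symm
  have h6 : ((S.filter (fun s => ¬ s % Wp w ∈ un w)).card : ℝ) ≤ w := by exact_mod_cast h3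
  linarith

/-- a class of `S` sits in `Sa` -/
theorem class_sub_Sa {w u v a : ℕ} {S : Finset ℕ} (hv : v ∈ un w) (ha : (u + v) % Wp w = a) :
    (S.filter (fun s => s % Wp w = u)).card ≤ (Sa (Wp w) S a).card := by
  apply Finset.card_le_card
  intro s hs
  rw [Finset.mem_filter] at hs
  unfold Pool.Agent.Lib.SW.Sa
  rw [Finset.mem_filter]
  refine ⟨hs.1, ?_⟩
  have h1 : Nat.Coprime v (Wp w) := (mem_un_coprime.mp hv).2
  have h2 : IsCoprime ((v : ℕ) : ℤ) ((Wp w : ℕ) : ℤ) := Nat.isCoprime_iff_coprime.mpr h1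
  have h3 : ((Wp w : ℕ) : ℤ) ∣ ((a : ℤ) - s) - v := by
    have h4 : (a + 0) ≡ (s + v) [MOD Wp w] := by
      rw [add_zero, ← ha, ← hs.2]
      unfold Nat.ModEq
      rw [Nat.mod_mod, Nat.add_mod (s % Wp w), Nat.mod_mod, ← Nat.add_mod]
    have h5 := (Nat.modEq_iff_dvd).mp h4
    push_cast at h5
    have h6 : ((a : ℤ) - s) - v = -((s : ℤ) + v - (a + 0)) := by ring
    rw [h6]
    exact (dvd_neg).mpr h5
  obtain ⟨k, hk⟩ := h3
  have h4 : ((a : ℤ) - s) = v + (Wp w : ℤ) * k := by linarith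
  rw [h4]
  exact IsCoprime.add_mul_left_left h2 k

theorem ar1 {θ η : ℝ} (h : 0 ≤ θ) (h2 : 5 * θ ≤ η) : (1 - η) * (1 + 3 * θ) ≤ 1 - 2 * θ := by
  nlinarith

theorem ar2 {θ : ℝ} (h : 0 ≤ θ) (h2 : θ ≤ 1 / 4) : 1 + θ ≤ (1 + 3 * θ) * (1 - θ) := by
  nlinarith

theorem ar3 {t : ℝ} (h : 0 ≤ t) : 1 - t ≤ (1 - t / 4) * (1 - t / 4) := by
  nlinarith

theorem ar4 {l : ℝ} (h : 4 ≤ l) : (2 * l) ^ 2 ≤ l ^ 3 := by
  have h4 : 0 ≤ l ^ 2 := by positivity
  nlinarith

theorem ar5 {a b δ Y x : ℝ} (hδ : 0 ≤ δ) (h1 : a ≤ b * δ) (h2 : b ≤ Y) (h3 : δ * Y ≤ x) : a ≤ x := by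
  nlinarith

theorem ar6 {p L : ℝ} (h : 8 ≤ L * p) : 4 ≤ 3 / 4 * (p * L) := by
  linarith

/-- one dyadic block -/
theorem block_lower (K : ℕ) {ε δ : ℝ} (hε : 0 < ε) (hε1 : ε ≤ 1) (hδ : 0 < δ) :
    ∃ X₀ : ℕ, ∀ Y : ℕ, X₀ ≤ Y → ∀ x : ℕ, δ * Y ≤ x → x ≤ Y → ∀ α : ℝ,
      1 / (Real.log Y) ^ K ≤ α → α ≤ 1 → ∀ S : Finset ℕ, (∀ s ∈ S, s.Prime ∧ s ≤ x) →
      α * (Nat.primeCounting x : ℝ) ≤ S.card →
      (1 - ε) * gfun α * (Y / 2) ≤
        (((Ioc Y (2 * Y)).filter (fun N => α * Y / (Real.log Y) ^ 5 ≤ (reps S N : ℝ))).card :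
          ℝ) := by
  obtain ⟨η, hη0, hη2, hgrel⟩ := gfun_rel (show 0 < ε / 4 by positivity)
  obtain ⟨θ, hθ0, hθ4, hθη⟩ : ∃ θ : ℝ, 0 < θ ∧ θ ≤ 1 / 4 ∧ 5 * θ ≤ η := by
    refine ⟨min (1 / 4) (η / 5), by positivity, min_le_left _ _, ?_⟩
    have := min_le_right (1 / 4) (η / 5)
    linarith
  obtain ⟨X₁, hX₁⟩ := Pool.Agent.Lib.SW.class_bad (K + 4) (1 / 2) (ε / 8) (by norm_num)
    (by positivity)
  obtain ⟨X₂, hX₂⟩ := Pool.Agent.Lib.SW.cX_le_log
  obtain ⟨X₃, hX₃⟩ := class_count 3 hθ0 (by linarith)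
  obtain ⟨X₄, hX₄⟩ := Filter.eventually_atTop.mp
    ((Pool.Agent.Lib.SW.eventually_log_ge (max 8 (max (8 / (θ * δ)) (2 * Real.log (1 / δ))))).and
      ((Pool.Agent.Lib.SW.eventually_log_pow 2 (ε / 8) (by positivity)).and
        (Pool.Agent.Lib.SW.eventually_log_pow (K + 2) (θ * δ / 2) (by positivity))))
  obtain ⟨X₅, hX₅⟩ : ∃ X₅ : ℕ, (X₃ : ℝ) / δ ≤ X₅ := exists_nat_ge _
  refine ⟨max (max X₁ X₂) (max X₄ (max X₅ 1)), fun Y hY x hx1 hx2 α hα hα1 S hS hcard => ?_⟩
  have hYa : X₁ ≤ Y := le_trans (le_trans (le_max_left _ _) (le_max_left _ _)) hY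
  have hYb : X₂ ≤ Y := le_trans (le_trans (le_max_right _ _) (le_max_left _ _)) hY
  have hYc : X₄ ≤ Y := le_trans (le_trans (le_max_left _ _) (le_max_right _ _)) hY
  have hYd : X₅ ≤ Y :=
    le_trans (le_trans (le_max_left _ _) (le_trans (le_max_right _ _) (le_max_right _ _))) hY
  have hYe : 1 ≤ Y :=
    le_trans (le_trans (le_max_right _ _) (le_trans (le_max_right _ _) (le_max_right _ _))) hY
  have hYpos : (0 : ℝ) < Y := by exact_mod_cast hYe
  obtain ⟨hLall, hL2, hLK⟩ := hX₄ Y hYc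
  obtain ⟨hcL, hWL⟩ := hX₂ Y hYb
  have hL8 : 8 ≤ Real.log (Y : ℝ) := le_trans (le_max_left _ _) hLall
  have hLθ : 8 / (θ * δ) ≤ Real.log (Y : ℝ) :=
    le_trans (le_trans (le_max_left _ _) (le_max_right _ _)) hLall
  have hLδ : 2 * Real.log (1 / δ) ≤ Real.log (Y : ℝ) :=
    le_trans (le_trans (le_max_right _ _) (le_max_right _ _)) hLall
  have hw2 := two_le_wX hL8
  have hwL := wX_le (show 1 ≤ Real.log (Y : ℝ) by linarith)
  set L : ℝ := Real.log (Y : ℝ) with hLdef
  have hL0 : 0 < L := by linarith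
  have hWpos := WX_pos Y
  have hφpos := WX_totient_pos Y
  have hc1 := one_le_cX Y
  have hWp : Wp (wX Y) = WX Y := rfl
  set w : ℕ := wX Y with hw
  set W : ℕ := WX Y with hW
  have hWr : (0 : ℝ) < W := by exact_mod_cast hWpos
  have hφr : (0 : ℝ) < W.totient := by exact_mod_cast hφpos
  have hφW : (W.totient : ℝ) ≤ W := by exact_mod_cast Nat.totient_le W
  set c : ℝ := cX Y with hc
  have hc0 : 0 < c := by linarith
  have hunc : (un w).card = W.totient := by rw [card_un_totient, hWp]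
  -- the size of x
  have hxpos : (0 : ℝ) < x := lt_of_lt_of_le (by positivity) hx1
  have hxY : (x : ℝ) ≤ Y := by exact_mod_cast hx2
  have hxX₃ : X₃ ≤ x := by
    have h1 : (X₃ : ℝ) ≤ x := by
      rw [div_le_iff₀ hδ] at hX₅
      have h2 : (X₅ : ℝ) ≤ Y := by exact_mod_cast hYd
      exact ar5 hδ.le hX₅ h2 hx1
    exact_mod_cast h1
  have hlx1 : L / 2 ≤ Real.log x := by
    have h1 : Real.log (δ * Y) ≤ Real.log x := Real.log_le_log (by positivity) hx1
    rw [Real.log_mul hδ.ne' hYpos.ne'] at h1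
    have h2 : Real.log (1 / δ) = -Real.log δ := by rw [one_div, Real.log_inv]
    rw [h2] at hLδ
    linarith
  have hlx2 : Real.log x ≤ L := Real.log_le_log hxpos hxY
  have hlx0 : 0 < Real.log x := by linarith
  have hWlx : (W : ℝ) ≤ (Real.log x) ^ 3 := by
    refine hWL.trans ?_
    have h1 : L ^ 2 ≤ (2 * Real.log x) ^ 2 := by gcongr; linarith
    have h2 : (2 * Real.log x) ^ 2 ≤ (Real.log x) ^ 3 := ar4 (by linarith)
    exact h1.trans h2
  -- counting primes
  set π₀ : ℝ := (Nat.primeCounting x : ℝ) with hπ₀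
  have hπ : (1 - θ) * (x / Real.log x) ≤ π₀ := by
    have h1 := (hX₃ x hxX₃ 1 1 le_rfl (by
      rw [Nat.cast_one]
      exact one_le_pow₀ (by linarith)) (Nat.coprime_one_right 1)).1
    rw [Pc_one, Nat.totient_one, Nat.cast_one, div_one] at h1
    exact h1
  have hxl0 : 0 < (x : ℝ) / Real.log x := by positivity
  have hπ0 : 0 < π₀ := lt_of_lt_of_le (mul_pos (by linarith) hxl0) hπ
  have hα0 : 0 < α := lt_of_lt_of_le (by positivity) hα
  have hSα : α * ((3 / 4) * (δ * Y / L)) ≤ (S.card : ℝ) := by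
    refine le_trans (mul_le_mul_of_nonneg_left ?_ hα0.le) hcard
    refine le_trans ?_ hπ
    apply mul_le_mul (by linarith) _ (by positivity) (by linarith)
    exact div_le_div₀ hxpos.le hx1 hlx0 hlx2
  have hScard : 0 < (S.card : ℝ) := lt_of_lt_of_le (by positivity) hSα
  have hwS : (w : ℝ) ≤ θ * S.card := by
    have h1 : 1 / L ^ K * ((3 / 4) * (δ * Y / L)) ≤ (S.card : ℝ) :=
      (mul_le_mul_of_nonneg_right hα (by positivity)).trans hSα
    have h2 : L / θ ≤ 1 / L ^ K * ((3 / 4) * (δ * Y / L)) := by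
      rw [div_le_iff₀ hθ0]
      have h3 : 1 / L ^ K * ((3 / 4) * (δ * Y / L)) * θ = (3 / 4 * (θ * δ * Y)) / L ^ (K + 1) := by
        rw [pow_succ]
        field_simp
      rw [h3, le_div_iff₀ (by positivity)]
      have h4 : L * L ^ (K + 1) = L ^ (K + 2) := by ring
      rw [h4]
      refine hLK.trans ?_
      have : 0 < θ * δ * Y := by positivity
      linarith
    have h5 : L / θ ≤ (S.card : ℝ) := h2.trans h1
    rw [div_le_iff₀ hθ0] at h5
    linarith
  -- the classes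
  set F : ℕ → ℝ := fun u => ((S.filter (fun s => s % Wp w = u)).card : ℝ) with hF
  have hFle : ∀ u ∈ un w, F u ≤ (1 + 3 * θ) * (π₀ / (un w).card) := by
    intro u hu
    have hu' := mem_un_coprime.mp hu
    have h1 : F u ≤ (Pc x W u : ℝ) := by
      rw [hF]
      unfold Pc
      refine Nat.cast_le.mpr (Finset.card_le_card fun s hs => ?_)
      rw [Finset.mem_filter] at hs
      rw [Finset.mem_filter, Finset.mem_Icc]
      refine ⟨⟨(hS s hs.1).1.one_le, (hS s hs.1).2⟩, (hS s hs.1).1, ?_⟩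
      have h2 := hs.2
      rw [hWp] at h2
      have h3 := hu'.1
      rw [hWp] at h3
      show s % W = u % W
      rw [h2, Nat.mod_eq_of_lt h3]
    have h2 := (hX₃ x hxX₃ W u hWpos hWlx (by rw [← hWp]; exact hu'.2)).2
    rw [hunc]
    refine h1.trans (h2.trans ?_)
    have h3 : (1 + θ) * ((x : ℝ) / W.totient / Real.log x) =
        ((1 + θ) * (x / Real.log x)) / W.totient := by ring
    have h4 : (1 + 3 * θ) * (π₀ / W.totient) = ((1 + 3 * θ) * π₀) / W.totient := by ring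
    rw [h3, h4]
    apply div_le_div_of_nonneg_right _ hφr.le
    have h5 : (1 + θ) * (x / Real.log x) ≤ (1 + 3 * θ) * ((1 - θ) * (x / Real.log x)) := by
      rw [← mul_assoc]
      exact mul_le_mul_of_nonneg_right (ar2 hθ0.le hθ4) hxl0.le
    exact h5.trans (mul_le_mul_of_nonneg_left hπ (by linarith))
  have hsum : (1 - θ) * (S.card : ℝ) ≤ ∑ u ∈ un w, F u := by
    have h1 := unit_mass (w := w) (S := S) fun s hs => (hS s hs).1
    refine le_trans ?_ h1
    linarith
  have huncR : ((un w).card : ℝ) = W.totient := by rw [hunc]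
  have hcls := rel_classes (un w) F (s := π₀) (T := S.card) hπ0 hθ0.le (by linarith) hScard.le
    (by rw [hunc]; exact hφpos) hFle hsum hcard
  set Cs := (un w).filter (fun u => θ * ((S.card : ℝ) / (un w).card) ≤ F u) with hCs
  have hg : (1 - ε / 4) * gfun α ≤ lexG (ol (w + 1)) ((Cs.card : ℝ) / (un w).card) := by
    refine (hgrel α hα0 hα1).trans ((gfun_mono ?_).trans (gfun_le (w + 1) _))
    refine le_trans ?_ hcls
    rw [le_div_iff₀ (by linarith)]
    have h1 : (1 - η) * α * (1 + 3 * θ) = ((1 - η) * (1 + 3 * θ)) * α := by ring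
    rw [h1]
    exact mul_le_mul_of_nonneg_right (ar1 hθ0.le hθη) hα0.le
  have hloc := loc_un hw2 Cs (Finset.filter_subset _ _)
  set D := (range (Wp w)).filter (fun c => ∃ u ∈ Cs, ∃ v ∈ un w, (u + v) % Wp w = c) with hD
  have hDcard : (W : ℝ) / 2 * ((1 - ε / 4) * gfun α) ≤ (D.card : ℝ) := by
    refine le_trans ?_ hloc
    rw [hWp]
    exact mul_le_mul_of_nonneg_left hg (by positivity)
  -- lower bound for the classes of D
  have hSa : ∀ a ∈ D, 4 * (α * Y / L ^ 4) ≤ ((Sa W S a).card : ℝ) := by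
    intro a ha
    rw [hD, Finset.mem_filter] at ha
    obtain ⟨_, u, hu, v, hv, huv⟩ := ha
    have h1 : (S.filter (fun s => s % Wp w = u)).card ≤ (Sa (Wp w) S a).card :=
      class_sub_Sa hv huv
    rw [hWp] at h1
    have h2 : F u ≤ ((Sa W S a).card : ℝ) := by
      rw [hF]
      show ((S.filter (fun s => s % Wp w = u)).card : ℝ) ≤ _
      rw [hWp]
      exact_mod_cast h1
    refine le_trans ?_ h2
    have h3 : θ * ((S.card : ℝ) / (un w).card) ≤ F u := (Finset.mem_filter.mp hu).2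
    refine le_trans ?_ h3
    rw [huncR]
    have h4 : α * ((3 / 4) * (δ * Y / L)) / L ^ 2 ≤ (S.card : ℝ) / W.totient :=
      div_le_div₀ hScard.le hSα hφr (hφW.trans hWL)
    refine le_trans ?_ (mul_le_mul_of_nonneg_left h4 hθ0.le)
    have h5 : θ * (α * ((3 / 4) * (δ * Y / L)) / L ^ 2) = (3 / 4 * (θ * δ * L)) * (α * Y / L ^ 4) := by
      field_simp
    rw [h5]
    rw [div_le_iff₀ (by positivity)] at hLθ
    exact mul_le_mul_of_nonneg_right (ar6 hLθ) (by positivity)
  -- good N in the classes of D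
  set T : Finset ℕ := (Ioc Y (2 * Y)).filter (fun N => α * Y / L ^ 5 ≤ (reps S N : ℝ)) with hT
  have hSsub : S ⊆ Icc 1 Y := by
    intro s hs
    rw [Finset.mem_Icc]
    exact ⟨(hS s hs).1.one_le, (hS s hs).2.trans hx2⟩
  have hclass : ∀ a ∈ D, (1 - ε / 4) * (Y / W) ≤ ((T.filter (fun N => N % W = a)).card : ℝ) := by
    intro a ha
    have ha2 := hSa a ha
    rw [hD, Finset.mem_filter, Finset.mem_range, hWp] at ha
    have haW : a % W = a := Nat.mod_eq_of_lt ha.1
    have hbad := hX₁ Y hYa S hSsub a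
    have hYL : (Y : ℝ) / L ^ (K + 4) ≤ ((Sa W S a).card : ℝ) := by
      refine le_trans ?_ ha2
      have h1 : (Y : ℝ) / L ^ (K + 4) = 1 / L ^ K * (Y / L ^ 4) := by
        rw [pow_add]
        field_simp
      rw [h1]
      have h2 : 1 / L ^ K * (Y / L ^ 4) ≤ α * (Y / L ^ 4) :=
        mul_le_mul_of_nonneg_right hα (by positivity)
      have h3 : 0 ≤ α * (Y / L ^ 4) := by positivity
      have h4 : α * Y / L ^ 4 = α * (Y / L ^ 4) := by ring
      rw [h4]
      linarith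
    have hmax : max ((Sa W S a).card : ℝ) (Y / L ^ (K + 4)) = (Sa W S a).card := max_eq_left hYL
    rw [← hLdef, ← hc, ← hW, hmax] at hbad
    set B := (Ioc Y (2 * Y)).filter (fun N => N ≡ a [MOD W] ∧
      1 / 2 * c * ((Sa W S a).card : ℝ) < |rS S N - c * (Sa W S a).card|) with hB
    have hcl := Pool.Agent.Lib.SW.card_class_ge Y W a hWpos
    have hsub : (Ioc Y (2 * Y)).filter (fun N => N ≡ a [MOD W]) ⊆
        B ∪ T.filter (fun N => N % W = a) := by
      intro N hN
      rw [Finset.mem_filter] at hN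
      rw [Finset.mem_union]
      by_cases hb : 1 / 2 * c * ((Sa W S a).card : ℝ) < |rS S N - c * (Sa W S a).card|
      · left
        rw [hB, Finset.mem_filter]
        exact ⟨hN.1, hN.2, hb⟩
      · right
        rw [Finset.mem_filter, hT, Finset.mem_filter]
        refine ⟨⟨hN.1, ?_⟩, ?_⟩
        · have h1 := (abs_le.mp (le_of_not_gt hb)).1
          have h2 : 1 / 2 * (4 * (α * Y / L ^ 4)) ≤ rS S N := by
            have e1 : 4 * (α * Y / L ^ 4) ≤ c * ((Sa W S a).card : ℝ) := by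
              calc 4 * (α * Y / L ^ 4) ≤ 1 * ((Sa W S a).card : ℝ) := by rw [one_mul]; exact ha2
                _ ≤ c * ((Sa W S a).card : ℝ) := by gcongr
            linarith
          have h3 := Pool.Agent.Lib.SW.rS_le S Y N hYe (Finset.mem_Ioc.mp hN.1).2
          rw [← hLdef] at h3
          have h4 : Real.log 2 ≤ L := by
            have := Real.log_two_lt_d9
            linarith
          have h5 : rS S N ≤ 2 * L * reps S N := by
            calc rS S N ≤ (L + Real.log 2) * reps S N := h3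
              _ ≤ (L + L) * reps S N := by gcongr
              _ = 2 * L * reps S N := by ring
          have h6 : α * Y / L ^ 4 ≤ L * reps S N := by linarith
          have h7 : α * Y / L ^ 5 = α * Y / L ^ 4 / L := by
            rw [div_div, ← pow_succ]
          rw [h7, div_le_iff₀ hL0]
          linarith
        · have h8 : N % W = a % W := hN.2
          rw [h8, haW]
    have hle : (((Ioc Y (2 * Y)).filter (fun N => N ≡ a [MOD W])).card : ℝ) ≤
        (B.card : ℝ) + ((T.filter (fun N => N % W = a)).card : ℝ) := by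
      exact_mod_cast le_trans (Finset.card_le_card hsub) (Finset.card_union_le _ _)
    have hone : 1 ≤ ε / 8 * (Y / W) := by
      have e1 : (W : ℝ) ≤ ε / 8 * Y := le_trans hWL hL2
      have e2 : ε / 8 * (Y / W) = (ε / 8 * Y) / W := by ring
      rw [e2, one_le_div hWr]
      exact e1
    have e3 : (1 - ε / 4) * ((Y : ℝ) / W) = Y / W - ε / 8 * (Y / W) - ε / 8 * (Y / W) := by ring
    linarith
  have hsumT : ∑ a ∈ D, ((T.filter (fun N => N % W = a)).card : ℝ) ≤ (T.card : ℝ) := by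
    have h1 : ∑ a ∈ D, (T.filter (fun N => N % W = a)).card =
        (D.biUnion (fun a => T.filter (fun N => N % W = a))).card := by
      rw [Finset.card_biUnion]
      intro a _ b _ hab
      rw [Function.onFun, Finset.disjoint_left]
      intro N hN hN2
      rw [Finset.mem_filter] at hN hN2
      exact hab (hN.2.symm.trans hN2.2)
    have h2 : (D.biUnion (fun a => T.filter (fun N => N % W = a))).card ≤ T.card := by
      apply Finset.card_le_card
      intro N hN
      rw [Finset.mem_biUnion] at hN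
      obtain ⟨a, _, ha⟩ := hN
      exact (Finset.mem_filter.mp ha).1
    rw [← h1] at h2
    exact_mod_cast h2
  have hgn := gfun_nonneg α
  calc (1 - ε) * gfun α * (Y / 2) ≤ ((1 - ε / 4) * (1 - ε / 4)) * (gfun α * (Y / 2)) := by
        rw [mul_assoc]
        exact mul_le_mul_of_nonneg_right (ar3 hε.le) (by positivity)
    _ = ((W : ℝ) / 2 * ((1 - ε / 4) * gfun α)) * ((1 - ε / 4) * (Y / W)) := by
        field_simp
    _ ≤ (D.card : ℝ) * ((1 - ε / 4) * (Y / W)) := by
        apply mul_le_mul_of_nonneg_right hDcard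
        have : 0 ≤ 1 - ε / 4 := by linarith
        positivity
    _ = ∑ _a ∈ D, (1 - ε / 4) * (Y / W) := by rw [Finset.sum_const, nsmul_eq_mul]
    _ ≤ ∑ a ∈ D, ((T.filter (fun N => N % W = a)).card : ℝ) := Finset.sum_le_sum hclass
    _ ≤ (T.card : ℝ) := hsumT

end Pool.Agent.Lib.MP_7b7e48_nt.LX
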