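import Pool.Agent.Lib.MP_7b7e48_nt.LX.RelLow

/-!
# MP_7b7e48_nt : the uniform lower bound, all scales (helper81)
-/

namespace Pool.Agent.Lib.MP_7b7e48_nt.LX

open Finset Pool.Agent.Lib.GT Pool.Agent.Lib.GT.LA Pool.Agent.Lib.GT.Robust
open Pool.Agent.Lib.MP_7b7e48_nt.SP
open Pool.Agent.Lib.SW (reps)

/-- from dyadic blocks to an interval -/
theorem dyadic {ε : ℝ} (hε : 0 < ε) (hε1 : ε < 1) : ∃ X₀ : ℕ, ∀ X : ℕ, X₀ ≤ X →
    ∀ (P : ℕ → Prop) [DecidablePred P] (c : ℝ), 0 ≤ c →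
      (∀ Y : ℕ, ε / 8 * X ≤ Y → Y ≤ X → c * Y ≤ (((Ioc Y (2 * Y)).filter P).card : ℝ)) →
      (∀ N : ℕ, P N → N % 2 = 0) →
      2 * c * (1 - ε) * X ≤ (((Icc 1 X).filter (fun n => P (2 * n))).card : ℝ) := by
  obtain ⟨n, hn1, hn2⟩ := exists_nat_pow_near_of_lt_one (x := ε / 4) (y := (1 / 2 : ℝ))
    (by positivity) (by linarith) (by norm_num) (by norm_num)
  obtain ⟨X₀, hX₀⟩ : ∃ X₀ : ℕ, max (16 / ε) (2 * (n + 1) / ε) ≤ X₀ := exists_nat_ge _
  refine ⟨X₀, fun X hX P _ c hc hblock heven => ?_⟩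
  have hXX : (X₀ : ℝ) ≤ X := by exact_mod_cast hX
  have hXe1 : 16 / ε ≤ (X : ℝ) := (le_max_left _ _).trans (hX₀.trans hXX)
  have hXe3 : 2 * (n + 1) / ε ≤ (X : ℝ) := (le_max_right _ _).trans (hX₀.trans hXX)
  have hXpos : (0 : ℝ) < X := lt_of_lt_of_le (by positivity) hXe1
  have hYlow : ∀ j : ℕ, j ≤ n → ε / 8 * X ≤ ((X / 2 ^ j : ℕ) : ℝ) := by
    intro j hj
    have h1 : (X : ℝ) / 2 ^ j - 1 ≤ ((X / 2 ^ j : ℕ) : ℝ) := by
      have h2 := Nat.lt_div_mul_add (a := X) (b := 2 ^ j) (by positivity)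
      have h3 : (X : ℝ) < ((X / 2 ^ j : ℕ) : ℝ) * 2 ^ j + 2 ^ j := by exact_mod_cast h2
      have h4 : (0 : ℝ) < 2 ^ j := by positivity
      rw [sub_le_iff_le_add, div_le_iff₀ h4]
      linarith
    have h5 : ε / 4 * X ≤ (X : ℝ) / 2 ^ j := by
      have h6 : ε / 4 ≤ 1 / 2 ^ j := by
        calc ε / 4 ≤ (1 / 2) ^ n := hn2
          _ ≤ (1 / 2) ^ j := pow_le_pow_of_le_one (by norm_num) (by norm_num) hj
          _ = 1 / 2 ^ j := by rw [div_pow, one_pow]
      calc ε / 4 * X ≤ 1 / 2 ^ j * X := by gcongr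
        _ = (X : ℝ) / 2 ^ j := by ring
    have h7 : 1 ≤ ε / 8 * X := by
      rw [div_le_iff₀ hε] at hXe1
      linarith
    linarith
  have hYup : ∀ j : ℕ, X / 2 ^ j ≤ X := fun j => Nat.div_le_self _ _
  have hdy : ∀ j ∈ range (n + 1), c * ((X / 2 ^ j : ℕ) : ℝ) ≤
      (((Ioc (X / 2 ^ j) (2 * (X / 2 ^ j))).filter P).card : ℝ) := by
    intro j hj
    rw [Finset.mem_range] at hj
    exact hblock _ (hYlow j (by omega)) (hYup j)
  have hdisj : ∀ i ∈ range (n + 1), ∀ j ∈ range (n + 1), i ≠ j →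
      Disjoint ((Ioc (X / 2 ^ i) (2 * (X / 2 ^ i))).filter P)
        ((Ioc (X / 2 ^ j) (2 * (X / 2 ^ j))).filter P) := by
    have key : ∀ i j : ℕ, i < j → 2 * (X / 2 ^ j) ≤ X / 2 ^ i := by
      intro i j hij
      have h1 : X / 2 ^ j ≤ X / 2 ^ (i + 1) :=
        Nat.div_le_div_left (Nat.pow_le_pow_right (by norm_num) hij) (by positivity)
      have h2 : X / 2 ^ (i + 1) = X / 2 ^ i / 2 := by
        rw [pow_succ, Nat.div_div_eq_div_mul]
      omega
    intro i _ j _ hij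
    rw [Finset.disjoint_left]
    intro N hN hN2
    rw [Finset.mem_filter, Finset.mem_Ioc] at hN hN2
    rcases lt_or_gt_of_ne hij with h | h
    · have := key i j h
      omega
    · have := key j i h
      omega
  set A := (range (n + 1)).biUnion (fun j =>
    (Ioc (X / 2 ^ j) (2 * (X / 2 ^ j))).filter P) with hA
  have hAcard : (A.card : ℝ) = ∑ j ∈ range (n + 1),
      (((Ioc (X / 2 ^ j) (2 * (X / 2 ^ j))).filter P).card : ℝ) := by
    rw [hA, Finset.card_biUnion hdisj]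
    push_cast
    rfl
  have hhalf : A.card ≤ ((Icc 1 X).filter (fun n => P (2 * n))).card := by
    have hev : ∀ N ∈ A, N % 2 = 0 ∧ 0 < N ∧ N ≤ 2 * X ∧ P N := by
      intro N hN
      rw [hA, Finset.mem_biUnion] at hN
      obtain ⟨j, _, hN⟩ := hN
      rw [Finset.mem_filter, Finset.mem_Ioc] at hN
      have h1 := hYup j
      exact ⟨heven N hN.2, by omega, by omega, hN.2⟩
    apply Finset.card_le_card_of_injOn (fun N => N / 2)
    · intro N hN
      obtain ⟨h1, h2, h3, h4⟩ := hev N hN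
      have h5 : 2 * (N / 2) = N := by omega
      rw [Finset.mem_coe, Finset.mem_filter, Finset.mem_Icc]
      refine ⟨⟨?_, ?_⟩, ?_⟩
      · show 1 ≤ N / 2
        omega
      · show N / 2 ≤ X
        omega
      · show P (2 * (N / 2))
        rw [h5]
        exact h4
    · intro N hN M hM hNM
      obtain ⟨h1, _⟩ := hev N hN
      obtain ⟨h2, _⟩ := hev M hM
      have h3 : N / 2 = M / 2 := hNM
      omega
  have hsumY : 2 * (1 - ε / 4) * X - (n + 1) ≤ ∑ j ∈ range (n + 1), ((X / 2 ^ j : ℕ) : ℝ) := by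
    have h1 : ∀ j ∈ range (n + 1), (X : ℝ) * (1 / 2) ^ j - 1 ≤ ((X / 2 ^ j : ℕ) : ℝ) := by
      intro j _
      have h2 := Nat.lt_div_mul_add (a := X) (b := 2 ^ j) (by positivity)
      have h3 : (X : ℝ) < ((X / 2 ^ j : ℕ) : ℝ) * 2 ^ j + 2 ^ j := by exact_mod_cast h2
      have h4 : (0 : ℝ) < 2 ^ j := by positivity
      have h5 : (X : ℝ) * (1 / 2) ^ j = X / 2 ^ j := by
        rw [div_pow, one_pow]
        ring
      rw [h5, sub_le_iff_le_add, div_le_iff₀ h4]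
      linarith
    have h6 : ∑ j ∈ range (n + 1), ((X : ℝ) * (1 / 2) ^ j - 1) =
        X * (2 * (1 - (1 / 2) ^ (n + 1))) - (n + 1) := by
      rw [Finset.sum_sub_distrib, ← Finset.mul_sum, geom_sum_eq (by norm_num)]
      rw [Finset.sum_const, Finset.card_range, nsmul_eq_mul, mul_one]
      push_cast
      ring
    calc 2 * (1 - ε / 4) * X - (n + 1) = X * (2 * (1 - ε / 4)) - (n + 1) := by ring
      _ ≤ X * (2 * (1 - (1 / 2) ^ (n + 1))) - (n + 1) := by
          have : 1 - ε / 4 ≤ 1 - (1 / 2 : ℝ) ^ (n + 1) := by linarith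
          gcongr
      _ = ∑ j ∈ range (n + 1), ((X : ℝ) * (1 / 2) ^ j - 1) := h6.symm
      _ ≤ _ := Finset.sum_le_sum h1
  have hfin : 2 * (1 - ε) * X ≤ 2 * (1 - ε / 4) * X - (n + 1) := by
    have h1 : (n + 1 : ℝ) ≤ ε / 2 * X := by
      rw [div_le_iff₀ hε] at hXe3
      linarith
    nlinarith
  calc 2 * c * (1 - ε) * X = c * (2 * (1 - ε) * X) := by ring
    _ ≤ c * ∑ j ∈ range (n + 1), ((X / 2 ^ j : ℕ) : ℝ) :=
        mul_le_mul_of_nonneg_left (hfin.trans hsumY) hc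
    _ = ∑ j ∈ range (n + 1), c * ((X / 2 ^ j : ℕ) : ℝ) := by rw [Finset.mul_sum]
    _ ≤ ∑ j ∈ range (n + 1), (((Ioc (X / 2 ^ j) (2 * (X / 2 ^ j))).filter P).card : ℝ) :=
        Finset.sum_le_sum hdy
    _ = (A.card : ℝ) := hAcard.symm
    _ ≤ _ := by exact_mod_cast hhalf

/-- the number of representations with two different primes -/
def reps' (A : Finset ℕ) (N : ℕ) : ℕ :=
  (A.filter fun a => a < N ∧ (N - a).Prime ∧ N - a ≠ a).card

theorem reps_le_reps' (A : Finset ℕ) (N : ℕ) : reps A N ≤ reps' A N + 1 := by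
  unfold Pool.Agent.Lib.SW.reps reps'
  have h : A.filter (fun s => s < N ∧ (N - s).Prime) ⊆
      insert (N / 2) (A.filter fun a => a < N ∧ (N - a).Prime ∧ N - a ≠ a) := by
    intro s hs
    rw [Finset.mem_filter] at hs
    rw [Finset.mem_insert, Finset.mem_filter]
    by_cases h : N - s = s
    · left
      omega
    · right
      exact ⟨hs.1, hs.2.1, hs.2.2, h⟩
  exact (Finset.card_le_card h).trans (Finset.card_insert_le _ _)

theorem reps'_le (A : Finset ℕ) (N : ℕ) : reps' A N ≤ reps A N := by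
  unfold Pool.Agent.Lib.SW.reps reps'
  apply Finset.card_le_card
  intro s hs
  rw [Finset.mem_filter] at hs ⊢
  exact ⟨hs.1, hs.2.1, hs.2.2.1⟩

/-- **The uniform lower bound.** -/
theorem lower_uniform {ε : ℝ} (hε : 0 < ε) : ∃ δ : ℝ, 0 < δ ∧ δ ≤ 1 ∧ ∀ K : ℕ, ∃ X₀ : ℕ,
    ∀ X : ℕ, X₀ ≤ X → ∀ α : ℝ, 1 / (Real.log X) ^ K ≤ α → α ≤ 1 → ∀ A : Finset ℕ,
      (∀ a ∈ A, a.Prime ∧ (a : ℝ) ≤ δ * X) →
      α * (Nat.primeCounting ⌊δ * X⌋₊ : ℝ) ≤ A.card →
      (1 - ε) * gfun α * X ≤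
        (((Icc 1 X).filter fun n => α * X / Real.log X ^ 6 ≤ (reps' A (2 * n) : ℝ)).card : ℝ) := by
  obtain ⟨e, he0, he1, heε⟩ : ∃ e : ℝ, 0 < e ∧ e < 1 ∧ 2 * e ≤ ε := by
    refine ⟨min (1 / 2) (ε / 2), by positivity, ?_, ?_⟩
    · exact (min_le_left _ _).trans_lt (by norm_num)
    · have := min_le_right (1 / 2) (ε / 2)
      linarith
  refine ⟨e / 8, by positivity, by linarith, fun K => ?_⟩
  set δ : ℝ := e / 8 with hδ
  have hδ0 : 0 < δ := by positivity
  obtain ⟨X₁, hX₁⟩ := block_lower (K + 1) he0 he1.le (show 0 < δ / 2 by positivity)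
  obtain ⟨X₂, hX₂⟩ := dyadic he0 he1
  obtain ⟨X₃, hX₃⟩ := Filter.eventually_atTop.mp
    ((Pool.Agent.Lib.SW.eventually_log_ge (max (2 / δ) (max (2 ^ (K + 1))
      (2 * Real.log (1 / δ))))).and
      (Pool.Agent.Lib.SW.eventually_log_pow (K + 6) (1 / 3) (by norm_num)))
  obtain ⟨X₄, hX₄⟩ : ∃ X₄ : ℕ, ((X₁ : ℝ) + 2) / δ ≤ X₄ := exists_nat_ge _
  refine ⟨max (max X₂ X₃) (max X₄ 2), fun X hX α hα hα1 A hA hcA => ?_⟩
  have hXa : X₂ ≤ X := le_trans (le_trans (le_max_left _ _) (le_max_left _ _)) hX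
  have hXb : X₃ ≤ X := le_trans (le_trans (le_max_right _ _) (le_max_left _ _)) hX
  have hXc : X₄ ≤ X := le_trans (le_trans (le_max_left _ _) (le_max_right _ _)) hX
  have hXd : 2 ≤ X := le_trans (le_trans (le_max_right _ _) (le_max_right _ _)) hX
  have hX2 : (2 : ℝ) ≤ X := by exact_mod_cast hXd
  have hXpos : (0 : ℝ) < X := by linarith
  obtain ⟨hL, hL6⟩ := hX₃ X hXb
  have hLe1 : 2 / δ ≤ Real.log (X : ℝ) := le_trans (le_max_left _ _) hL
  have hLe2 : (2 : ℝ) ^ (K + 1) ≤ Real.log (X : ℝ) :=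
    le_trans (le_trans (le_max_left _ _) (le_max_right _ _)) hL
  have hLe3 : 2 * Real.log (1 / δ) ≤ Real.log (X : ℝ) :=
    le_trans (le_trans (le_max_right _ _) (le_max_right _ _)) hL
  have hδX : (X₁ : ℝ) + 2 ≤ δ * X := by
    rw [div_le_iff₀ hδ0] at hX₄
    have : (X₄ : ℝ) ≤ X := by exact_mod_cast hXc
    nlinarith
  set L : ℝ := Real.log (X : ℝ) with hLdef
  have hL1 : 1 ≤ L := le_trans (one_le_pow₀ (by norm_num)) hLe2
  have hL0 : 0 < L := by linarith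
  have hα0 : 0 < α := lt_of_lt_of_le (by positivity) hα
  set TT : ℝ := α * X / L ^ 6 with hTT
  have hTT3 : 3 ≤ TT := by
    rw [hTT, le_div_iff₀ (by positivity)]
    have h1 : 1 / L ^ K * X ≤ α * X := mul_le_mul_of_nonneg_right hα hXpos.le
    refine le_trans ?_ h1
    rw [one_div_mul_eq_div, le_div_iff₀ (by positivity)]
    have h2 : 3 * L ^ 6 * L ^ K = 3 * L ^ (K + 6) := by ring
    rw [h2]
    linarith
  set x : ℕ := ⌊δ * X⌋₊ with hx
  have hxle : (x : ℝ) ≤ δ * X := Nat.floor_le (by positivity)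
  have hxge : δ / 2 * X ≤ (x : ℝ) := by
    have h1 := Nat.lt_floor_add_one (δ * X)
    rw [← hx] at h1
    have h2 : (0 : ℝ) ≤ X₁ := Nat.cast_nonneg _
    linarith
  have hAp : ∀ s ∈ A, s.Prime ∧ s ≤ x := fun s hs => ⟨(hA s hs).1, Nat.le_floor (hA s hs).2⟩
  have hblock : ∀ Y : ℕ, e / 8 * X ≤ Y → Y ≤ X → ((1 - e) * gfun α / 2) * Y ≤
      (((Ioc Y (2 * Y)).filter (fun N => TT ≤ (reps' A N : ℝ))).card : ℝ) := by
    intro Y hY1 hY2
    have hYX : (Y : ℝ) ≤ X := by exact_mod_cast hY2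
    have hYpos : (0 : ℝ) < Y := lt_of_lt_of_le (by positivity) hY1
    have hYX₁ : X₁ ≤ Y := by
      have h1 : (X₁ : ℝ) ≤ Y := by
        rw [← hδ] at hY1
        linarith
      exact_mod_cast h1
    have hxY : x ≤ Y := by
      have h1 : (x : ℝ) ≤ Y := hxle.trans hY1
      exact_mod_cast h1
    have hlY1 : L / 2 ≤ Real.log (Y : ℝ) := by
      have h1 : Real.log (δ * X) ≤ Real.log (Y : ℝ) := Real.log_le_log (by positivity) hY1
      rw [Real.log_mul hδ0.ne' hXpos.ne'] at h1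
      have h2 : Real.log (1 / δ) = -Real.log δ := by rw [one_div, Real.log_inv]
      rw [h2] at hLe3
      linarith
    have hlY2 : Real.log (Y : ℝ) ≤ L := Real.log_le_log hYpos hYX
    have hlY0 : 0 < Real.log (Y : ℝ) := by linarith
    have hαY : 1 / (Real.log Y) ^ (K + 1) ≤ α := by
      refine le_trans ?_ hα
      apply one_div_le_one_div_of_le (by positivity)
      calc L ^ K = L ^ K * 2 ^ (K + 1) / 2 ^ (K + 1) := by field_simp
        _ ≤ L ^ K * L / 2 ^ (K + 1) := by gcongr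
        _ = (L / 2) ^ (K + 1) := by rw [div_pow, pow_succ L K]
        _ ≤ (Real.log (Y : ℝ)) ^ (K + 1) := by gcongr
    have hmain := hX₁ Y hYX₁ x (by
      refine le_trans ?_ hxge
      exact mul_le_mul_of_nonneg_left hYX (by positivity)) hxY α hαY hα1 A hAp hcA
    have h0 : ((1 - e) * gfun α / 2) * Y = (1 - e) * gfun α * (Y / 2) := by ring
    rw [h0]
    refine hmain.trans (Nat.cast_le.mpr (Finset.card_le_card fun N hN => ?_))
    rw [Finset.mem_filter] at hN ⊢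
    refine ⟨hN.1, ?_⟩
    have h1 : (reps A N : ℝ) ≤ reps' A N + 1 := by exact_mod_cast reps_le_reps' A N
    have h2 : 2 * TT ≤ α * Y / (Real.log Y) ^ 5 := by
      have h3 : α * (δ * X) / L ^ 5 ≤ α * Y / (Real.log Y) ^ 5 := by
        apply div_le_div₀ (by positivity) (mul_le_mul_of_nonneg_left hY1 hα0.le) (by positivity)
        gcongr
      refine le_trans ?_ h3
      have h4 : α * (δ * X) / L ^ 5 = (δ * L) * TT := by
        rw [hTT]
        field_simp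
      rw [h4]
      apply mul_le_mul_of_nonneg_right _ (by linarith)
      rw [div_le_iff₀ hδ0] at hLe1
      linarith
    linarith [hN.2]
  have heven : ∀ N : ℕ, TT ≤ (reps' A N : ℝ) → N % 2 = 0 := by
    intro N hN
    by_contra hodd
    have h3 := Pool.Agent.Lib.SW.reps_odd A (fun s hs => (hA s hs).1) N (by omega)
    have h4 : (reps' A N : ℝ) ≤ 2 := by exact_mod_cast (reps'_le A N).trans h3
    linarith
  have hg := gfun_nonneg α
  have hfin := hX₂ X hXa (fun N => TT ≤ (reps' A N : ℝ)) ((1 - e) * gfun α / 2)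
    (by
      have : 0 ≤ 1 - e := by linarith
      positivity) hblock heven
  refine le_trans ?_ hfin
  have h1 : 2 * ((1 - e) * gfun α / 2) * (1 - e) * X = ((1 - e) * (1 - e)) * (gfun α * X) := by ring
  rw [h1, mul_assoc]
  apply mul_le_mul_of_nonneg_right _ (by positivity)
  nlinarith

end Pool.Agent.Lib.MP_7b7e48_nt.LX
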