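import Pool.Agent.Lib.MP_7b7e48_nt.LX.Rel2
import Pool.Agent.Lib.MP_7b7e48_nt.GT.Corr

/-!
# MP_7b7e48_nt : the uniform upper bound (helper81)
-/

namespace Pool.Agent.Lib.MP_7b7e48_nt.LX

open Finset Pool.Agent.Lib.GT Pool.Agent.Lib.GT.LA Pool.Agent.Lib.GT.Robust
open Pool.Agent.Lib.MP_7b7e48_nt.SP

theorem rho_ge : ∀ (L : List ℕ), (∀ q ∈ L, 3 ≤ q) → ∀ x : ℝ, 0 ≤ x → x ≤ 1 →
    x ≤ rho (fun x => 0 < x) L x
  | [], _, x, h0, h1 => by
    unfold rho
    split_ifs with h
    · exact h1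
    · linarith
  | q :: L, h, x, h0, h1 => by
    have hL : ∀ r ∈ L, 3 ≤ r := fun r hr => h r (by simp [hr])
    have hq : (3 : ℝ) ≤ q := by exact_mod_cast h q (by simp)
    have hq1 : (0 : ℝ) < (q : ℝ) - 1 := by linarith
    have hq2 : (0 : ℝ) < (q : ℝ) - 2 := by linarith
    unfold rho
    split_ifs with hw
    · have ih := rho_ge L hL (((q : ℝ) - 1) * x) (by positivity) hw
      rw [le_div_iff₀ hq1]
      linarith
    · push Not at hw
      have ih := rho_ge L hL ((((q : ℝ) - 1) * x - 1) / ((q : ℝ) - 2))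
        (div_nonneg (by linarith) hq2.le) (by rw [div_le_one hq2]; nlinarith)
      rw [le_div_iff₀ hq1]
      have h2 := mul_le_mul_of_nonneg_left ih hq2.le
      have h3 : ((q : ℝ) - 2) * ((((q : ℝ) - 1) * x - 1) / ((q : ℝ) - 2)) =
          ((q : ℝ) - 1) * x - 1 := by field_simp
      linarith

/-- the scale of the extremal set -/
theorem exists_scale (K M : ℕ) {e : ℝ} (he : 0 < e) : ∃ X₀ : ℕ, ∀ X : ℕ, X₀ ≤ X → ∃ κ : ℕ,
    M ≤ κ ∧ 2 ≤ κ ∧ av (κ + 1) ≤ 1 / (Real.log X) ^ K ∧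
    (Wp κ : ℝ) ≤ (Real.log X) ^ (12 * K + 1) ∧ 2 * ((κ : ℝ) + 1) ^ 2 ≤ e * Real.log X := by
  obtain ⟨N₀, hN₀⟩ := log_av_low
  set M' := max (max N₀ M) 2 with hM'
  set D : ℝ := 8 * K + M' + 3 with hD
  have hD0 : 0 < D := by positivity
  have hlog : Filter.Tendsto (fun X : ℕ => Real.log (X : ℝ)) Filter.atTop Filter.atTop :=
    Real.tendsto_log_atTop.comp tendsto_natCast_atTop_atTop
  have hll : Filter.Tendsto (fun X : ℕ => Real.log (Real.log (X : ℝ))) Filter.atTop Filter.atTop :=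
    Real.tendsto_log_atTop.comp hlog
  have h2 : ∀ᶠ l : ℝ in Filter.atTop, (Real.log l) ^ 2 ≤ e / (2 * D ^ 2) * l := by
    have h3 := Real.tendsto_pow_log_div_mul_add_atTop 1 0 2 one_ne_zero
    have h4 := h3.eventually (gt_mem_nhds (show 0 < e / (2 * D ^ 2) by positivity))
    filter_upwards [h4, Filter.eventually_gt_atTop 0] with l hl hl0
    rw [one_mul, add_zero, div_lt_iff₀ hl0] at hl
    exact hl.le
  obtain ⟨X₀, hX₀⟩ := Filter.eventually_atTop.mp ((hlog.eventually h2).and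
    ((hll.eventually_ge_atTop (max 1 (3 / 2 * (M' + 1)))).and (hlog.eventually_ge_atTop 1)))
  refine ⟨X₀, fun X hX => ?_⟩
  obtain ⟨hsq, hLL, hL1⟩ := hX₀ X hX
  set L : ℝ := Real.log (X : ℝ) with hL
  have hL0 : 0 < L := by linarith
  have hLL1 : 1 ≤ Real.log L := (le_max_left _ _).trans hLL
  have hLL2 : 3 / 2 * ((M' : ℝ) + 1) ≤ Real.log L := (le_max_right _ _).trans hLL
  set κ : ℕ := ⌈8 * K * Real.log L⌉₊ + M' with hκ
  have hκ1 : 8 * K * Real.log L ≤ κ := by
    have := Nat.le_ceil (8 * K * Real.log L)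
    rw [hκ]
    push_cast
    have : (0 : ℝ) ≤ M' := Nat.cast_nonneg _
    linarith
  have hκ2 : (κ : ℝ) ≤ 8 * K * Real.log L + 1 + M' := by
    have := Nat.ceil_lt_add_one (show 0 ≤ 8 * K * Real.log L by positivity)
    rw [hκ]
    push_cast
    linarith
  have hM'κ : M' ≤ κ := Nat.le_add_left _ _
  refine ⟨κ, ((le_max_right _ _).trans (le_max_left _ _)).trans hM'κ,
    (le_max_right _ _).trans hM'κ, ?_, ?_, ?_⟩
  · have h3 := hN₀ κ (((le_max_left _ _).trans (le_max_left _ _)).trans hM'κ)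
    have h4 : Real.log (L ^ K) ≤ Real.log (1 / av (κ + 1)) := by
      rw [Real.log_pow]
      linarith
    have h5 := (Real.log_le_log_iff (by positivity) (one_div_pos.mpr (av_pos _))).mp h4
    rw [le_div_iff₀ (by positivity)]
    rw [le_div_iff₀ (av_pos _)] at h5
    linarith
  · have h3 : (Wp κ : ℝ) ≤ 4 ^ κ := by
      have : Wp κ = primorial κ := rfl
      rw [this]
      exact_mod_cast primorial_le_four_pow κ
    refine h3.trans ?_
    rw [← Real.log_le_log_iff (by positivity) (by positivity), Real.log_pow, Real.log_pow]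
    have h4 : Real.log 4 ≤ 3 / 2 := by
      have h6 : Real.log 4 = 2 * Real.log 2 := by
        rw [show (4 : ℝ) = 2 ^ 2 by norm_num, Real.log_pow]
        norm_num
      have := Real.log_two_lt_d9
      linarith
    have h5 : (κ : ℝ) * Real.log 4 ≤ (8 * K * Real.log L + 1 + M') * (3 / 2) :=
      mul_le_mul hκ2 h4 (Real.log_nonneg (by norm_num)) (by positivity)
    push_cast
    linarith
  · have h3 : (κ : ℝ) + 1 ≤ D * Real.log L := by
      rw [hD]
      have h4 : (0 : ℝ) ≤ M' := Nat.cast_nonneg _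
      nlinarith
    have h4 : ((κ : ℝ) + 1) ^ 2 ≤ (D * Real.log L) ^ 2 := by gcongr
    calc 2 * ((κ : ℝ) + 1) ^ 2 ≤ 2 * (D * Real.log L) ^ 2 := by linarith
      _ = 2 * D ^ 2 * (Real.log L) ^ 2 := by ring
      _ ≤ 2 * D ^ 2 * (e / (2 * D ^ 2) * L) := by gcongr
      _ = e * L := by field_simp

open Classical in
/-- the set of the first classes -/
noncomputable def eSet (κ : ℕ) (α : ℝ) (x : ℕ) : Finset ℕ :=
  (Icc 1 x).filter (fun p => p.Prime ∧ memA (fun x => 0 < x) (ol (κ + 1)) α p)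

open Classical in
theorem eSet_lower {κ : ℕ} (hκ : 2 ≤ κ) {α : ℝ} (h0 : 0 ≤ α) (h1 : α ≤ 1) {x Y : ℕ} (hY : Y ≤ x)
    {t : ℝ} (ht : 0 ≤ t)
    (hcl : ∀ u : ℕ, Nat.Coprime u (Wp κ) → t / (Wp κ).totient ≤ (Pc Y (Wp κ) u : ℝ)) :
    α * t ≤ (((eSet κ α x).filter (· ≤ Y)).card : ℝ) := by
  have hdvd : ∀ q ∈ ol (κ + 1), q ∣ Wp κ := fun q hq => by
    rw [mem_ol] at hq
    exact dvd_Wp (mem_pr.2 ⟨by omega, hq.2.1⟩)
  have hφ : (0 : ℝ) < (Wp κ).totient := by exact_mod_cast Nat.totient_pos.mpr (Wp_pos κ)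
  set S := (un κ).filter (fun u => memA (fun x => 0 < x) (ol (κ + 1)) α u) with hS
  have h2 : ((S.card : ℝ)) / (Wp κ).totient = rho (fun x => 0 < x) (ol (κ + 1)) α := by
    rw [← un_memA hκ, card_un_totient]
  have h3 := rho_ge (ol (κ + 1)) (fun q hq => (ol_three q hq).2) α h0 h1
  have h4 : ∑ u ∈ S, Pc Y (Wp κ) u ≤ ((eSet κ α x).filter (· ≤ Y)).card := by
    unfold Pc
    rw [← Finset.card_biUnion]
    · apply Finset.card_le_card
      intro p hp
      rw [Finset.mem_biUnion] at hp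
      obtain ⟨u, hu, hp⟩ := hp
      rw [Finset.mem_filter, Finset.mem_Icc] at hp
      rw [hS, Finset.mem_filter, mem_un_coprime] at hu
      rw [Finset.mem_filter]
      unfold eSet
      rw [Finset.mem_filter, Finset.mem_Icc]
      refine ⟨⟨⟨hp.1.1, hp.1.2.trans hY⟩, hp.2.1, ?_⟩, hp.1.2⟩
      rw [← memA_mod _ _ _ hdvd]
      have h5 : p % Wp κ = u % Wp κ := hp.2.2
      rw [h5, Nat.mod_eq_of_lt hu.1.1]
      exact hu.2
    · intro u hu v hv huv
      rw [Function.onFun, Finset.disjoint_left]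
      intro p hp hp2
      rw [Finset.mem_filter] at hp hp2
      apply huv
      rw [hS, Finset.mem_coe, Finset.mem_filter, mem_un_coprime] at hu hv
      have h5 : p % Wp κ = u % Wp κ := hp.2.2
      have h6 : p % Wp κ = v % Wp κ := hp2.2.2
      rw [Nat.mod_eq_of_lt hu.1.1] at h5
      rw [Nat.mod_eq_of_lt hv.1.1] at h6
      exact h5.symm.trans h6
  have h5 : (S.card : ℝ) * (t / (Wp κ).totient) ≤ ∑ u ∈ S, (Pc Y (Wp κ) u : ℝ) := by
    rw [← nsmul_eq_mul]
    refine Finset.card_nsmul_le_sum _ _ _ fun u hu => ?_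
    rw [hS, Finset.mem_filter, mem_un_coprime] at hu
    exact hcl u hu.1.2
  calc α * t ≤ (S.card : ℝ) / (Wp κ).totient * t := by
        rw [h2]
        exact mul_le_mul_of_nonneg_right h3 ht
    _ = (S.card : ℝ) * (t / (Wp κ).totient) := by ring
    _ ≤ _ := h5
    _ ≤ _ := by exact_mod_cast h4

open Classical in
theorem eSet_sum {κ : ℕ} (hκ : 2 ≤ κ) {α : ℝ} {X : ℕ} {B : Finset ℕ} (hB : B ⊆ Icc 1 X)
    (hBA : ∀ n ∈ B, ∃ a ∈ eSet κ α (2 * X), ∃ p : ℕ, p.Prime ∧ a + p = 2 * n) :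
    (B.card : ℝ) ≤
      (X + Wp κ) * lexG (ol (κ + 1)) α + Nat.primeCounting (2 * X) * (κ + 1) := by
  set L := ol (κ + 1) with hL
  have hL3 := fun q hq => ol_three (n := κ + 1) q hq
  set m := L.prod with hm
  have hm0 : 0 < m := list_prod_pos fun q hq => (hL3 q hq).1
  have hodd : Nat.Coprime m 2 := by
    rw [Nat.coprime_comm]
    exact coprime_prod Nat.prime_two (fun r hr => (ol_three r hr).1) (by rw [hL, mem_ol]; tauto)
  have hdvd : ∀ q ∈ L, q ∣ m := fun q hq => List.dvd_prod hq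
  set E : Finset ℕ := (((range (2 * X + 1)).filter Nat.Prime) ×ˢ (range (κ + 1))).image
    (fun x => (x.1 + x.2) / 2) with hE
  have hEc : (E.card : ℝ) ≤ Nat.primeCounting (2 * X) * (κ + 1) := by
    have h1 : E.card ≤ Nat.primeCounting (2 * X) * (κ + 1) := by
      refine Finset.card_image_le.trans ?_
      rw [Finset.card_product, Finset.card_range, Nat.primeCounting, Nat.primeCounting',
        Nat.count_eq_card_filter_range]
    exact_mod_cast h1
  have hsub : B ⊆ (Icc 1 X).filter (fun n => nbA L α (2 * n)) ∪ E := by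
    intro n hn
    have hn1 := Finset.mem_Icc.mp (hB hn)
    obtain ⟨a, ha, p, hp, hap⟩ := hBA n hn
    unfold eSet at ha
    rw [Finset.mem_filter, Finset.mem_Icc] at ha
    rw [Finset.mem_union]
    by_cases hpL : ∀ q ∈ L, p % q ≠ 0
    · left
      rw [Finset.mem_filter, Finset.mem_Icc]
      refine ⟨hn1, ?_⟩
      rw [← hap]
      exact memA_add L α a p (fun q hq => by have := (hL3 q hq).2; omega) hpL ha.2.2
    · right
      push Not at hpL
      obtain ⟨q, hq, hpq⟩ := hpL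
      have hqp := (hL3 q hq).1
      have h1 : q = p := (Nat.prime_dvd_prime_iff_eq hqp hp).1 (Nat.dvd_of_mod_eq_zero hpq)
      subst h1
      have h2 := (mem_ol.mp hq).1
      rw [hE, Finset.mem_image]
      refine ⟨(a, q), ?_, ?_⟩
      · rw [Finset.mem_product, Finset.mem_filter, Finset.mem_range, Finset.mem_range]
        exact ⟨⟨by show a < 2 * X + 1; omega, ha.2.1⟩, h2⟩
      · show (a + q) / 2 = n
        omega
  have hmain : (((Icc 1 X).filter (fun n => nbA L α (2 * n))).card : ℝ) ≤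
      (X + Wp κ) * lexG L α := by
    have h1 := card_periodic (X := X) hm0 (P := fun n => nbA L α (2 * n)) (fun n => by
      rw [← nbA_mod L m hdvd α (2 * (n % m)), ← nbA_mod L m hdvd α (2 * n)]
      have : 2 * (n % m) % m = 2 * n % m := by
        rw [Nat.mul_mod, Nat.mod_mod, ← Nat.mul_mod]
      rw [this])
    have h2 := card_double hm0 hodd (P := fun n => nbA L α n) (fun n => nbA_mod L m hdvd α n)
    have h3 := card_nbA L α hL3 (ol_nodup _)
    have h4 : (((Icc 1 X).filter (fun n => nbA L α (2 * n))).card : ℝ) ≤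
        ((X / m : ℕ) + 1 : ℝ) * (((range m).filter (fun n => nbA L α n)).card : ℝ) := by
      have := h1.trans (Nat.mul_le_mul_left _ h2)
      exact_mod_cast this
    rw [h3] at h4
    have h5 : ((X / m : ℕ) : ℝ) * m ≤ X := by exact_mod_cast Nat.div_mul_le_self X m
    have h6 := lexG_nonneg (κ + 1) α
    rw [← hL] at h6
    have hmW : (m : ℝ) ≤ Wp κ := by
      have : m ≤ Wp κ := by rw [Wp_eq_nat hκ, ← hL, ← hm]; omega
      exact_mod_cast this
    calc (((Icc 1 X).filter (fun n => nbA L α (2 * n))).card : ℝ) ≤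
        ((X / m : ℕ) + 1 : ℝ) * (m * lexG L α) := h4
      _ = (((X / m : ℕ) : ℝ) * m + m) * lexG L α := by ring
      _ ≤ (X + Wp κ) * lexG L α := mul_le_mul_of_nonneg_right (by linarith) h6
  have hfin : (B.card : ℝ) ≤
      (((Icc 1 X).filter (fun n => nbA L α (2 * n))).card : ℝ) + E.card := by
    exact_mod_cast (Finset.card_le_card hsub).trans (Finset.card_union_le _ _)
  linarith

theorem br1 {θ : ℝ} (h : 0 ≤ θ) : (1 - 2 * θ) * (1 + θ) ≤ 1 - θ := by nlinarith

theorem br2 {e g g' G X W P k : ℝ} (he : 0 < e) (he8 : e ≤ 1 / 8) (hX : 0 ≤ X) (_hg : 0 ≤ g)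
    (_hg' : 0 ≤ g') (h1 : (1 - e) * g' ≤ g) (h2 : G ≤ (1 + e) * g') (hG : 0 ≤ G) (hW : W ≤ e * X)
    (h3 : P * k ≤ e * g * X) : (X + W) * G + P * k ≤ (1 + 8 * e) * g * X := by
  have h4 : (X + W) * G ≤ ((1 + e) * X) * ((1 + e) * g') :=
    mul_le_mul (by linarith) h2 hG (by positivity)
  have h5 : (1 + e) * (1 + e) * g' ≤ (1 + 7 * e) * g := by
    have h6 : (1 + e) * (1 + e) ≤ (1 + 7 * e) * (1 - e) := by nlinarith
    calc (1 + e) * (1 + e) * g' ≤ ((1 + 7 * e) * (1 - e)) * g' :=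
          mul_le_mul_of_nonneg_right h6 _hg'
      _ = (1 + 7 * e) * ((1 - e) * g') := by ring
      _ ≤ (1 + 7 * e) * g := mul_le_mul_of_nonneg_left h1 (by linarith)
  have h6 := mul_le_mul_of_nonneg_right h5 hX
  calc (X + W) * G + P * k ≤ ((1 + e) * X) * ((1 + e) * g') + e * g * X := by linarith
    _ = (1 + e) * (1 + e) * g' * X + e * g * X := by ring
    _ ≤ (1 + 7 * e) * g * X + e * g * X := by linarith
    _ = _ := by ring

/-- **The uniform upper bound.** -/
theorem upper_uniform (K : ℕ) {ε : ℝ} (hε : 0 < ε) : ∃ X₀ : ℕ, ∀ X : ℕ, X₀ ≤ X → ∀ α : ℝ,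
    1 / (Real.log X) ^ K ≤ α → α ≤ 1 → ∃ A : Finset ℕ, (∀ a ∈ A, a.Prime ∧ a ≤ 2 * X) ∧
      (∀ Y : ℕ, Real.sqrt X ≤ Y → Y ≤ 2 * X →
        α * (Nat.primeCounting Y : ℝ) ≤ ((A.filter (· ≤ Y)).card : ℝ)) ∧
      ∀ B : Finset ℕ, B ⊆ Icc 1 X → (∀ n ∈ B, ∃ a ∈ A, ∃ p : ℕ, p.Prime ∧ a + p = 2 * n) →
        (B.card : ℝ) ≤ (1 + ε) * gfun α * X := by
  classical
  obtain ⟨e, he0, he8, heε⟩ : ∃ e : ℝ, 0 < e ∧ e ≤ 1 / 8 ∧ 8 * e ≤ ε := by
    refine ⟨min (1 / 8) (ε / 8), by positivity, min_le_left _ _, ?_⟩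
    have := min_le_right (1 / 8) (ε / 8)
    linarith
  obtain ⟨η, hη0, hη2, hgrel⟩ := gfun_rel he0
  obtain ⟨K₁, hK₁⟩ := lexG_rel he0
  set θ : ℝ := η / 2 with hθ
  have hθ0 : 0 < θ := by positivity
  obtain ⟨X₁, hX₁⟩ := exists_scale K K₁ he0
  obtain ⟨X₂, hX₂⟩ := class_count (12 * K + 2) hθ0 (by linarith)
  obtain ⟨X₃, hX₃⟩ := Filter.eventually_atTop.mp
    ((Pool.Agent.Lib.SW.eventually_log_ge (max 2 (2 ^ (12 * K + 2)))).and
      (Pool.Agent.Lib.SW.eventually_log_pow (12 * K + 1) e he0))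
  refine ⟨max (max X₁ (X₂ ^ 2)) (max X₃ (max X₂ 2)), fun X hX α hα hα1 => ?_⟩
  have hXa : X₁ ≤ X := le_trans (le_trans (le_max_left _ _) (le_max_left _ _)) hX
  have hXb : X₂ ^ 2 ≤ X := le_trans (le_trans (le_max_right _ _) (le_max_left _ _)) hX
  have hXc : X₃ ≤ X := le_trans (le_trans (le_max_left _ _) (le_max_right _ _)) hX
  have hXd : X₂ ≤ X :=
    le_trans (le_trans (le_max_left _ _) (le_trans (le_max_right _ _) (le_max_right _ _))) hX
  have hXe : 2 ≤ X :=
    le_trans (le_trans (le_max_right _ _) (le_trans (le_max_right _ _) (le_max_right _ _))) hX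
  have hX2 : (2 : ℝ) ≤ X := by exact_mod_cast hXe
  have hXpos : (0 : ℝ) < X := by linarith
  obtain ⟨κ, hκ1, hκ2, hκav, hκW, hκL⟩ := hX₁ X hXa
  obtain ⟨hLall, hLe⟩ := hX₃ X hXc
  have hL2 : 2 ≤ Real.log (X : ℝ) := (le_max_left _ _).trans hLall
  have hLp : (2 : ℝ) ^ (12 * K + 2) ≤ Real.log (X : ℝ) := (le_max_right _ _).trans hLall
  set L : ℝ := Real.log (X : ℝ) with hL
  have hL0 : 0 < L := by linarith
  have hα0 : 0 < α := lt_of_lt_of_le (by positivity) hα
  rcases lt_or_ge (1 - η) α with hcase | hcase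
  · -- all primes
    refine ⟨(Icc 1 (2 * X)).filter Nat.Prime, ?_, ?_, ?_⟩
    · intro a ha
      rw [Finset.mem_filter, Finset.mem_Icc] at ha
      exact ⟨ha.2, ha.1.2⟩
    · intro Y _ hY2
      have h1 : ((Icc 1 (2 * X)).filter Nat.Prime).filter (· ≤ Y) =
          (range (Y + 1)).filter Nat.Prime := by
        ext p
        rw [Finset.mem_filter, Finset.mem_filter, Finset.mem_Icc, Finset.mem_filter,
          Finset.mem_range]
        constructor
        · rintro ⟨⟨_, h2⟩, h3⟩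
          exact ⟨by omega, h2⟩
        · rintro ⟨h2, h3⟩
          exact ⟨⟨⟨h3.one_le, by omega⟩, h3⟩, by omega⟩
      rw [h1, Nat.primeCounting, Nat.primeCounting', Nat.count_eq_card_filter_range]
      have h2 : (0 : ℝ) ≤ (((range (Y + 1)).filter Nat.Prime).card : ℝ) := Nat.cast_nonneg _
      nlinarith
    · intro B hB _
      have h1 : (B.card : ℝ) ≤ X := by
        have := Finset.card_le_card hB
        rw [Nat.card_Icc, Nat.add_sub_cancel] at this
        exact_mod_cast this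
      have h2 : 1 - e ≤ gfun α := by
        have h3 := hgrel 1 one_pos le_rfl
        rw [gfun_one, mul_one, mul_one] at h3
        exact h3.trans (gfun_mono hcase.le)
      have h3 : 1 ≤ (1 + ε) * gfun α := by
        calc (1 : ℝ) ≤ (1 + 8 * e) * (1 - e) := by nlinarith
          _ ≤ (1 + ε) * gfun α := mul_le_mul (by linarith) h2 (by linarith) (by linarith)
      calc (B.card : ℝ) ≤ X := h1
        _ = 1 * X := (one_mul _).symm
        _ ≤ (1 + ε) * gfun α * X := mul_le_mul_of_nonneg_right h3 hXpos.le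
  · -- the first classes
    have h1η : 0 < 1 - η := by linarith
    set α' : ℝ := α / (1 - η) with hα'
    have hα'0 : 0 < α' := by positivity
    have hα'1 : α' ≤ 1 := by rw [hα', div_le_one h1η]; exact hcase
    have hαα' : (1 - η) * α' = α := by rw [hα']; field_simp
    have hαle : α ≤ α' := by
      rw [← hαα']
      nlinarith
    refine ⟨eSet κ α' (2 * X), ?_, ?_, ?_⟩
    · intro a ha
      unfold eSet at ha
      rw [Finset.mem_filter, Finset.mem_Icc] at ha
      exact ⟨ha.2.1, ha.1.2⟩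
    · intro Y hY1 hY2
      have hYX₂ : X₂ ≤ Y := by
        have h1 : (X₂ : ℝ) ≤ Y := by
          refine le_trans ?_ hY1
          apply Real.le_sqrt_of_sq_le
          exact_mod_cast hXb
        exact_mod_cast h1
      have hsq : 0 < Real.sqrt X := Real.sqrt_pos.mpr hXpos
      have hYpos : (0 : ℝ) < Y := hsq.trans_le hY1
      have hlY : L / 2 ≤ Real.log (Y : ℝ) := by
        have h1 := Real.log_le_log hsq hY1
        rwa [Real.log_sqrt hXpos.le] at h1
      have hlY0 : 0 < Real.log (Y : ℝ) := by linarith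
      have hWY : (Wp κ : ℝ) ≤ (Real.log Y) ^ (12 * K + 2) := by
        refine hκW.trans ?_
        calc L ^ (12 * K + 1) = L ^ (12 * K + 1) * 2 ^ (12 * K + 2) / 2 ^ (12 * K + 2) := by
              field_simp
          _ ≤ L ^ (12 * K + 1) * L / 2 ^ (12 * K + 2) := by gcongr
          _ = (L / 2) ^ (12 * K + 2) := by rw [div_pow, pow_succ L (12 * K + 1)]
          _ ≤ (Real.log (Y : ℝ)) ^ (12 * K + 2) := by gcongr
      set y : ℝ := Y / Real.log Y with hy
      have hy0 : 0 < y := by positivity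
      have hW1 : (1 : ℝ) ≤ Wp κ := by exact_mod_cast Wp_pos κ
      have hpi : (Nat.primeCounting Y : ℝ) ≤ (1 + θ) * y := by
        have h1 := (hX₂ Y hYX₂ 1 1 le_rfl (by
          rw [Nat.cast_one]
          exact hW1.trans hWY) (Nat.coprime_one_right 1)).2
        rw [Pc_one, Nat.totient_one, Nat.cast_one, div_one] at h1
        exact h1
      have hlow := eSet_lower hκ2 hα'0.le hα'1 hY2 (t := (1 - θ) * y)
        (mul_nonneg (by linarith) hy0.le) (fun u hu => by
          have h1 := (hX₂ Y hYX₂ (Wp κ) u (Wp_pos κ) hWY hu).1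
          refine le_trans (le_of_eq ?_) h1
          rw [hy]
          ring)
      refine le_trans ?_ hlow
      calc α * (Nat.primeCounting Y : ℝ) ≤ α * ((1 + θ) * y) :=
            mul_le_mul_of_nonneg_left hpi hα0.le
        _ = ((1 - 2 * θ) * (1 + θ)) * (α' * y) := by
            rw [← hαα', hθ]
            ring
        _ ≤ (1 - θ) * (α' * y) := mul_le_mul_of_nonneg_right (br1 hθ0.le) (by positivity)
        _ = α' * ((1 - θ) * y) := by ring
    · intro B hB hBA
      refine (eSet_sum hκ2 hB hBA).trans ?_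
      have h2 : lexG (ol (κ + 1)) α' ≤ (1 + e) * gfun α' :=
        hK₁ (κ + 1) (by omega) α' hα'1 (hκav.trans (hα.trans hαle))
      have h3 : (1 - e) * gfun α' ≤ gfun α := by
        have := hgrel α' hα'0 hα'1
        rwa [hαα'] at this
      have hW : (Wp κ : ℝ) ≤ e * X := hκW.trans hLe
      have hgl : 2 / ((κ : ℝ) + 1) ≤ gfun α := by
        have h4 : gfun (av (κ + 1)) ≤ gfun α := gfun_mono (hκav.trans hα)
        rw [gfun_av, vv_eq_V hκ2] at h4
        have h5 := Corr.V_ge (z := κ) (by omega)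
        have hκR : (2 : ℝ) ≤ κ := by exact_mod_cast hκ2
        have h6 : 1 / ((κ : ℝ) + 1) ≤ 1 / κ := one_div_le_one_div_of_le (by linarith) (by linarith)
        have h7 : 2 / ((κ : ℝ) + 1) = 2 * (1 / ((κ : ℝ) + 1)) := by ring
        rw [h7]
        linarith
      have hpi2 : (Nat.primeCounting (2 * X) : ℝ) ≤ 4 * X / L := by
        have h5 : L ≤ Real.log ((2 * X : ℕ) : ℝ) := by
          apply Real.log_le_log hXpos
          push_cast
          linarith
        have h4 := (hX₂ (2 * X) (by omega) 1 1 le_rfl (by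
          rw [Nat.cast_one]
          exact one_le_pow₀ (by linarith)) (Nat.coprime_one_right 1)).2
        rw [Pc_one, Nat.totient_one, Nat.cast_one, div_one] at h4
        refine h4.trans ?_
        have h6 : ((2 * X : ℕ) : ℝ) / Real.log ((2 * X : ℕ) : ℝ) ≤ (2 * X) / L := by
          apply div_le_div₀ (by positivity) (by push_cast; exact le_rfl) hL0 h5
        calc (1 + θ) * (((2 * X : ℕ) : ℝ) / Real.log ((2 * X : ℕ) : ℝ)) ≤
            2 * ((2 * X) / L) := mul_le_mul (by linarith) h6 (by positivity) (by norm_num)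
          _ = 4 * X / L := by ring
      have h4 : (Nat.primeCounting (2 * X) : ℝ) * (κ + 1) ≤ e * gfun α * X := by
        have hκ0 : (0 : ℝ) < (κ : ℝ) + 1 := by positivity
        have h5 : (Nat.primeCounting (2 * X) : ℝ) * (κ + 1) ≤ 4 * X / L * (κ + 1) :=
          mul_le_mul_of_nonneg_right hpi2 hκ0.le
        have h6 : 4 * X / L * ((κ : ℝ) + 1) ≤ e * (2 / ((κ : ℝ) + 1)) * X := by
          have h7 : 4 * X / L * ((κ : ℝ) + 1) =
              (2 * ((κ : ℝ) + 1) ^ 2) * (2 * X / (L * ((κ : ℝ) + 1))) := by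
            field_simp
            ring
          have h8 : e * (2 / ((κ : ℝ) + 1)) * X = (e * L) * (2 * X / (L * ((κ : ℝ) + 1))) := by
            field_simp
          rw [h7, h8]
          exact mul_le_mul_of_nonneg_right hκL (by positivity)
        have h7 : e * (2 / ((κ : ℝ) + 1)) * X ≤ e * gfun α * X := by gcongr
        linarith
      have h5 := br2 he0 he8 hXpos.le (gfun_nonneg α) (gfun_nonneg α') h3 h2
        (lexG_nonneg (κ + 1) α') hW h4
      refine h5.trans ?_
      have h6 := gfun_nonneg α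
      gcongr

end Pool.Agent.Lib.MP_7b7e48_nt.LX
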