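import Pool.Agent.Lib.MP_7b7e48_nt.LX.Classes
import Pool.Agent.Lib.MP_7b7e48_nt.LX.Lower

/-!
# MP_7b7e48_nt : the extremal sets (helper81)
-/

namespace Pool.Agent.Lib.MP_7b7e48_nt.LX

open Finset Pool.Agent.Lib.GT Pool.Agent.Lib.GT.LA Pool.Agent.Lib.GT.Robust
open Pool.Agent.Lib.MP_7b7e48_nt.SP

/-- the product of `1 - 1/(q-1)` -/
noncomputable def gap (L : List ℕ) : ℝ := (L.map fun q : ℕ => 1 - 1 / ((q : ℝ) - 1)).prod

theorem gap_nonneg : ∀ (L : List ℕ), (∀ q ∈ L, 3 ≤ q) → 0 ≤ gap L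
  | [], _ => by simp [gap]
  | q :: L, h => by
    have ih := gap_nonneg L fun r hr => h r (by simp [hr])
    have hq : (3 : ℝ) ≤ q := by exact_mod_cast h q (by simp)
    unfold gap at ih ⊢
    rw [List.map_cons, List.prod_cons]
    apply mul_nonneg _ ih
    have : 1 / ((q : ℝ) - 1) ≤ 1 := by rw [div_le_one (by linarith)]; linarith
    linarith

theorem rho_near (c : ℝ → Prop) : ∀ (L : List ℕ), (∀ q ∈ L, 3 ≤ q) → ∀ x : ℝ, 0 ≤ x → x ≤ 1 →
    |rho c L x - x| ≤ gap L
  | [], _, x, h0, h1 => by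
    unfold rho gap
    rw [List.map_nil, List.prod_nil, abs_le]
    split_ifs
    · constructor <;> linarith
    · constructor <;> linarith
  | q :: L, h, x, h0, h1 => by
    have hL : ∀ r ∈ L, 3 ≤ r := fun r hr => h r (by simp [hr])
    have hq : (3 : ℝ) ≤ q := by exact_mod_cast h q (by simp)
    have hg := gap_nonneg L hL
    have hgc : gap (q :: L) = (1 - 1 / ((q : ℝ) - 1)) * gap L := by
      unfold gap
      rw [List.map_cons, List.prod_cons]
    have hq1 : (0 : ℝ) < (q : ℝ) - 1 := by linarith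
    have hq2 : (0 : ℝ) < (q : ℝ) - 2 := by linarith
    rw [hgc]
    unfold rho
    split_ifs with hw
    · have ih := rho_near c L hL (((q : ℝ) - 1) * x) (by positivity) hw
      have e : rho c L (((q : ℝ) - 1) * x) / ((q : ℝ) - 1) - x =
          (rho c L (((q : ℝ) - 1) * x) - ((q : ℝ) - 1) * x) / ((q : ℝ) - 1) := by
        field_simp
      rw [e, abs_div, abs_of_pos hq1, div_le_iff₀ hq1]
      have e2 : (1 - 1 / ((q : ℝ) - 1)) * gap L * ((q : ℝ) - 1) = ((q : ℝ) - 2) * gap L := by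
        field_simp
        ring
      rw [e2]
      nlinarith
    · push Not at hw
      have ih := rho_near c L hL ((((q : ℝ) - 1) * x - 1) / ((q : ℝ) - 2))
        (div_nonneg (by linarith) hq2.le) (by rw [div_le_one hq2]; nlinarith)
      set w := (((q : ℝ) - 1) * x - 1) / ((q : ℝ) - 2) with hwdef
      have hx : x = (1 + ((q : ℝ) - 2) * w) / ((q : ℝ) - 1) := by
        rw [hwdef]
        field_simp
        ring
      have e : (1 + ((q : ℝ) - 2) * rho c L w) / ((q : ℝ) - 1) - x =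
          (1 - 1 / ((q : ℝ) - 1)) * (rho c L w - w) := by
        conv_lhs => rw [hx]
        field_simp
        ring
      have h3 : 0 ≤ 1 - 1 / ((q : ℝ) - 1) := by
        have : 1 / ((q : ℝ) - 1) ≤ 1 := by rw [div_le_one (by linarith)]; linarith
        linarith
      rw [e, abs_mul, abs_of_nonneg h3]
      exact mul_le_mul_of_nonneg_left ih h3

theorem ol_three {n : ℕ} : ∀ q ∈ ol n, q.Prime ∧ 3 ≤ q := fun q hq => by
  rw [mem_ol] at hq
  exact ⟨hq.2.1, prime_three hq.2.1 hq.2.2⟩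

theorem ol_nodup (n : ℕ) : (ol n).Nodup := (ol_pairwise n).imp fun h => ne_of_lt h

theorem gap_le {K : ℕ} (hK : 2 ≤ K) : gap (ol (K + 1)) ≤ 2 * V K := by
  rw [← prod_V hK]
  unfold gap
  rw [ol_prod (K + 1) (fun q : ℕ => 1 - 1 / ((q : ℝ) - 1))]
  apply Finset.prod_le_prod
  · intro p hp
    unfold op at hp
    rw [Finset.mem_filter] at hp
    have : (3 : ℝ) ≤ p := by exact_mod_cast prime_three hp.2.1 hp.2.2
    have : 1 / ((p : ℝ) - 1) ≤ 1 := by rw [div_le_one (by linarith)]; linarith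
    linarith
  · intro p hp
    unfold op at hp
    rw [Finset.mem_filter] at hp
    have : (3 : ℝ) ≤ p := by exact_mod_cast prime_three hp.2.1 hp.2.2
    have : 1 / (p : ℝ) ≤ 1 / ((p : ℝ) - 1) := by
      apply one_div_le_one_div_of_le <;> linarith
    linarith

theorem exists_V {ε : ℝ} (hε : 0 < ε) : ∃ K₀ : ℕ, 2 ≤ K₀ ∧ 2 * V K₀ ≤ ε := by
  obtain ⟨z, hz⟩ : ∃ z : ℕ, Real.exp (2 / ε) ≤ z := exists_nat_ge _
  refine ⟨max z 2, le_max_right _ _, ?_⟩
  have hK2 : 2 ≤ max z 2 := le_max_right _ _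
  have hzK : (z : ℝ) ≤ (max z 2 : ℕ) := by exact_mod_cast le_max_left _ _
  have hlog : 2 / ε ≤ Real.log (max z 2 : ℕ) := by
    rw [Real.le_log_iff_exp_le (by positivity)]
    exact hz.trans hzK
  have hlog0 : 0 < Real.log (max z 2 : ℕ) := lt_of_lt_of_le (by positivity) hlog
  have h1 := Pool.Agent.Lib.GT.V_le _ hK2
  have h2 : 1 / Real.log (max z 2 : ℕ) ≤ ε / 2 := by
    rw [div_le_div_iff₀ hlog0 (by norm_num)]
    rw [div_le_iff₀ hε] at hlog
    linarith
  linarith

open Classical in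
/-- primes in a set of classes, lower bound -/
theorem prime_class_lower {K : ℕ} (hK : 2 ≤ K) (Q : ℕ → Prop) (hQ : ∀ n, Q (n % Wp K) ↔ Q n)
    {ε : ℝ} (hε : 0 < ε) : ∃ X₀ : ℕ, ∀ x : ℕ, X₀ ≤ x →
    ((((un K).filter Q).card : ℝ) / ((un K).card : ℝ) - ε) * (Nat.primeCounting x : ℝ) ≤
      (((range (x + 1)).filter (fun p => p.Prime ∧ Q p)).card : ℝ) := by
  have hVW := VW_pos K
  have hun := card_un K
  obtain ⟨X₁, hX₁⟩ := pi_upper (κ := ε / 2) (by positivity)
  obtain ⟨X₂, hX₂⟩ := window_mass K hK (ε / (2 * (V K * (Wp K : ℝ)))) (by positivity)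
  refine ⟨max (max X₁ X₂) 3, fun x hx => ?_⟩
  have hxa : X₁ ≤ x := (le_max_left _ _).trans ((le_max_left _ _).trans hx)
  have hxb : X₂ ≤ x := (le_max_right _ _).trans ((le_max_left _ _).trans hx)
  have hx3 : 3 ≤ x := (le_max_right _ _).trans hx
  have hxR : (3 : ℝ) ≤ x := by exact_mod_cast hx3
  have hlog : 0 < Real.log x := Real.log_pos (by linarith)
  set M := ((un K).filter Q).card with hM
  set N : ℝ := V K * (Wp K : ℝ) with hN
  set T := (range (x + 1)).filter (fun p => p.Prime ∧ Q p) with hT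
  rw [hun]
  have hMN : (M : ℝ) ≤ N := by
    rw [← hun, hM]
    exact_mod_cast Finset.card_le_card (Finset.filter_subset _ _)
  have h1 : ∑ u ∈ (un K).filter Q, ms lam (Wp K) u 0 x ≤ ∑ p ∈ T, Real.log p := by
    have h2 : ∑ u ∈ (un K).filter Q, ms lam (Wp K) u 0 x =
        ∑ n ∈ (Finset.Ioc 0 x).filter (fun n => n % Wp K ∈ (un K).filter Q), lam n := by
      unfold ms
      rw [← Finset.sum_fiberwise_of_maps_to
        (s := (Finset.Ioc 0 x).filter (fun n => n % Wp K ∈ (un K).filter Q))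
        (t := (un K).filter Q)
        (g := fun x => x % Wp K) (fun x hx => (Finset.mem_filter.1 hx).2) lam]
      refine Finset.sum_congr rfl fun u hu => ?_
      refine Finset.sum_congr ?_ fun _ _ => rfl
      ext n
      rw [Finset.mem_filter, Finset.mem_filter, Finset.mem_filter]
      constructor
      · rintro ⟨h3, h4⟩
        exact ⟨⟨h3, h4 ▸ hu⟩, h4⟩
      · rintro ⟨⟨h3, _⟩, h4⟩
        exact ⟨h3, h4⟩
    rw [h2]
    have h3 : ∑ n ∈ (Finset.Ioc 0 x).filter (fun n => n % Wp K ∈ (un K).filter Q), lam n =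
        ∑ n ∈ ((Finset.Ioc 0 x).filter (fun n => n % Wp K ∈ (un K).filter Q)).filter Nat.Prime,
          Real.log n := by
      rw [Finset.sum_filter Nat.Prime (fun n : ℕ => Real.log (n : ℝ))]
      refine Finset.sum_congr rfl fun n _ => ?_
      unfold lam
      rfl
    rw [h3]
    refine Finset.sum_le_sum_of_subset_of_nonneg ?_ fun p _ _ => Real.log_natCast_nonneg p
    intro n hn
    rw [Finset.mem_filter, Finset.mem_filter, Finset.mem_Ioc, Finset.mem_filter] at hn
    rw [hT, Finset.mem_filter, Finset.mem_range]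
    exact ⟨by omega, hn.2, (hQ n).mp hn.1.2.2⟩
  have h2 : ∑ p ∈ T, Real.log p ≤ T.card * Real.log x := by
    rw [← nsmul_eq_mul]
    refine Finset.sum_le_card_nsmul _ _ _ fun p hp => ?_
    rw [hT, Finset.mem_filter, Finset.mem_range] at hp
    apply Real.log_le_log
    · exact_mod_cast hp.2.1.pos
    · exact_mod_cast (by omega : p ≤ x)
  have h3 : (M : ℝ) * (x / N - ε / (2 * N) * x) ≤ ∑ u ∈ (un K).filter Q, ms lam (Wp K) u 0 x := by
    rw [hM, ← nsmul_eq_mul]
    refine Finset.card_nsmul_le_sum _ _ _ fun u hu => ?_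
    have hu' := mem_un.1 (Finset.filter_subset _ _ hu)
    have h4 := hX₂ x hxb 0 x u (Nat.zero_le _) le_rfl hu'.2
    rw [Nat.mod_eq_of_lt hu'.1] at h4
    have h5 := (abs_le.1 h4).1
    have h6 : ms lam (Wp K) u 0 x =
        ∑ y ∈ (Finset.Ioc 0 x).filter (fun y => y % Wp K = u), lam y := rfl
    rw [← h6, Nat.cast_zero, sub_zero] at h5
    linarith
  have h4 : ((M : ℝ) / N - ε / 2) * x ≤ T.card * Real.log x := by
    refine le_trans ?_ (h3.trans (h1.trans h2))
    have : (M : ℝ) * (x / N - ε / (2 * N) * x) = ((M : ℝ) / N - ε / 2 * (M / N)) * x := by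
      field_simp
    rw [this]
    apply mul_le_mul_of_nonneg_right _ (by linarith)
    have h5 : (M : ℝ) / N ≤ 1 := by rw [div_le_one hVW]; exact hMN
    nlinarith
  rcases le_or_gt ((M : ℝ) / N - ε) 0 with h5 | h5
  · exact (mul_nonpos_of_nonpos_of_nonneg h5 (Nat.cast_nonneg _)).trans (Nat.cast_nonneg _)
  · have h6 := hX₁ x hxa
    have h7 : (((M : ℝ) / N - ε) * (Nat.primeCounting x : ℝ)) * Real.log x ≤
        T.card * Real.log x := by
      calc (((M : ℝ) / N - ε) * (Nat.primeCounting x : ℝ)) * Real.log x =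
          ((M : ℝ) / N - ε) * (Nat.primeCounting x * Real.log x) := by ring
        _ ≤ ((M : ℝ) / N - ε) * ((1 + ε / 2) * x) := mul_le_mul_of_nonneg_left h6 h5.le
        _ = (((M : ℝ) / N - ε) * (1 + ε / 2)) * x := by ring
        _ ≤ ((M : ℝ) / N - ε / 2) * x := by
            apply mul_le_mul_of_nonneg_right _ (by linarith)
            have h8 : (M : ℝ) / N ≤ 1 := by rw [div_le_one hVW]; exact hMN
            nlinarith
        _ ≤ _ := h4
    exact le_of_mul_le_mul_right h7 hlog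

open Classical in
/-- primes in a set of classes, upper bound -/
theorem prime_class_upper {K : ℕ} (hK : 2 ≤ K) (Q : ℕ → Prop) (hQ : ∀ n, Q (n % Wp K) ↔ Q n)
    {ε : ℝ} (hε : 0 < ε) : ∃ X₀ : ℕ, ∀ x : ℕ, X₀ ≤ x →
    (((range (x + 1)).filter (fun p => p.Prime ∧ Q p)).card : ℝ) ≤
    ((((un K).filter Q).card : ℝ) / ((un K).card : ℝ) + ε) * (Nat.primeCounting x : ℝ) := by
  obtain ⟨X₀, hX₀⟩ := prime_class_lower hK (fun n => ¬ Q n) (fun n => not_congr (hQ n)) hε
  refine ⟨X₀, fun x hx => ?_⟩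
  have h1 := hX₀ x hx
  have hpos : (0 : ℝ) < (un K).card := by rw [card_un]; exact VW_pos K
  have h2 : (((un K).filter Q).card : ℝ) + (((un K).filter (fun n => ¬ Q n)).card : ℝ) =
      (un K).card := by
    exact_mod_cast Finset.card_filter_add_card_filter_not (s := un K) Q
  have h3 : (((range (x + 1)).filter (fun p => p.Prime ∧ Q p)).card : ℝ) +
      (((range (x + 1)).filter (fun p => p.Prime ∧ ¬ Q p)).card : ℝ) = Nat.primeCounting x := by
    have h4 : Nat.primeCounting x = ((range (x + 1)).filter Nat.Prime).card := by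
      rw [Nat.primeCounting, Nat.primeCounting', Nat.count_eq_card_filter_range]
    rw [h4]
    have h5 := Finset.card_filter_add_card_filter_not (s := (range (x + 1)).filter Nat.Prime) Q
    rw [Finset.filter_filter, Finset.filter_filter] at h5
    exact_mod_cast h5
  have h6 : (((un K).filter (fun n => ¬ Q n)).card : ℝ) / (un K).card =
      1 - (((un K).filter Q).card : ℝ) / (un K).card := by
    rw [eq_sub_iff_add_eq, ← add_div, add_comm, h2, div_self hpos.ne']
  have h7 : ((((un K).filter (fun n => ¬ Q n)).card : ℝ) / ((un K).card : ℝ) - ε) *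
      (Nat.primeCounting x : ℝ) ≤
      (((range (x + 1)).filter (fun p => p.Prime ∧ ¬ Q p)).card : ℝ) := by
    convert h1
  rw [h6] at h7
  linarith

open Classical in
theorem un_memA {K : ℕ} (hK : 2 ≤ K) (c : ℝ → Prop) (x : ℝ) :
    (((un K).filter (fun u => memA c (ol (K + 1)) x u)).card : ℝ) / ((un K).card : ℝ) =
      rho c (ol (K + 1)) x := by
  have hpos : (0 : ℝ) < (un K).card := by rw [card_un]; exact VW_pos K
  have hm := list_prod_pos (L := ol (K + 1)) fun r hr => (ol_three r hr).1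
  have hcop : Nat.Coprime 2 (ol (K + 1)).prod :=
    coprime_prod Nat.prime_two (fun r hr => (ol_three r hr).1) (by rw [mem_ol]; tauto)
  have hdvd : ∀ r ∈ ol (K + 1), r ∣ (ol (K + 1)).prod := fun r hr => List.dvd_prod hr
  have e : (un K).filter (fun u => memA c (ol (K + 1)) x u) =
      (range (2 * (ol (K + 1)).prod)).filter (fun u => u % 2 = 1 ∧
        (Nat.Coprime (u % (ol (K + 1)).prod) (ol (K + 1)).prod ∧
          memA c (ol (K + 1)) x (u % (ol (K + 1)).prod))) := by
    ext u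
    rw [Finset.mem_filter, mem_un_coprime, Finset.mem_filter, Finset.mem_range,
      memA_mod c _ _ hdvd, Wp_eq_nat hK, coprime_mul_iff Nat.prime_two]
    constructor
    · rintro ⟨⟨h1, h2, h3⟩, h4⟩
      exact ⟨h1, by omega, h3, h4⟩
    · rintro ⟨h1, h2, h3, h4⟩
      exact ⟨⟨h1, by omega, h3⟩, h4⟩
  rw [e, card_crt two_pos hm hcop (fun r => r = 1)
    (fun r => Nat.Coprime r (ol (K + 1)).prod ∧ memA c (ol (K + 1)) x r),
    card_range_eq_one le_rfl, one_mul, card_memA c _ x ol_three (ol_nodup _)]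
  rw [card_un, VW_eq hK, div_eq_iff]
  · unfold ph
    ring
  · rw [← VW_eq hK]
    exact (VW_pos K).ne'

/-- The extremal set of primes. -/
def exSet (α : ℝ) : Set ℕ := {p | p.Prime ∧ ∀ n, memA (fun x => 0 < x) (ol n) α p}

theorem memA_of_one_le : ∀ (L : List ℕ) (x : ℝ) (a : ℕ), (∀ q ∈ L, 3 ≤ q) → 1 ≤ x →
    memA (fun x => 0 < x) L x a
  | [], x, _, _, h => by show 0 < x; linarith
  | q :: L, x, a, hL, h => by
    have hq : (3 : ℝ) ≤ q := by exact_mod_cast hL q (by simp)
    have h1 : 1 < ((q : ℝ) - 1) * x := by nlinarith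
    refine Or.inr ⟨h1, Or.inr ?_⟩
    apply memA_of_one_le L _ a fun r hr => hL r (by simp [hr])
    rw [le_div_iff₀ (by linarith)]
    nlinarith

theorem pos_of_memA : ∀ (L : List ℕ) (x : ℝ) (a : ℕ), (∀ q ∈ L, 3 ≤ q) →
    memA (fun x => 0 < x) L x a → 0 < x
  | [], x, _, _, h => h
  | q :: L, x, a, hL, h => by
    have hq : (3 : ℝ) ≤ q := by exact_mod_cast hL q (by simp)
    rcases h with ⟨_, _, h3⟩ | ⟨h2, _⟩
    · have h4 := pos_of_memA L _ a (fun r hr => hL r (by simp [hr])) h3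
      exact pos_of_mul_pos_right h4 (by linarith)
    · have : 0 < ((q : ℝ) - 1) * x := by linarith
      exact pos_of_mul_pos_right this (by linarith)

theorem memA_append (L L' : List ℕ) : ∀ (x : ℝ) (a : ℕ), (∀ q ∈ L ++ L', 3 ≤ q) →
    memA (fun x => 1 ≤ x) L x a → memA (fun x => 0 < x) (L ++ L') x a := by
  induction L with
  | nil => intro x a h hx; exact memA_of_one_le L' x a h hx
  | cons q L ih =>
    intro x a h hx
    have ih' := fun x => ih x a fun r hr => h r (by simp only [List.cons_append, List.mem_cons]; exact Or.inr hr)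
    rcases hx with ⟨h1, h2, h3⟩ | ⟨h1, h2⟩
    · exact Or.inl ⟨h1, h2, ih' _ h3⟩
    · exact Or.inr ⟨h1, h2.imp id (ih' _)⟩

theorem memA_of_append (L L' : List ℕ) : ∀ (x : ℝ) (a : ℕ), (∀ q ∈ L ++ L', 3 ≤ q) →
    memA (fun x => 0 < x) (L ++ L') x a → memA (fun x => 0 < x) L x a := by
  induction L with
  | nil => intro x a h hx; exact pos_of_memA L' x a h hx
  | cons q L ih =>
    intro x a h hx
    have ih' := fun x => ih x a fun r hr => h r (by simp only [List.cons_append, List.mem_cons]; exact Or.inr hr)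
    rcases hx with ⟨h1, h2, h3⟩ | ⟨h1, h2⟩
    · exact Or.inl ⟨h1, h2, ih' _ h3⟩
    · exact Or.inr ⟨h1, h2.imp id (ih' _)⟩

theorem exSet_of_lower {n p : ℕ} {α : ℝ} (hp : p.Prime)
    (h : memA (fun x => 1 ≤ x) (ol n) α p) : p ∈ exSet α := by
  refine ⟨hp, fun n' => ?_⟩
  rcases le_total n n' with hn | hn
  · obtain ⟨L', hL'⟩ := ol_prefix hn
    rw [hL']
    exact memA_append _ _ _ _ (fun q hq => (ol_three q (hL' ▸ hq)).2) h
  · obtain ⟨L', hL'⟩ := ol_prefix hn
    have h1 := memA_append (ol n) [] α p (by rw [List.append_nil]; exact fun q hq => (ol_three q hq).2) h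
    rw [List.append_nil, hL'] at h1
    exact memA_of_append _ _ _ _ (fun q hq => (ol_three q (hL' ▸ hq)).2) h1

open Classical in
/-- the relative density of the extremal set -/
theorem exSet_density {α : ℝ} (h0 : 0 ≤ α) (h1 : α ≤ 1) {ε : ℝ} (hε : 0 < ε) :
    ∃ X₀ : ℕ, ∀ x : ℕ, X₀ ≤ x →
      (α - ε) * (Nat.primeCounting x : ℝ) ≤
        (((range (x + 1)).filter (fun p => p ∈ exSet α)).card : ℝ) ∧
      (((range (x + 1)).filter (fun p => p ∈ exSet α)).card : ℝ) ≤
        (α + ε) * (Nat.primeCounting x : ℝ) := by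
  obtain ⟨K, hK, hV⟩ := exists_V (show 0 < ε / 2 by positivity)
  have hg := gap_le hK
  have hdvd : ∀ q ∈ ol (K + 1), q ∣ Wp K := fun q hq => by
    rw [mem_ol] at hq
    exact dvd_Wp (mem_pr.2 ⟨by omega, hq.2.1⟩)
  obtain ⟨X₁, hX₁⟩ := prime_class_lower hK (fun u => memA (fun x => 1 ≤ x) (ol (K + 1)) α u)
    (fun n => memA_mod _ _ _ hdvd _ _) (show 0 < ε / 2 by positivity)
  obtain ⟨X₂, hX₂⟩ := prime_class_upper hK (fun u => memA (fun x => 0 < x) (ol (K + 1)) α u)
    (fun n => memA_mod _ _ _ hdvd _ _) (show 0 < ε / 2 by positivity)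
  refine ⟨max X₁ X₂, fun x hx => ⟨?_, ?_⟩⟩
  · have h2 := hX₁ x ((le_max_left _ _).trans hx)
    rw [un_memA hK] at h2
    have h3 := rho_near (fun x => 1 ≤ x) (ol (K + 1)) (fun q hq => (ol_three q hq).2) α h0 h1
    have h4 := (abs_le.1 h3).1
    refine le_trans ?_ (h2.trans (Nat.cast_le.mpr ?_))
    · apply mul_le_mul_of_nonneg_right _ (Nat.cast_nonneg _)
      linarith
    · apply Finset.card_le_card
      intro p hp
      rw [Finset.mem_filter] at hp ⊢
      exact ⟨hp.1, exSet_of_lower hp.2.1 hp.2.2⟩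
  · have h2 := hX₂ x ((le_max_right _ _).trans hx)
    rw [un_memA hK] at h2
    have h3 := rho_near (fun x => 0 < x) (ol (K + 1)) (fun q hq => (ol_three q hq).2) α h0 h1
    have h4 := (abs_le.1 h3).2
    refine le_trans (Nat.cast_le.mpr ?_) (h2.trans ?_)
    · apply Finset.card_le_card
      intro p hp
      rw [Finset.mem_filter] at hp ⊢
      exact ⟨hp.1, hp.2.1, hp.2.2 _⟩
    · apply mul_le_mul_of_nonneg_right _ (Nat.cast_nonneg _)
      linarith

end Pool.Agent.Lib.MP_7b7e48_nt.LX
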