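import Pool.Agent.Lib.MP_7b7e48_nt.LX.SharpSet

/-!
# MP_7b7e48_nt : sums of the extremal set and primes (helper81)
-/

namespace Pool.Agent.Lib.MP_7b7e48_nt.LX

open Finset Pool.Agent.Lib.GT Pool.Agent.Lib.GT.LA Pool.Agent.Lib.GT.Robust
open Pool.Agent.Lib.MP_7b7e48_nt.SP

theorem gfun_near {ε : ℝ} (hε : 0 < ε) : ∃ τ : ℝ, 0 < τ ∧ ∀ a b : ℝ, b - a ≤ τ →
    gfun b ≤ gfun a + ε := by
  obtain ⟨τ, hτ, K₀, hK₀⟩ := exists_small hε
  refine ⟨τ, hτ, fun a b hab => ?_⟩
  have h1 : ∀ᶠ n in Filter.atTop, gfun b - ε ≤ lexG (ol n) a := by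
    filter_upwards [Filter.eventually_ge_atTop (K₀ + 1)] with n hn
    obtain ⟨K, rfl⟩ : ∃ K, n = K + 1 := ⟨n - 1, by omega⟩
    have h2 := hK₀ K (by omega) (b - a) hab
    have h3 := (nice_ol (K + 1)).sub a (b - a)
    rw [add_sub_cancel] at h3
    have h4 := gfun_le (K + 1) b
    linarith
  have := ge_of_tendsto (lexG_tendsto a) h1
  linarith

theorem gfun_continuous : Continuous gfun := by
  rw [Metric.continuous_iff]
  intro b ε hε
  obtain ⟨τ, hτ, h⟩ := gfun_near (show 0 < ε / 2 by positivity)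
  refine ⟨τ, hτ, fun a ha => ?_⟩
  rw [Real.dist_eq] at ha ⊢
  have h1 := h a b (by linarith [(abs_lt.mp ha).1])
  have h2 := h b a (by linarith [(abs_lt.mp ha).2])
  rw [abs_lt]
  constructor <;> linarith

theorem card_periodic {m X : ℕ} (hm : 0 < m) {P : ℕ → Prop} [DecidablePred P]
    (hP : ∀ n, P (n % m) ↔ P n) : ((Icc 1 X).filter P).card ≤
      (X / m + 1) * ((range m).filter P).card := by
  rw [← Finset.card_range (X / m + 1), ← Finset.card_product]
  apply Finset.card_le_card_of_injOn (fun n => (n / m, n % m))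
  · intro n hn
    rw [Finset.mem_coe, Finset.mem_filter, Finset.mem_Icc] at hn
    rw [Finset.mem_coe, Finset.mem_product, Finset.mem_filter, Finset.mem_range,
      Finset.mem_range]
    refine ⟨?_, Nat.mod_lt _ hm, (hP n).mpr hn.2⟩
    have := Nat.div_le_div_right (c := m) hn.1.2
    show n / m < X / m + 1
    omega
  · intro a _ b _ h
    have h1 : a / m = b / m := (Prod.ext_iff.mp h).1
    have h2 : a % m = b % m := (Prod.ext_iff.mp h).2
    rw [← Nat.div_add_mod a m, ← Nat.div_add_mod b m, h1, h2]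

theorem card_double {m : ℕ} (hm : 0 < m) (hodd : Nat.Coprime m 2) {P : ℕ → Prop} [DecidablePred P]
    (hP : ∀ n, P (n % m) ↔ P n) :
    ((range m).filter (fun r => P (2 * r))).card ≤ ((range m).filter P).card := by
  apply Finset.card_le_card_of_injOn (fun n => 2 * n % m)
  · intro n hn
    rw [Finset.mem_coe, Finset.mem_filter] at hn
    rw [Finset.mem_coe, Finset.mem_filter, Finset.mem_range]
    exact ⟨Nat.mod_lt _ hm, (hP _).mpr hn.2⟩
  · intro a ha b hb h
    rw [Finset.mem_coe, Finset.mem_filter, Finset.mem_range] at ha hb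
    have h1 : 2 * a ≡ 2 * b [MOD m] := h
    have h2 : a ≡ b [MOD m] := Nat.ModEq.cancel_left_of_coprime hodd h1
    exact Nat.ModEq.eq_of_lt_of_lt h2 ha.1 hb.1

open Classical in
theorem exSet_sum {α : ℝ} {ε : ℝ} (hε : 0 < ε) : ∃ X₀ : ℕ, ∀ X : ℕ, X₀ ≤ X →
    (((Icc 1 X).filter (fun n => ∃ a ∈ exSet α, ∃ p : ℕ, p.Prime ∧ a + p = 2 * n)).card : ℝ) ≤
      (gfun α + ε) * X := by
  obtain ⟨K, hK2, hKg⟩ : ∃ K : ℕ, 2 ≤ K ∧ lexG (ol (K + 1)) α ≤ gfun α + ε / 4 := by
    have h1 := (lexG_tendsto α).eventually_lt_const (show gfun α < gfun α + ε / 4 by linarith)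
    obtain ⟨N, hN⟩ := Filter.eventually_atTop.mp h1
    exact ⟨max N 2, le_max_right _ _, (hN _ (by omega)).le⟩
  set L := ol (K + 1) with hL
  have hL3 := fun q hq => ol_three (n := K + 1) q hq
  set m := L.prod with hm
  have hm0 : 0 < m := list_prod_pos fun q hq => (hL3 q hq).1
  have hodd : Nat.Coprime m 2 := by
    rw [Nat.coprime_comm]
    exact coprime_prod Nat.prime_two (fun r hr => (ol_three r hr).1) (by rw [hL, mem_ol]; tauto)
  have hdvd : ∀ q ∈ L, q ∣ m := fun q hq => List.dvd_prod hq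
  obtain ⟨y₀, hy₀⟩ := SharpAux.pi_small (δ := ε / (8 * (K + 1))) (by positivity)
  obtain ⟨X₁, hX₁⟩ : ∃ X₁ : ℕ, (m : ℝ) / (ε / 4) ≤ X₁ := exists_nat_ge _
  refine ⟨max y₀ X₁, fun X hX => ?_⟩
  have hXa : y₀ ≤ X := (le_max_left _ _).trans hX
  have hXb : X₁ ≤ X := (le_max_right _ _).trans hX
  have hmX : (m : ℝ) ≤ ε / 4 * X := by
    rw [div_le_iff₀ (by positivity)] at hX₁
    have : (X₁ : ℝ) ≤ X := by exact_mod_cast hXb
    nlinarith
  -- the exceptional sums
  set E : Finset ℕ := (((range (2 * X + 1)).filter Nat.Prime) ×ˢ (range (K + 1))).image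
    (fun x => (x.1 + x.2) / 2) with hE
  have hEc : (E.card : ℝ) ≤ ε / 4 * X := by
    have h1 : E.card ≤ Nat.primeCounting (2 * X) * (K + 1) := by
      refine Finset.card_image_le.trans ?_
      rw [Finset.card_product, Finset.card_range, Nat.primeCounting, Nat.primeCounting',
        Nat.count_eq_card_filter_range]
    have h2 := hy₀ (2 * X) (by omega)
    have h3 : (E.card : ℝ) ≤ Nat.primeCounting (2 * X) * ((K : ℝ) + 1) := by exact_mod_cast h1
    refine h3.trans ?_
    have h4 := mul_le_mul_of_nonneg_right h2 (show (0 : ℝ) ≤ (K : ℝ) + 1 by positivity)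
    refine h4.trans (le_of_eq ?_)
    push_cast
    have : ((K : ℝ) + 1) ≠ 0 := by positivity
    field_simp
    ring
  have hsub : (Icc 1 X).filter (fun n => ∃ a ∈ exSet α, ∃ p : ℕ, p.Prime ∧ a + p = 2 * n) ⊆
      (Icc 1 X).filter (fun n => nbA L α (2 * n)) ∪ E := by
    intro n hn
    rw [Finset.mem_filter, Finset.mem_Icc] at hn
    obtain ⟨hn1, a, ha, p, hp, hap⟩ := hn
    rw [Finset.mem_union]
    by_cases hpL : ∀ q ∈ L, p % q ≠ 0
    · left
      rw [Finset.mem_filter, Finset.mem_Icc]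
      refine ⟨hn1, ?_⟩
      rw [← hap]
      exact memA_add L α a p (fun q hq => by have := (hL3 q hq).2; omega) hpL (ha.2 _)
    · right
      push Not at hpL
      obtain ⟨q, hq, hpq⟩ := hpL
      have hqp := (hL3 q hq).1
      have h1 : q = p := (Nat.prime_dvd_prime_iff_eq hqp hp).1 (Nat.dvd_of_mod_eq_zero hpq)
      subst h1
      have h2 := (mem_ol.mp hq).1
      rw [hE, Finset.mem_image]
      refine ⟨(a, q), ?_, ?_⟩
      · rw [Finset.mem_product, Finset.mem_filter, Finset.mem_range, Finset.mem_range]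
        exact ⟨⟨by show a < 2 * X + 1; omega, ha.1⟩, h2⟩
      · show (a + q) / 2 = n
        omega
  have hmain : (((Icc 1 X).filter (fun n => nbA L α (2 * n))).card : ℝ) ≤
      (gfun α + ε / 4) * X + ε / 4 * X := by
    have h1 := card_periodic (X := X) hm0 (P := fun n => nbA L α (2 * n)) (fun n => by
      rw [← nbA_mod L m hdvd α (2 * (n % m)), ← nbA_mod L m hdvd α (2 * n)]
      have : 2 * (n % m) % m = 2 * n % m := by
        rw [Nat.mul_mod, Nat.mod_mod, ← Nat.mul_mod]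
      rw [this])
    have h2 := card_double hm0 hodd (P := fun n => nbA L α n) (fun n => nbA_mod L m hdvd α n)
    have h3 := card_nbA L α hL3 (ol_nodup _)
    have h4 : (((Icc 1 X).filter (fun n => nbA L α (2 * n))).card : ℝ) ≤
        ((X / m : ℕ) + 1 : ℝ) * (((range m).filter (fun n => nbA L α n)).card : ℝ) := by
      have := h1.trans (Nat.mul_le_mul_left _ h2)
      exact_mod_cast this
    rw [h3] at h4
    have h5 : ((X / m : ℕ) : ℝ) * m ≤ X := by exact_mod_cast Nat.div_mul_le_self X m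
    have h6 := lexG_nonneg (K + 1) α
    have h7 := lexG_le_one (K + 1) α
    rw [← hL] at h6 h7
    have hmR : (0 : ℝ) < m := by exact_mod_cast hm0
    calc (((Icc 1 X).filter (fun n => nbA L α (2 * n))).card : ℝ) ≤
        ((X / m : ℕ) + 1 : ℝ) * (m * lexG L α) := h4
      _ = (((X / m : ℕ) : ℝ) * m) * lexG L α + m * lexG L α := by ring
      _ ≤ X * lexG L α + m * 1 := by
          apply add_le_add
          · exact mul_le_mul_of_nonneg_right h5 h6
          · exact mul_le_mul_of_nonneg_left h7 hmR.le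
      _ ≤ X * (gfun α + ε / 4) + ε / 4 * X := by
          apply add_le_add
          · exact mul_le_mul_of_nonneg_left hKg (Nat.cast_nonneg _)
          · linarith
      _ = _ := by ring
  have hfin : (((Icc 1 X).filter
      (fun n => ∃ a ∈ exSet α, ∃ p : ℕ, p.Prime ∧ a + p = 2 * n)).card : ℝ) ≤
      (((Icc 1 X).filter (fun n => nbA L α (2 * n))).card : ℝ) + E.card := by
    exact_mod_cast (Finset.card_le_card hsub).trans (Finset.card_union_le _ _)
  have hX0 : (0 : ℝ) ≤ X := Nat.cast_nonneg _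
  nlinarith

open Classical in
/-- lower bound for sets of primes with a lower relative density -/
theorem set_lower {α : ℝ} {A : Set ℕ} (hA : ∀ a ∈ A, a.Prime)
    (hd : ∀ ε : ℝ, 0 < ε → ∃ X₀ : ℕ, ∀ x : ℕ, X₀ ≤ x →
      (α - ε) * (Nat.primeCounting x : ℝ) ≤ (((range (x + 1)).filter (fun p => p ∈ A)).card : ℝ))
    {ε : ℝ} (hε : 0 < ε) : ∃ X₀ : ℕ, ∀ X : ℕ, X₀ ≤ X → (gfun α - ε) * X ≤
    (((Icc 1 X).filter (fun n => ∃ a ∈ A, ∃ p : ℕ, p.Prime ∧ a ≠ p ∧ a + p = 2 * n)).card : ℝ) := by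
  obtain ⟨τ, hτ, hg⟩ := gfun_near (show 0 < ε / 2 by positivity)
  set α' := max 0 (α - τ) with hα'
  have hα'0 : 0 ≤ α' := le_max_left _ _
  have hα'1 : α - α' ≤ τ := by
    have := le_max_right 0 (α - τ)
    linarith
  obtain ⟨δ, hδ0, hδ1, c, hc, X₁, hX₁⟩ := main_lower hα'0 (show 0 < ε / 2 by positivity)
  obtain ⟨X₂, hX₂⟩ := hd τ hτ
  obtain ⟨X₃, hX₃⟩ : ∃ X₃ : ℕ, ((X₂ : ℝ) + 1) / δ ≤ X₃ := exists_nat_ge _
  refine ⟨max (max X₁ X₃) 3, fun X hX => ?_⟩
  have hXa : X₁ ≤ X := (le_max_left _ _).trans ((le_max_left _ _).trans hX)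
  have hXb : X₃ ≤ X := (le_max_right _ _).trans ((le_max_left _ _).trans hX)
  have hX3 : 3 ≤ X := (le_max_right _ _).trans hX
  have hXR : (3 : ℝ) ≤ X := by exact_mod_cast hX3
  have hX2' : X₂ ≤ ⌊δ * X⌋₊ := by
    apply Nat.le_floor
    rw [div_le_iff₀ hδ0] at hX₃
    have : (X₃ : ℝ) ≤ X := by exact_mod_cast hXb
    nlinarith
  set s := ⌊δ * X⌋₊ with hs
  have h1 := hX₁ X hXa ((range (s + 1)).filter (fun p => p ∈ A)) (by
    intro p hp
    rw [Finset.mem_filter, Finset.mem_range] at hp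
    refine ⟨hA p hp.2, ?_⟩
    have h2 : p ≤ s := by omega
    have h3 : (s : ℝ) ≤ δ * X := Nat.floor_le (by positivity)
    exact le_trans (by exact_mod_cast h2) h3) (by
    rcases le_total 0 (α - τ) with h2 | h2
    · rw [hα', max_eq_right h2]
      exact hX₂ s hX2'
    · rw [hα', max_eq_left h2, zero_mul]
      exact Nat.cast_nonneg _)
  have h2 := hg α' α hα'1
  have hX0 : (0 : ℝ) ≤ X := by linarith
  refine le_trans (mul_le_mul_of_nonneg_right (by linarith) hX0) (h1.trans (Nat.cast_le.mpr ?_))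
  apply Finset.card_le_card
  intro n hn
  rw [Finset.mem_filter] at hn ⊢
  refine ⟨hn.1, ?_⟩
  have hpos : 0 < c * X / Real.log X ^ 2 := by
    have : 0 < Real.log X := Real.log_pos (by linarith)
    positivity
  have h3 : (0 : ℝ) < _ := hpos.trans_le hn.2
  have h4 := Nat.cast_pos.mp h3
  obtain ⟨a, ha⟩ := Finset.card_pos.mp h4
  rw [Finset.mem_filter, Finset.mem_filter] at ha
  exact ⟨a, ha.1.2, 2 * n - a, ha.2.2.1, fun h => ha.2.2.2 h.symm, by omega⟩

end Pool.Agent.Lib.MP_7b7e48_nt.LX
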