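import Pool.Agent.Lib.MP_7b7e48_nt.LX.Lower2
import Pool.Agent.Lib.MP_7b7e48_nt.LX.Sum

/-!
# MP_7b7e48_nt : two dense sets of primes, densities and extremal sets (helper81)
-/

namespace Pool.Agent.Lib.MP_7b7e48_nt.LX

open Finset Pool.Agent.Lib.GT Pool.Agent.Lib.GT.LA Pool.Agent.Lib.GT.Robust
open Pool.Agent.Lib.MP_7b7e48_nt.SP

open Classical in
/-- lower bound for two sets of primes with lower relative densities -/
theorem set_lower2 {q : ℕ} (hq : 5 ≤ q) {α β : ℝ} (hα : 0 ≤ α) (hβ : 0 ≤ β) {A B : Set ℕ}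
    (hA : ∀ a ∈ A, a.Prime) (hB : ∀ b ∈ B, b.Prime)
    (hdA : ∀ ε : ℝ, 0 < ε → ∃ X₀ : ℕ, ∀ x : ℕ, X₀ ≤ x →
      (α - ε) * (Nat.primeCounting x : ℝ) ≤ (((range (x + 1)).filter (fun p => p ∈ A)).card : ℝ))
    (hdB : ∀ ε : ℝ, 0 < ε → ∃ X₀ : ℕ, ∀ x : ℕ, X₀ ≤ x →
      (β - ε) * (Nat.primeCounting x : ℝ) ≤ (((range (x + 1)).filter (fun p => p ∈ B)).card : ℝ))
    {ε : ℝ} (hε : 0 < ε) : ∃ X₀ : ℕ, ∀ X : ℕ, X₀ ≤ X → (β * G2 q α - ε) * X ≤
    (((Icc 1 X).filter (fun n => ∃ a ∈ A, ∃ b ∈ B, a ≠ b ∧ a + b = 2 * n)).card : ℝ) := by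
  obtain ⟨η, hη, hg⟩ := G2_near hq hα hβ (show 0 < ε / 2 by positivity)
  set α' := max 0 (α - η) with hα'
  set β' := max 0 (β - η) with hβ'
  have hα'0 : 0 ≤ α' := le_max_left _ _
  have hβ'0 : 0 ≤ β' := le_max_left _ _
  obtain ⟨δ, hδ0, hδ1, c, hc, X₁, hX₁⟩ := main_lower2 hq hα'0 hβ'0 (show 0 < ε / 2 by positivity)
  obtain ⟨X₂, hX₂⟩ := hdA η hη
  obtain ⟨X₄, hX₄⟩ := hdB η hη
  obtain ⟨X₃, hX₃⟩ : ∃ X₃ : ℕ, ((X₂ : ℝ) + 1) / δ ≤ X₃ := exists_nat_ge _
  refine ⟨max (max X₁ X₃) (max X₄ 3), fun X hX => ?_⟩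
  have hXa : X₁ ≤ X := (le_max_left _ _).trans ((le_max_left _ _).trans hX)
  have hXb : X₃ ≤ X := (le_max_right _ _).trans ((le_max_left _ _).trans hX)
  have hXc : X₄ ≤ X := (le_max_left _ _).trans ((le_max_right _ _).trans hX)
  have hX3 : 3 ≤ X := (le_max_right _ _).trans ((le_max_right _ _).trans hX)
  have hXR : (3 : ℝ) ≤ X := by exact_mod_cast hX3
  have hX2' : X₂ ≤ ⌊δ * X⌋₊ := by
    apply Nat.le_floor
    rw [div_le_iff₀ hδ0] at hX₃
    have : (X₃ : ℝ) ≤ X := by exact_mod_cast hXb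
    nlinarith
  set s := ⌊δ * X⌋₊ with hs
  have h1 := hX₁ X hXa ((range (s + 1)).filter (fun p => p ∈ A))
    ((range (2 * X + 1)).filter (fun p => p ∈ B)) (by
    intro p hp
    rw [Finset.mem_filter, Finset.mem_range] at hp
    refine ⟨hA p hp.2, ?_⟩
    have h2 : p ≤ s := by omega
    have h3 : (s : ℝ) ≤ δ * X := Nat.floor_le (by positivity)
    exact le_trans (by exact_mod_cast h2) h3) (by
    rcases le_total 0 (α - η) with h2 | h2
    · rw [hα', max_eq_right h2]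
      exact hX₂ s hX2'
    · rw [hα', max_eq_left h2, zero_mul]
      exact Nat.cast_nonneg _) (by
    intro p hp
    rw [Finset.mem_filter, Finset.mem_range] at hp
    exact ⟨hB p hp.2, by omega⟩) (by
    rcases le_total 0 (β - η) with h2 | h2
    · rw [hβ', max_eq_right h2]
      exact hX₄ (2 * X) (by omega)
    · rw [hβ', max_eq_left h2, zero_mul]
      exact Nat.cast_nonneg _)
  have h2 := hg α' β' (le_max_right _ _) hα'0 (le_max_right _ _) hβ'0
  have hX0 : (0 : ℝ) ≤ X := by linarith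
  refine le_trans (mul_le_mul_of_nonneg_right (by linarith) hX0) (h1.trans (Nat.cast_le.mpr ?_))
  apply Finset.card_le_card
  intro n hn
  rw [Finset.mem_filter] at hn ⊢
  refine ⟨hn.1, ?_⟩
  have hpos : 0 < c * X / Real.log X ^ 2 := by
    have : 0 < Real.log X := Real.log_pos (by linarith)
    positivity
  have h3 : (0 : ℝ) < _ := hpos.trans_le hn.2
  have h4 := Nat.cast_pos.mp h3
  obtain ⟨x, hx⟩ := Finset.card_pos.mp h4
  rw [Finset.mem_filter, Finset.mem_product, Finset.mem_filter, Finset.mem_filter] at hx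
  exact ⟨x.1, hx.1.1.2, x.2, hx.1.2.2, hx.2.1, hx.2.2⟩

/-- the primes in the classes `J` modulo the primorial -/
def clSet (K : ℕ) (J : Finset ℕ) : Set ℕ := {p | p.Prime ∧ p % Wp K ∈ J}

open Classical in
theorem clSet_density {K : ℕ} (hK : 2 ≤ K) {J : Finset ℕ} (hJ : J ⊆ un K) {ε : ℝ} (hε : 0 < ε) :
    ∃ X₀ : ℕ, ∀ x : ℕ, X₀ ≤ x →
      ((J.card : ℝ) / (un K).card - ε) * (Nat.primeCounting x : ℝ) ≤
        (((range (x + 1)).filter (fun p => p ∈ clSet K J)).card : ℝ) ∧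
      (((range (x + 1)).filter (fun p => p ∈ clSet K J)).card : ℝ) ≤
        ((J.card : ℝ) / (un K).card + ε) * (Nat.primeCounting x : ℝ) := by
  have hQ : ∀ n, (n % Wp K % Wp K ∈ J) ↔ (n % Wp K ∈ J) := fun n => by rw [Nat.mod_mod]
  have hc : (un K).filter (fun n => n % Wp K ∈ J) = J := by
    ext u
    rw [Finset.mem_filter]
    constructor
    · rintro ⟨h1, h2⟩
      rwa [Nat.mod_eq_of_lt (mem_un.1 h1).1] at h2
    · intro h
      have h1 := hJ h
      refine ⟨h1, ?_⟩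
      rwa [Nat.mod_eq_of_lt (mem_un.1 h1).1]
  obtain ⟨X₁, hX₁⟩ := prime_class_lower hK (fun n => n % Wp K ∈ J) hQ hε
  obtain ⟨X₂, hX₂⟩ := prime_class_upper hK (fun n => n % Wp K ∈ J) hQ hε
  refine ⟨max X₁ X₂, fun x hx => ⟨?_, ?_⟩⟩
  · have h := hX₁ x ((le_max_left _ _).trans hx)
    have e : (@Finset.filter ℕ (fun n => n % Wp K ∈ J)
        (fun a => Classical.propDecidable _) (un K)).card = J.card := by
      rw [← hc]
      congr 2
      rw [hc]
    rw [e] at h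
    convert h
    exact Iff.rfl
  · have h := hX₂ x ((le_max_right _ _).trans hx)
    have e : (@Finset.filter ℕ (fun n => n % Wp K ∈ J)
        (fun a => Classical.propDecidable _) (un K)).card = J.card := by
      rw [← hc]
      congr 2
      rw [hc]
    rw [e] at h
    convert h
    exact Iff.rfl

open Classical in
/-- the sums of the class 1 and of the classes `J` -/
theorem clSet_sum {K : ℕ} (hK : 2 ≤ K) (J : Finset ℕ) (X : ℕ) :
    (((Icc 1 X).filter (fun n => ∃ a ∈ clSet K {1}, ∃ b ∈ clSet K J, a ≠ b ∧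
      a + b = 2 * n)).card : ℝ) ≤ (X : ℝ) * ((J.card : ℝ) / (ol (K + 1)).prod) + J.card := by
  have hW := Wp_eq_nat hK
  set m := (ol (K + 1)).prod with hm
  have hm0 : 0 < m := list_prod_pos fun r hr => (ol_three r hr).1
  set T := J.image (fun u => (1 + u) % Wp K) with hT
  have hTc : T.card ≤ J.card := Finset.card_image_le
  have h1 : ((Icc 1 X).filter (fun n => ∃ a ∈ clSet K {1}, ∃ b ∈ clSet K J, a ≠ b ∧
      a + b = 2 * n)).card ≤ ((Icc 1 X).filter (fun n => 2 * n % Wp K ∈ T)).card := by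
    apply Finset.card_le_card
    intro n hn
    rw [Finset.mem_filter] at hn ⊢
    refine ⟨hn.1, ?_⟩
    obtain ⟨a, ha, b, hb, _, hab⟩ := hn.2
    have ha2 : a % Wp K = 1 := Finset.mem_singleton.mp ha.2
    rw [hT, Finset.mem_image]
    refine ⟨b % Wp K, hb.2, ?_⟩
    rw [← hab, Nat.add_mod a b, ha2]
  have h2 := card_periodic (X := X) hm0 (P := fun n => 2 * n % Wp K ∈ T) (fun n => by
    rw [hW, Nat.mul_mod_mul_left, Nat.mul_mod_mul_left, Nat.mod_mod])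
  have h3 : ((range m).filter (fun n => 2 * n % Wp K ∈ T)).card ≤ T.card := by
    apply Finset.card_le_card_of_injOn (fun n => 2 * n % Wp K)
    · intro n hn
      rw [Finset.mem_coe, Finset.mem_filter] at hn
      exact hn.2
    · intro a ha b hb h
      rw [Finset.mem_coe, Finset.mem_filter, Finset.mem_range] at ha hb
      have h4 : 2 * a % Wp K = 2 * b % Wp K := h
      rw [hW, Nat.mod_eq_of_lt (by omega), Nat.mod_eq_of_lt (by omega)] at h4
      omega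
  have h4 : ((Icc 1 X).filter (fun n => ∃ a ∈ clSet K {1}, ∃ b ∈ clSet K J, a ≠ b ∧
      a + b = 2 * n)).card ≤ (X / m + 1) * J.card :=
    h1.trans (h2.trans (Nat.mul_le_mul_left _ (h3.trans hTc)))
  have h5 : (((Icc 1 X).filter (fun n => ∃ a ∈ clSet K {1}, ∃ b ∈ clSet K J, a ≠ b ∧
      a + b = 2 * n)).card : ℝ) ≤ ((X / m : ℕ) + 1 : ℝ) * J.card := by exact_mod_cast h4
  have hmR : (0 : ℝ) < m := by exact_mod_cast hm0
  have h6 : ((X / m : ℕ) : ℝ) ≤ X / m := Nat.cast_div_le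
  refine h5.trans ?_
  calc ((X / m : ℕ) + 1 : ℝ) * J.card ≤ ((X : ℝ) / m + 1) * J.card :=
        mul_le_mul_of_nonneg_right (by linarith) (Nat.cast_nonneg _)
    _ = _ := by ring

theorem one_mem_un {K : ℕ} (hK : 2 ≤ K) : 1 ∈ un K := by
  rw [mem_un_coprime]
  refine ⟨?_, Nat.coprime_one_left _⟩
  rw [Wp_eq_nat hK]
  have : 0 < (ol (K + 1)).prod := list_prod_pos fun r hr => (ol_three r hr).1
  omega

theorem card_un_op {K : ℕ} (hK : 2 ≤ K) : ((un K).card : ℝ) = ∏ p ∈ op (K + 1), ((p : ℝ) - 1) := by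
  rw [card_un, VW_eq hK]
  unfold ph
  rw [ol_prod]

theorem prod_ol (n : ℕ) : (((ol n).prod : ℕ) : ℝ) = ∏ p ∈ op n, (p : ℝ) := by
  rw [← ol_prod n (fun p : ℕ => (p : ℝ)), Nat.cast_list_prod]

theorem G2_value (q : ℕ) : G2 q (1 / ∏ p ∈ op q, ((p : ℝ) - 1)) = ∏ p ∈ op q, (1 - 1 / (p : ℝ)) := by
  unfold G2
  rw [mul_one_div_cancel (op_prod_pos q).ne', Real.one_rpow, mul_one]

/-- the value at the extremal pairs -/
theorem G2_pair (q : ℕ) (j : ℝ) : j / (∏ p ∈ op q, ((p : ℝ) - 1)) *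
    G2 q (1 / ∏ p ∈ op q, ((p : ℝ) - 1)) = j / ∏ p ∈ op q, (p : ℝ) := by
  rw [G2_value]
  have h1 : ∏ p ∈ op q, (1 - 1 / (p : ℝ)) =
      (∏ p ∈ op q, ((p : ℝ) - 1)) / ∏ p ∈ op q, (p : ℝ) := by
    rw [← Finset.prod_div_distrib]
    refine Finset.prod_congr rfl fun p hp => ?_
    have := op_three hp
    field_simp
  have h2 := (op_prod_pos q).ne'
  rw [h1]
  field_simp

end Pool.Agent.Lib.MP_7b7e48_nt.LX
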