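import Pool.Agent.Lib.MP_7b7e48_nt.LX.Cyc
import Pool.Agent.Lib.MP_7b7e48_nt.LX.Nat

/-!
# MP_7b7e48_nt : the local theorem for two dense summands (helper81)
-/

namespace Pool.Agent.Lib.MP_7b7e48_nt.LX

open Finset Pool.Agent.Lib.GT Pool.Agent.Lib.GT.LA Pool.Agent.Lib.GT.Robust
open Pool.Agent.Lib.MP_7b7e48_nt.SP

theorem ownS_mono {n m : ℕ} (hn : 1 ≤ n) (hnm : n ≤ m) : ownS n ≤ ownS m := by
  unfold ownS
  have h1 := log_one_add_pos (hn.trans hnm)
  have h0 := log_one_add_pos hn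
  have hn0 : (0 : ℝ) < n := by exact_mod_cast hn
  have hnm' : (n : ℝ) ≤ m := by exact_mod_cast hnm
  have h2 : Real.log (1 + 1 / (m : ℝ)) ≤ Real.log (1 + 1 / (n : ℝ)) := by
    have h5 := one_div_le_one_div_of_le hn0 hnm'
    have h6 : 0 < 1 / (m : ℝ) := one_div_pos.mpr (hn0.trans_le hnm')
    exact Real.log_le_log (by linarith) (by linarith)
  have h3 : Real.log n ≤ Real.log m := Real.log_le_log hn0 hnm'
  have h4 : 0 ≤ Real.log n := Real.log_natCast_nonneg n
  exact div_le_div₀ (h4.trans h3) h3 h1 h2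

theorem ownS_pos {n : ℕ} (hn : 2 ≤ n) : 0 < ownS n :=
  div_pos (Real.log_pos (by exact_mod_cast hn)) (log_one_add_pos (by omega))

theorem adm_outer {p q : ℕ} (hp : p.Prime) (hp3 : 3 ≤ p) (hq : 5 ≤ q) (hpq : p ≤ q) :
    Adm (p - 1) (ownS (q - 1)) := by
  rcases Nat.lt_or_ge p 5 with h | h
  · have : p = 3 := by
      have h4 : p ≠ 4 := by
        rintro rfl
        exact absurd hp (by norm_num)
      omega
    subst this
    apply adm_two
    have h1 := ownS_ge' (n := q - 1) (by omega)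
    have h2 : (4 : ℝ) ≤ ((q - 1 : ℕ) : ℝ) := by
      have : 4 ≤ q - 1 := by omega
      exact_mod_cast this
    linarith
  · exact (adm_own (by omega)).of_le (by omega) (ownS_pos (by omega))
      (ownS_mono (by omega) (by omega))

section Step

variable {p : ℕ} [Fact p.Prime] {R : Type} [CommRing R] [Fintype R]

theorem locF_outer {C θ s : ℝ} (hC : 0 ≤ C) (hθ : 0 < θ) (hs : 0 < s) (hθs : θ * s = 1)
    (hp : 3 ≤ p) (hA : Adm (p - 1) s) (h : LocF R C θ) :
    LocF (ZMod p × R) (C * (((p : ℝ) - 1) / p * ((p : ℝ) - 1) ^ θ)) θ := by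
  classical
  intro S b M hS hb hbu hM hM0
  have key := locF_common hC hθ hs hp hA h S b M hS hb hbu hM hM0
  have hp3 : (3 : ℝ) ≤ p := by exact_mod_cast hp
  set U : ℝ := ((unitsF R).card : ℝ) with hU
  have hU0 : 0 < U := by rw [hU]; exact_mod_cast unitsF_pos R
  have hun : ((unitsF (ZMod p × R)).card : ℝ) = ((p : ℝ) - 1) * U := by
    rw [card_units_prod, Nat.cast_mul, Nat.cast_sub (by omega), Nat.cast_one]
  have hcard : (Fintype.card (ZMod p × R) : ℝ) = p * Fintype.card R := by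
    rw [Fintype.card_prod, ZMod.card]; push_cast; ring
  have hsum : ∑ u ∈ (univ : Finset (ZMod p)).erase 0,
      (((fib S u).card : ℝ) / U) ^ (θ * s) = ((p : ℝ) - 1) * ((S.card : ℝ) / (((p : ℝ) - 1) * U)) := by
    have h1 : ((p : ℝ) - 1) * ((S.card : ℝ) / (((p : ℝ) - 1) * U)) = (S.card : ℝ) / U := by
      rw [← mul_div_assoc, mul_div_mul_left _ _ (by linarith : (p : ℝ) - 1 ≠ 0)]
    rw [h1, sum_fib_erase S hS, hθs]
    push_cast
    rw [Finset.sum_div]
    exact Finset.sum_congr rfl fun u _ => Real.rpow_one _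
  have h1s : 1 / s = θ := by field_simp; linarith
  rw [hsum, h1s, Real.mul_rpow (by linarith)
    (div_nonneg (Nat.cast_nonneg _) (mul_nonneg (by linarith) hU0.le))] at key
  rw [hun, hcard]
  refine le_trans (le_of_eq ?_) key
  have hp0 : (p : ℝ) ≠ 0 := by linarith
  have hp1 : (p : ℝ) - 1 ≠ 0 := by linarith
  have haux : ∀ c r x y B : ℝ, c * (((p : ℝ) - 1) / p * y) * ((p : ℝ) * r) * x *
      (B / (((p : ℝ) - 1) * U)) = c * r * (y * x) * (B / U) := by
    intro c r x y B
    field_simp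
  exact haux _ _ _ _ _

theorem locF_inner {C θ : ℝ} (hC : 0 ≤ C) (hθ : 0 < θ) (hp : 5 ≤ p)
    (hθs : 1 ≤ θ * ownS (p - 1)) (h : LocF R C θ) : LocF (ZMod p × R) C θ := by
  classical
  intro S b M hS hb hbu hM hM0
  have hs := ownS_pos (n := p - 1) (by omega)
  have key := locF_common hC hθ hs (by omega) (adm_own (by omega)) h S b M hS hb hbu hM hM0
  have hp3 : (5 : ℝ) ≤ p := by exact_mod_cast hp
  set U : ℝ := ((unitsF R).card : ℝ) with hU
  have hU0 : 0 < U := by rw [hU]; exact_mod_cast unitsF_pos R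
  have hun : ((unitsF (ZMod p × R)).card : ℝ) = ((p : ℝ) - 1) * U := by
    rw [card_units_prod, Nat.cast_mul, Nat.cast_sub (by omega), Nat.cast_one]
  have hcard : (Fintype.card (ZMod p × R) : ℝ) = p * Fintype.card R := by
    rw [Fintype.card_prod, ZMod.card]; push_cast; ring
  set s := ownS (p - 1) with hsdef
  set σ : ℝ := (S.card : ℝ) / (((p : ℝ) - 1) * U) with hσ
  have hp1 : 0 < (p : ℝ) - 1 := by linarith
  have hσ0 : 0 ≤ σ := div_nonneg (Nat.cast_nonneg _) (mul_nonneg hp1.le hU0.le)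
  have hDc : (((univ : Finset (ZMod p)).erase 0).card : ℝ) = (p : ℝ) - 1 := by
    rw [card_ne_zero_zmod, Nat.cast_sub (by omega), Nat.cast_one]
  -- power mean
  have hpm := Real.rpow_arith_mean_le_arith_mean_rpow ((univ : Finset (ZMod p)).erase 0)
    (fun _ => 1 / ((p : ℝ) - 1)) (fun u => ((fib S u).card : ℝ) / U)
    (fun _ _ => (one_div_pos.mpr hp1).le) (by
      rw [Finset.sum_const, nsmul_eq_mul, hDc, mul_one_div_cancel hp1.ne'])
    (fun u _ => div_nonneg (Nat.cast_nonneg _) hU0.le) hθs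
  rw [← Finset.mul_sum, ← Finset.mul_sum, ← Finset.sum_div] at hpm
  have e1 : 1 / ((p : ℝ) - 1) * ((∑ u ∈ (univ : Finset (ZMod p)).erase 0,
      ((fib S u).card : ℝ)) / U) = σ := by
    rw [hσ, sum_fib_erase S hS]
    push_cast
    rw [one_div_mul_eq_div, div_div, mul_comm U]
  rw [e1] at hpm
  set T := ∑ u ∈ (univ : Finset (ZMod p)).erase 0, (((fib S u).card : ℝ) / U) ^ (θ * s) with hT
  have h1 : ((p : ℝ) - 1) * σ ^ (θ * s) ≤ T := by
    have h2 := mul_le_mul_of_nonneg_left hpm hp1.le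
    have h3 : ((p : ℝ) - 1) * (1 / ((p : ℝ) - 1) * T) = T := by
      rw [← mul_assoc, mul_one_div_cancel hp1.ne', one_mul]
    linarith
  have h2 : (p : ℝ) / ((p : ℝ) - 1) * σ ^ θ ≤ T ^ (1 / s) := by
    have h3 : (p : ℝ) / ((p : ℝ) - 1) * σ ^ θ = (((p : ℝ) - 1) * σ ^ (θ * s)) ^ (1 / s) := by
      rw [Real.mul_rpow hp1.le (Real.rpow_nonneg hσ0 _), ← Real.rpow_mul hσ0]
      have e2 : θ * s * (1 / s) = θ := by
        rw [mul_assoc, mul_one_div_cancel hs.ne', mul_one]
      rw [e2]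
      congr 1
      have h4 := ownS_rpow (n := p - 1) (by omega)
      have h5 : ((p - 1 : ℕ) : ℝ) = (p : ℝ) - 1 := by
        rw [Nat.cast_sub (by omega), Nat.cast_one]
      rw [h5, ← hsdef] at h4
      have h6 : 1 + 1 / ((p : ℝ) - 1) = (p : ℝ) / ((p : ℝ) - 1) := by field_simp; ring
      rw [h6] at h4
      conv_rhs => rw [← h4]
      rw [← Real.rpow_mul (div_nonneg (by linarith) hp1.le), mul_one_div_cancel hs.ne',
        Real.rpow_one]
    rw [h3]
    exact Real.rpow_le_rpow (mul_nonneg hp1.le (Real.rpow_nonneg hσ0 _)) h1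
      (one_div_pos.mpr hs).le
  rw [hun, hcard, ← hσ]
  refine le_trans ?_ key
  have hB0 : 0 ≤ (∑ v, b v) / U := div_nonneg (Finset.sum_nonneg fun v _ => hb v) hU0.le
  have haux : ∀ c r x B : ℝ, c * ((p : ℝ) * r) * x * (B / (((p : ℝ) - 1) * U)) =
      c * r * ((p : ℝ) / ((p : ℝ) - 1) * x) * (B / U) := by
    intro c r x B
    field_simp
  calc C * (p * Fintype.card R) * σ ^ θ * ((∑ v, b v) / (((p : ℝ) - 1) * U))
      = C * Fintype.card R * ((p : ℝ) / ((p : ℝ) - 1) * σ ^ θ) * ((∑ v, b v) / U) :=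
        haux _ _ _ _
    _ ≤ _ := mul_le_mul_of_nonneg_right
        (mul_le_mul_of_nonneg_left h2 (mul_nonneg hC (Nat.cast_nonneg _))) hB0

end Step

theorem locF_two {R : Type} [CommRing R] [Fintype R] {C θ : ℝ} (h : LocF R C θ) :
    LocF (ZMod 2 × R) (C / 2) θ := by
  classical
  have : Fact (Nat.Prime 2) := ⟨Nat.prime_two⟩
  intro S b M hS hb hbu hM hM0
  have e1 : (unitsF (ZMod 2 × R)).card = (unitsF R).card := by
    rw [card_units_prod]; simp
  have e0 : (univ : Finset (ZMod 2)).erase 0 = {1} := by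
    have h01 : ∀ x : ZMod 2, x = 0 ∨ x = 1 := by
      intro x
      fin_cases x
      · left; rfl
      · right; rfl
    ext x
    rcases h01 x with rfl | rfl <;> simp
  have e2 : S.card = (fib S 1).card := by
    rw [sum_fib_erase S hS, e0, Finset.sum_singleton]
  have h11 : (1 : ZMod 2) + 1 = 0 := rfl
  have k := h (fib S 1) (fun r => b (1, r)) (fun r => M (0, r))
    (fun s hs => (isUnit_prod.mp (hS _ (mem_fib.mp hs))).2) (fun r => hb _)
    (fun r hr => hbu _ fun h => hr (isUnit_prod.mp h).2)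
    (fun r hr w => by
      have := hM _ (mem_fib.mp hr) (1, w)
      rwa [Prod.mk_add_mk, h11] at this) (fun r => hM0 _)
  have e3 : ∑ v, b v = ∑ r : R, b (1, r) := by
    rw [← Finset.univ_product_univ, Finset.sum_product,
      ← Finset.add_sum_erase univ _ (mem_univ (0 : ZMod 2)), e0, Finset.sum_singleton,
      Finset.sum_eq_zero, zero_add]
    intro r _
    exact hbu _ fun h => (isUnit_prod.mp h).1 rfl
  have e4 : ∑ r : R, M (0, r) ≤ ∑ v, M v := by
    rw [← Finset.univ_product_univ, Finset.sum_product]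
    exact Finset.single_le_sum (f := fun z : ZMod 2 => ∑ r : R, M (z, r))
      (fun z _ => Finset.sum_nonneg fun r _ => hM0 _) (mem_univ (0 : ZMod 2))
  have hcard : (Fintype.card (ZMod 2 × R) : ℝ) = 2 * Fintype.card R := by
    rw [Fintype.card_prod, ZMod.card]; push_cast; ring
  rw [e1, e2, e3, hcard]
  refine le_trans (le_of_eq ?_) (k.trans e4)
  ring

/-- the factor of the prime `p` -/
noncomputable def cc (q : ℕ) (θ : ℝ) (p : ℕ) : ℝ :=
  if p < q then ((p : ℝ) - 1) / p * ((p : ℝ) - 1) ^ θ else 1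

noncomputable def CC (q : ℕ) (θ : ℝ) (L : List ℕ) : ℝ := (L.map (cc q θ)).prod

theorem CC_cons (q : ℕ) (θ : ℝ) (p : ℕ) (L : List ℕ) :
    CC q θ (p :: L) = CC q θ L * cc q θ p := by
  unfold CC
  rw [List.map_cons, List.prod_cons, mul_comm]

theorem cc_nonneg {q : ℕ} {θ : ℝ} {p : ℕ} (hp : 1 ≤ p) : 0 ≤ cc q θ p := by
  unfold cc
  have hp1 : (1 : ℝ) ≤ p := by exact_mod_cast hp
  split_ifs
  · exact mul_nonneg (div_nonneg (by linarith) (by linarith)) (Real.rpow_nonneg (by linarith) _)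
  · exact zero_le_one

theorem CC_nonneg {q : ℕ} {θ : ℝ} : ∀ {L : List ℕ}, (∀ p ∈ L, 1 ≤ p) → 0 ≤ CC q θ L
  | [], _ => by simp [CC]
  | p :: L, h => by
    rw [CC_cons]
    exact mul_nonneg (CC_nonneg fun r hr => h r (by simp [hr])) (cc_nonneg (h p (by simp)))

theorem locF_zmod {q : ℕ} (hq : 5 ≤ q) (L : List ℕ) : (∀ p ∈ L, p.Prime ∧ p ≠ 2) → L.Nodup →
    ∀ inst : Fintype (ZMod L.prod),
      @LocF (ZMod L.prod) _ inst (CC q (1 / ownS (q - 1)) L) (1 / ownS (q - 1)) := by
  have hs := ownS_pos (n := q - 1) (by omega)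
  have hθ : 0 < 1 / ownS (q - 1) := one_div_pos.mpr hs
  induction L with
  | nil =>
    intro _ _ inst
    have : Subsingleton (ZMod ([] : List ℕ).prod) := by
      rw [List.prod_nil]; infer_instance
    have h1 : CC q (1 / ownS (q - 1)) [] = 1 := by simp [CC]
    rw [h1]
    exact locF_subsingleton _ hθ
  | cons p L ih =>
    intro hpr hnd inst
    have hp : p.Prime := (hpr p (by simp)).1
    have hp2 : p ≠ 2 := (hpr p (by simp)).2
    have hp3 : 3 ≤ p := by
      have := hp.two_le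
      omega
    have : Fact p.Prime := ⟨hp⟩
    have hne : L.prod ≠ 0 := by
      rw [Ne, List.prod_eq_zero_iff]
      intro h0
      exact Nat.not_prime_zero (hpr 0 (by simp [h0])).1
    have : NeZero L.prod := ⟨hne⟩
    have ih' := ih (fun r hr => hpr r (by simp [hr])) (List.nodup_cons.mp hnd).2 inferInstance
    have hcop : Nat.Coprime p L.prod := by
      rw [Nat.coprime_list_prod_right_iff]
      intro r hr
      rw [Nat.coprime_primes hp (hpr r (by simp [hr])).1]
      rintro rfl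
      exact (List.nodup_cons.mp hnd).1 hr
    have hC0 : 0 ≤ CC q (1 / ownS (q - 1)) L :=
      CC_nonneg fun r hr => (hpr r (by simp [hr])).1.one_le
    have e : ZMod p × ZMod L.prod ≃+* ZMod (p :: L).prod :=
      (ZMod.chineseRemainder hcop).symm
    rw [CC_cons]
    rcases Nat.lt_or_ge p q with h | h
    · have key := locF_outer (p := p) hC0 hθ hs (one_div_mul_cancel hs.ne') hp3
        (adm_outer hp hp3 hq h.le) ih'
      unfold cc
      rw [if_pos h]
      exact key.of_equiv e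
    · have key := locF_inner (p := p) hC0 hθ (by omega) (by
        have h1 := ownS_mono (n := q - 1) (m := p - 1) (by omega) (by omega)
        rw [one_div_mul_eq_div, le_div_iff₀ hs]
        linarith) ih'
      unfold cc
      rw [if_neg (not_lt.mpr h), mul_one]
      exact key.of_equiv e

theorem locF_Wp {K q : ℕ} (hK : 2 ≤ K) (hq : 5 ≤ q) (inst : Fintype (ZMod (Wp K))) :
    @LocF (ZMod (Wp K)) _ inst (CC q (1 / ownS (q - 1)) (ol (K + 1)) / 2) (1 / ownS (q - 1)) := by
  have hpr : ∀ p ∈ ol (K + 1), p.Prime ∧ p ≠ 2 := fun p hp => (mem_ol.mp hp).2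
  have hne : (ol (K + 1)).prod ≠ 0 := by
    rw [Ne, List.prod_eq_zero_iff]
    intro h0
    exact Nat.not_prime_zero (hpr 0 h0).1
  have : NeZero (ol (K + 1)).prod := ⟨hne⟩
  have key := locF_two (locF_zmod hq (ol (K + 1)) hpr
    ((ol_pairwise _).imp fun h => ne_of_lt h) inferInstance)
  have hcop : Nat.Coprime 2 (ol (K + 1)).prod := by
    rw [Nat.coprime_list_prod_right_iff]
    intro r hr
    rw [mem_ol] at hr
    rw [Nat.coprime_primes Nat.prime_two hr.2.1]
    exact fun h => hr.2.2 h.symm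
  have e : ZMod 2 × ZMod (ol (K + 1)).prod ≃+* ZMod (Wp K) :=
    (ZMod.chineseRemainder hcop).symm.trans (ZMod.ringEquivCongr (Wp_eq_nat hK).symm)
  exact key.of_equiv e

/-- **The local theorem for two dense sets** of residue classes modulo a primorial. -/
theorem locF_un {K q : ℕ} (hK : 2 ≤ K) (hq : 5 ≤ q) (S : Finset ℕ) (hS : S ⊆ un K)
    (b M : ℕ → ℝ) (hb : ∀ v, 0 ≤ b v) (hM : ∀ u ∈ S, ∀ v ∈ un K, b v ≤ M ((u + v) % Wp K))
    (hM0 : ∀ c, 0 ≤ M c) :
    (Wp K : ℝ) / 2 * (CC q (1 / ownS (q - 1)) (ol (K + 1)) *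
      ((S.card : ℝ) / (un K).card) ^ (1 / ownS (q - 1)) *
      ((∑ v ∈ un K, b v) / (un K).card)) ≤ ∑ c ∈ range (Wp K), M c := by
  classical
  have : NeZero (Wp K) := ⟨(Wp_pos K).ne'⟩
  set T : Finset (ZMod (Wp K)) := S.image (fun u : ℕ => (u : ZMod (Wp K))) with hT
  have hTu : ∀ s ∈ T, IsUnit s := by
    intro s hs
    rw [hT, Finset.mem_image] at hs
    obtain ⟨u, hu, rfl⟩ := hs
    rw [ZMod.isUnit_iff_coprime]
    exact (mem_un_coprime.mp (hS hu)).2
  have hval : ∀ z : ZMod (Wp K), IsUnit z → z.val ∈ un K := by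
    intro z hz
    rw [mem_un_coprime]
    refine ⟨ZMod.val_lt _, ?_⟩
    rw [← ZMod.isUnit_iff_coprime, ZMod.natCast_zmod_val]
    exact hz
  have key := locF_Wp hK hq inferInstance T (fun v => if IsUnit v then b v.val else 0)
    (fun z => M z.val) hTu (fun v => by
      split_ifs
      · exact hb _
      · exact le_rfl) (fun v hv => if_neg hv) (fun s hs v => by
      split_ifs with hv
      · rw [hT, Finset.mem_image] at hs
        obtain ⟨u, hu, rfl⟩ := hs
        have h1 := hM u hu v.val (hval v hv)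
        have h2 : (((u : ℕ) : ZMod (Wp K)) + v).val = (u + v.val) % Wp K := by
          rw [← ZMod.val_natCast]
          push_cast
          rw [ZMod.natCast_zmod_val]
        rw [h2]
        exact h1
      · exact hM0 _) (fun z => hM0 _)
  have hcT : T.card = S.card := by
    rw [hT]
    apply Finset.card_image_of_injOn
    intro a ha b hb hab
    have h1 := (mem_un_coprime.mp (hS ha)).1
    have h2 := (mem_un_coprime.mp (hS hb)).1
    have h3 : (a : ZMod (Wp K)) = b := hab
    rw [ZMod.natCast_eq_natCast_iff', Nat.mod_eq_of_lt h1, Nat.mod_eq_of_lt h2] at h3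
    exact h3
  have hsb : ∑ v : ZMod (Wp K), (if IsUnit v then b v.val else 0) = ∑ v ∈ un K, b v := by
    rw [← Finset.sum_filter]
    apply Finset.sum_bij (fun (x : ZMod (Wp K)) _ => x.val)
    · intro x hx
      rw [Finset.mem_filter] at hx
      exact hval x hx.2
    · intro x _ y _ h
      exact ZMod.val_injective _ h
    · intro u hu
      rw [mem_un_coprime] at hu
      refine ⟨(u : ZMod (Wp K)), ?_, ?_⟩
      · rw [Finset.mem_filter, ZMod.isUnit_iff_coprime]
        exact ⟨mem_univ _, hu.2⟩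
      · rw [ZMod.val_natCast, Nat.mod_eq_of_lt hu.1]
    · intro x _
      rfl
  have hsM : ∑ z : ZMod (Wp K), M z.val = ∑ c ∈ range (Wp K), M c := by
    apply Finset.sum_bij (fun (x : ZMod (Wp K)) _ => x.val)
    · intro x _
      exact Finset.mem_range.mpr (ZMod.val_lt x)
    · intro x _ y _ h
      exact ZMod.val_injective _ h
    · intro u hu
      rw [Finset.mem_range] at hu
      exact ⟨(u : ZMod (Wp K)), mem_univ _, by rw [ZMod.val_natCast, Nat.mod_eq_of_lt hu]⟩
    · intro x _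
      rfl
  rw [hcT, card_unitsF_Wp, ZMod.card, hsb, hsM] at key
  refine le_trans (le_of_eq ?_) key
  ring

end Pool.Agent.Lib.MP_7b7e48_nt.LX
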